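import Pool.Agent.K9h25.M.Fin

/-!
Adjoint boundaries on arbitrary hypersurfaces of tori.
-/

set_option autoImplicit false
set_option linter.overlappingInstances false
set_option linter.unusedSectionVars false
set_option linter.unusedVariables false

open FF IntermediateField Pool.Agent.R885 Pool.Agent.R885.N Pool.Agent.W602.GT
  Pool.Agent.W603.LV Pool.Agent.W619.PQ Pool.Agent.Y173.QA Pool.Agent.W619.TW
  Pool.Agent.W619.Y Pool.Agent.W672.PG Pool.Agent.W824.PG Pool.Agent.Y172 Pool.Agent.Y191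
  Pool.Agent.Y174

namespace Pool.Agent.K9h25.M

/-- `ω` is the residue of `(dx_0 / x_0) ∧ ... ∧ (dx_n / x_n) / f` on the hypersurface `f = 0`. -/
def IsRes {k K : Type} [Field k] [Field K] [Algebra k K] {n : ℕ} (f : (Fin (n + 1) → ℤ) →₀ k)
    (x : Fin (n + 1) → K) (ω : (Fin n → Derivation k K K) → K) : Prop :=
  ∀ (i : Fin (n + 1)) (D : Fin n → Derivation k K K),
    ω D * gr x f i = (-1) ^ (i : ℕ) *
      Matrix.det (Matrix.of fun a b => D a (x (i.succAbove b)) / x (i.succAbove b))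

/-- the equivalence given by an index -/
noncomputable def eI {n : ℕ} (i : Fin (n + 1)) : Fin 1 ⊕ Fin n ≃ Fin (n + 1) :=
  Equiv.ofBijective (Sum.elim (fun _ => i) i.succAbove) (by
    constructor
    · rintro (a | a) (b | b) h
      · rw [Subsingleton.elim a b]
      · exact absurd h.symm (Fin.succAbove_ne i b)
      · exact absurd h (Fin.succAbove_ne i a)
      · rw [Fin.succAbove_right_injective h]
    · intro j
      by_cases hj : j = i
      · exact ⟨Sum.inl 0, hj.symm⟩
      · obtain ⟨b, hb⟩ := Fin.exists_succAbove_eq hj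
        exact ⟨Sum.inr b, hb⟩)

theorem eI_inl {n : ℕ} (i : Fin (n + 1)) (a : Fin 1) : eI i (Sum.inl a) = i := rfl

theorem eI_inr {n : ℕ} (i : Fin (n + 1)) (b : Fin n) : eI i (Sum.inr b) = i.succAbove b := rfl

/-- the rows given by an index -/
def CI {n : ℕ} (i : Fin (n + 1)) : Fin n → Fin (n + 1) → ℤ := fun b =>
  Pi.single (i.succAbove b) 1

theorem dt_I {K : Type} [Field K] {n : ℕ} (i : Fin (n + 1)) (u : Fin (n + 1) → K) :
    dt (eI i) (fun _ : Fin 1 => u) (CI i) = u i := by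
  unfold dt
  have h1 : (Matrix.of fun a b => rows (fun _ : Fin 1 => u) (CI i) a (eI i b)) =
      Matrix.fromBlocks (Matrix.of fun _ _ : Fin 1 => u i)
        (Matrix.of fun (_ : Fin 1) (b : Fin n) => u (i.succAbove b)) 0 1 := by
    ext a b
    rcases a with a | a
    · rcases b with b | b
      · rfl
      · rfl
    · rcases b with b | b
      · change ((CI i a (eI i (Sum.inl b)) : ℤ) : K) = 0
        rw [eI_inl]
        unfold CI
        rw [Pi.single_apply, if_neg (Fin.succAbove_ne i a).symm, Int.cast_zero]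
      · change ((CI i a (eI i (Sum.inr b)) : ℤ) : K) = (1 : Matrix (Fin n) (Fin n) K) a b
        rw [eI_inr]
        unfold CI
        rw [Pi.single_apply, Matrix.one_apply]
        by_cases hab : a = b
        · rw [hab, if_pos rfl, if_pos rfl, Int.cast_one]
        · rw [if_neg fun h => hab (Fin.succAbove_right_injective h).symm, if_neg hab,
            Int.cast_zero]
  rw [h1, Matrix.det_fromBlocks_zero₂₁, Matrix.det_one, mul_one, Matrix.det_unique]
  rfl

section

variable {k K : Type} [Field k] [Field K] [Algebra k K] {n : ℕ} {x : Fin (n + 1) → K}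
  {f : (Fin (n + 1) → ℤ) →₀ k}

theorem om_I {ω : (Fin n → Derivation k K K) → K} (hω : IsRes f x ω) {i : Fin (n + 1)}
    (hi : gr x f i ≠ 0) (D : Fin n → Derivation k K K) :
    Om (eI i) x (fun _ : Fin 1 => f) (CI i) D = (-1) ^ (i : ℕ) * ω D := by
  unfold R885.Om
  rw [dt_I, div_eq_iff hi, mul_assoc, hω i D, ← mul_assoc, ← mul_pow, neg_one_mul, neg_neg,
    one_pow, one_mul, ← Matrix.det_transpose]
  congr 1
  ext a b
  change ∑ j, ((CI i b j : ℤ) : K) * (D a (x j) / x j) = D a (x (i.succAbove b)) / x (i.succAbove b)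
  rw [Finset.sum_eq_single (i.succAbove b)]
  · unfold CI
    rw [Pi.single_eq_same, Int.cast_one, one_mul]
  · intro j _ hj
    unfold CI
    rw [Pi.single_apply, if_neg hj, Int.cast_zero, zero_mul]
  · intro h
    exact absurd (Finset.mem_univ _) h

theorem ord_om_I {ω : (Fin n → Derivation k K K) → K} (hω : IsRes f x ω) {i : Fin (n + 1)}
    (hi : gr x f i ≠ 0) (D : Fin n → Derivation k K K) (P : Place k K)
    (h0 : Om (eI i) x (fun _ : Fin 1 => f) (CI i) D ≠ 0) :
    ω D ≠ 0 ∧ P.ord (Om (eI i) x (fun _ : Fin 1 => f) (CI i) D) = P.ord (ω D) := by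
  rw [om_I hω hi] at h0 ⊢
  rcases neg_one_pow_eq_or K (i : ℕ) with h | h
  · rw [h, one_mul] at h0 ⊢
    exact ⟨h0, rfl⟩
  · rw [h, neg_one_mul] at h0 ⊢
    exact ⟨neg_ne_zero.1 h0, P.ord_neg _⟩

end

/-- The multiplicities `b` are between those of the adjoint boundary on `f = 0` and those of the
boundary of the torus and of the `h j`. -/
structure IsAdj {k K : Type} [Field k] [Field K] [Algebra k K] {n p : ℕ}
    (f : (Fin (n + 1) → ℤ) →₀ k) (h : Fin p → (Fin (n + 1) → ℤ) →₀ k) (x : Fin (n + 1) → K)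
    (ω : (Fin n → Derivation k K K) → K) (A : (Fin (n + 1) → ℤ) → ℚ) (c : Fin p → ℚ)
    (b : Place k K → ℚ) : Prop where
  le_one : ∀ P, b P ≤ 1
  upper : ∀ P, b P ≤ (if vec P x = 0 then 0 else 1 - A (vec P x)) +
    ∑ j, c j * ((P.ord (ev x (h j)) : ℚ) - mn (vec P x) (h j))
  lower : ∀ P, Divisorial n P → ∀ E : Fin n → Derivation k K K, (∀ a, DerReg P (E a)) →
    ω E = 0 ∨ (if vec P x = 0 then 0 else - A (vec P x)) - (mn (vec P x) f : ℚ) +
      ∑ j, c j * ((P.ord (ev x (h j)) : ℚ) - mn (vec P x) (h j)) - b P ≤ P.ord (ω E)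

section

variable {k K : Type} [Field k] [CharZero k] [Field K] [Algebra k K] {n p : ℕ}
  {x : Fin (n + 1) → K} {f : (Fin (n + 1) → ℤ) →₀ k} {h : Fin p → (Fin (n + 1) → ℤ) →₀ k}

/-- **The systems of adjoint boundaries.** -/
theorem adj_sys (hx : ∀ i, x i ≠ 0) (hgen : IntermediateField.adjoin k (Set.range x) = ⊤)
    (hf : ev x f = 0) (hgr : gr x f ≠ 0) (hhx : ∀ j, ev x (h j) ≠ 0)
    {ω : (Fin n → Derivation k K K) → K} (hω : IsRes f x ω)
    {A : (Fin (n + 1) → ℤ) → ℚ} (hA : N.IsWeight A) {c : Fin p → ℚ} (hc : ∀ j, 0 ≤ c j)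
    {b : Place k K → ℚ} (hb : IsAdj f h x ω A c b) :
    MSys n (fun P => ((b P : ℚ) : ℝ)) x f (fun j => ev x (h j)) c A
      (fun v => ∑ j, c j * (mn v (h j) : ℚ)) := by
  classical
  have hf0 : f ≠ 0 := by
    intro h0
    apply hgr
    rw [h0]
    funext i
    unfold gr
    exact Finsupp.sum_zero_index
  have hh0 : ∀ j, h j ≠ 0 := by
    intro j h0
    apply hhx j
    rw [h0]
    unfold ev
    exact Finsupp.sum_zero_index
  obtain ⟨i, hi⟩ : ∃ i, gr x f i ≠ 0 := by
    by_contra hcon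
    push Not at hcon
    exact hgr (funext hcon)
  have hC0 : dt (eI i) (fun _ : Fin 1 => gr x f) (CI i) ≠ 0 := by
    rw [dt_I]
    exact hi
  have hP0 : PLin fun v => ∑ j, c j * (mn v (h j) : ℚ) := PLin.of_sum hh0 hc
  have hge : ∀ (P : Place k K) j, mn (vec P x) (h j) ≤ P.ord (ev x (h j)) := fun P j =>
    (ge_mn P hx (h j)).resolve_left (hhx j)
  have hth : ∀ P : Place k K, ((∑ j, c j * (mn (vec P x) (h j) : ℚ) : ℚ) : ℝ) ≤
      Th (fun j => ev x (h j)) c P := by
    intro P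
    unfold Th
    push_cast
    refine Finset.sum_le_sum fun j _ => mul_le_mul_of_nonneg_left ?_ ?_
    · exact_mod_cast hge P j
    · exact_mod_cast hc j
  have hsum : ∀ P : Place k K,
      ((∑ j, c j * ((P.ord (ev x (h j)) : ℚ) - mn (vec P x) (h j)) : ℚ) : ℝ) =
        Th (fun j => ev x (h j)) c P - ((∑ j, c j * (mn (vec P x) (h j) : ℚ) : ℚ) : ℝ) := by
    intro P
    unfold Th
    push_cast
    rw [← Finset.sum_sub_distrib]
    exact Finset.sum_congr rfl fun j _ => by ring
  have hz : ∀ P : Place k K, vec P x = 0 →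
      ((∑ j, c j * (mn (vec P x) (h j) : ℚ) : ℚ) : ℝ) = 0 := by
    intro P hv
    rw [Finset.sum_eq_zero fun j _ => by rw [hv, mn_zero (hh0 j), Int.cast_zero, mul_zero],
      Rat.cast_zero]
  refine
    { hr := rfl
      hx := hx
      hgen := hgen
      hf0 := hf0
      hf := hf
      hgr := hgr
      hy := hhx
      A0 := hA.nonneg
      A1 := hA.le_one
      AD := hA.denom
      A3 := hA.smul
      P0 := hP0
      AP := ?_
      le1 := fun P => by exact_mod_cast hb.le_one P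
      low := ⟨eI i, CI i, hC0, fun P hP D hD hO => ?_⟩
      th0 := ?_
      th1 := fun P _ => hth P
      up0 := ?_
      up1 := ?_ }
  · intro v w hv hw hvw
    have h1 := hA.add v w hv hw hvw
    have h2 := hP0.superadd v w
    linarith
  · obtain ⟨hne, hord⟩ := ord_om_I hω hi D P hO
    have h1 := (hb.lower P hP D hD).resolve_left hne
    have h2 := (Rat.cast_le (K := ℝ)).2 h1
    rw [Rat.cast_sub, Rat.cast_add, Rat.cast_sub, hsum P] at h2
    rw [hord, Fin.sum_univ_one]
    beta_reduce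
    by_cases hv : vec P x = 0
    · rw [if_pos hv] at h2 ⊢
      rw [hz P hv] at h2
      push_cast at h2 ⊢
      linarith
    · rw [if_neg hv] at h2 ⊢
      push_cast at h2 ⊢
      linarith
  · intro P hv
    have h1 := hth P
    rw [hz P hv] at h1
    exact h1
  · intro P hv
    have h1 := (Rat.cast_le (K := ℝ)).2 (hb.upper P)
    rw [Rat.cast_add, hsum P, if_pos hv, hz P hv] at h1
    push_cast at h1
    linarith
  · intro P hv
    have h1 := (Rat.cast_le (K := ℝ)).2 (hb.upper P)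
    rw [Rat.cast_add, hsum P, if_neg hv] at h1
    push_cast at h1 ⊢
    linarith

end

section

variable {K L : Type} [Field K] [Field L] [Algebra ℂ K] [Algebra ℂ L]

/-- **Pairs which are commensurable with adjoint pairs.** -/
theorem adj_final {n p : ℕ} (hn : 1 ≤ n) {M : Type} [Field M] [Algebra ℂ M] [Algebra K M]
    [Algebra L M] [IsScalarTower ℂ K M] [IsScalarTower ℂ L M] [FiniteDimensional K M]
    [FiniteDimensional L M] (htr : Algebra.trdeg ℂ L = (n : ℕ)) {x : Fin (n + 1) → L}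
    (hx : ∀ i, x i ≠ 0) (hgen : IntermediateField.adjoin ℂ (Set.range x) = ⊤)
    {f : (Fin (n + 1) → ℤ) →₀ ℂ} (hf : ev x f = 0) (hgr : gr x f ≠ 0)
    {h : Fin p → (Fin (n + 1) → ℤ) →₀ ℂ} (hhx : ∀ j, ev x (h j) ≠ 0)
    {ω : (Fin n → Derivation ℂ L L) → L} (hω : IsRes f x ω)
    {A : (Fin (n + 1) → ℤ) → ℚ} (hA : N.IsWeight A) {c : Fin p → ℚ}
    (hc : ∀ j, 0 ≤ c j) {b : Place ℂ L → ℚ} (hb : IsAdj f h x ω A c b) {N : ℕ}
    {y : Fin (N + 1) → K} {Δ : Place ℂ K → ℚ} (hy : IsCommensurable M b y n Δ) :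
    PData (n := n) y Δ (fun δ => PosB ℂ K n δ ∨ NegB ℂ K n δ) ∧
      ((FineG A (fun v => ∑ j, c j * (mn v (h j) : ℚ)) (fun _ : Fin 1 => f)).Nonempty →
        ∀ d : ℕ, Algebra.trdeg ℂ (IntermediateField.adjoin ℂ {z : L |
          ∃ w ∈ dirsG A (fun v => ∑ j, c j * (mn v (h j) : ℚ)) (fun _ : Fin 1 => f),
            z = R885.mono x w}) = (d : ℕ) →
        PData (n := n) y Δ (fun δ => PairKod ℂ K n δ d ∧ PairNum ℂ K n δ d)) := by
  have hB := adj_sys hx hgen hf hgr hhx hω hA hc hb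
  obtain ⟨t1, t2⟩ := transfer (M := M) htr (ess_of_gen hgen) hy
  refine ⟨t1 (hB.all hn htr), fun hF d hd => ?_⟩
  obtain ⟨h1, h2⟩ := hB.pos_val hn htr hF hd
  exact t2 d h1 h2

end

end Pool.Agent.K9h25.M
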