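import Pool.Agent.K9h25.M.Adj

/-!
Adjoint boundaries: the residue exists, and mild pairs are adjoint.
-/

set_option autoImplicit false
set_option linter.overlappingInstances false
set_option linter.unusedSectionVars false
set_option linter.unusedVariables false

open FF IntermediateField Pool.Agent.R885 Pool.Agent.R885.N Pool.Agent.W602.GT
  Pool.Agent.W603.LV Pool.Agent.W619.PQ Pool.Agent.Y173.QA Pool.Agent.W619.TW
  Pool.Agent.W619.Y Pool.Agent.W672.PG Pool.Agent.W824.PG Pool.Agent.Y172 Pool.Agent.Y191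
  Pool.Agent.Y174

namespace Pool.Agent.K9h25.M

section

variable {K : Type} [Field K] {n : ℕ}

/-- the signed minors -/
theorem det_cons_row (u : Fin (n + 1) → K) (W : Fin n → Fin (n + 1) → K) :
    Matrix.det (Matrix.of (Fin.cons u W : Fin (n + 1) → Fin (n + 1) → K)) =
      ∑ i, u i * ((-1) ^ (i : ℕ) * Matrix.det (Matrix.of fun a b => W a (i.succAbove b))) := by
  rw [Matrix.det_succ_row_zero]
  refine Finset.sum_congr rfl fun i _ => ?_
  have h1 : (Matrix.of (Fin.cons u W : Fin (n + 1) → Fin (n + 1) → K)) 0 i = u i := rfl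
  have h2 : (Matrix.of (Fin.cons u W : Fin (n + 1) → Fin (n + 1) → K)).submatrix Fin.succ
      i.succAbove = Matrix.of fun a b => W a (i.succAbove b) := by
    ext a b
    rfl
  rw [h1, h2]
  ring

/-- the signed minors are proportional to a vector orthogonal to the rows -/
theorem minors_prop {W : Fin n → Fin (n + 1) → K} {g : Fin (n + 1) → K}
    (h : ∀ a, ∑ i, g i * W a i = 0) (hg : g ≠ 0) (i j : Fin (n + 1)) :
    ((-1) ^ (i : ℕ) * Matrix.det (Matrix.of fun a b => W a (i.succAbove b))) * g j =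
      ((-1) ^ (j : ℕ) * Matrix.det (Matrix.of fun a b => W a (j.succAbove b))) * g i := by
  classical
  obtain ⟨m, hm⟩ : ∃ m : Fin (n + 1) → K, m = fun i : Fin (n + 1) =>
    (-1) ^ (i : ℕ) * Matrix.det (Matrix.of fun a b => W a (i.succAbove b)) := ⟨_, rfl⟩
  have hm' : ∀ l : Fin (n + 1), (-1) ^ (l : ℕ) * Matrix.det (Matrix.of fun a b => W a (l.succAbove b)) = m l :=
    fun l => by rw [hm]
  rw [hm', hm']
  have key : ∀ u : Fin (n + 1) → K, ∑ l, u l * g l = 0 → ∑ l, u l * m l = 0 := by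
    intro u hu
    have h1 := det_cons_row u W
    have h2 : Matrix.det (Matrix.of (Fin.cons u W : Fin (n + 1) → Fin (n + 1) → K)) = 0 := by
      rw [← Matrix.exists_mulVec_eq_zero_iff]
      refine ⟨g, hg, ?_⟩
      funext a
      rw [Matrix.mulVec, dotProduct, Pi.zero_apply]
      refine Fin.cases ?_ (fun a => ?_) a
      · exact hu
      · have h3 := h a
        rw [← h3]
        exact Finset.sum_congr rfl fun l _ => mul_comm _ _
    rw [h2] at h1
    rw [← h1.symm]
    exact Finset.sum_congr rfl fun l _ => by rw [hm']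
  have h1 := key (g j • Pi.single i 1 - g i • Pi.single j 1) (by
    simp only [Pi.sub_apply, Pi.smul_apply, smul_eq_mul, sub_mul, Finset.sum_sub_distrib,
      Pi.single_apply, mul_ite, mul_one, mul_zero, ite_mul, zero_mul, Finset.sum_ite_eq',
      Finset.mem_univ, if_true]
    ring)
  simp only [Pi.sub_apply, Pi.smul_apply, smul_eq_mul, sub_mul, Finset.sum_sub_distrib,
    Pi.single_apply, mul_ite, mul_one, mul_zero, ite_mul, zero_mul, Finset.sum_ite_eq',
    Finset.mem_univ, if_true] at h1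
  linear_combination h1

end

section

variable {k K : Type} [Field k] [Field K] [Algebra k K] {n : ℕ} {x : Fin (n + 1) → K}
  {f : (Fin (n + 1) → ℤ) →₀ k}

/-- **The residue exists.** -/
theorem exists_isRes (hx : ∀ i, x i ≠ 0) (hf : ev x f = 0) (hgr : gr x f ≠ 0) :
    ∃ ω : (Fin n → Derivation k K K) → K, IsRes f x ω := by
  obtain ⟨i, hi⟩ : ∃ i, gr x f i ≠ 0 := by
    by_contra hcon
    push Not at hcon
    exact hgr (funext hcon)
  refine ⟨fun D => ((-1) ^ (i : ℕ) *
    Matrix.det (Matrix.of fun a b => lg x (D a) (i.succAbove b))) / gr x f i, fun j D => ?_⟩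
  have h1 := minors_prop (W := fun a => lg x (D a)) (g := gr x f) (fun a => gr_lg hx hf (D a))
    hgr i j
  rw [div_mul_eq_mul_div, div_eq_iff hi]
  exact h1

end

section

variable {k K : Type} [Field k] [CharZero k] [IsAlgClosed k] [Field K] [Algebra k K] {n p : ℕ}
  {x : Fin (n + 1) → K} {f : (Fin (n + 1) → ℤ) →₀ k} {h : Fin p → (Fin (n + 1) → ℤ) →₀ k}

/-- **Mild pairs are adjoint.** -/
theorem mild_adj (hx : ∀ i, x i ≠ 0) (hf : ev x f = 0) (hgr : gr x f ≠ 0)
    (hhx : ∀ j, ev x (h j) ≠ 0) (H : MildP f h x)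
    {ω : (Fin n → Derivation k K K) → K} (hω : IsRes f x ω)
    {A : (Fin (n + 1) → ℤ) → ℚ} (hA : N.IsWeight A) {c : Fin p → ℚ}
    (hc : ∀ j, 0 ≤ c j ∧ c j ≤ 1) : IsAdj f h x ω A c (bdry A c x h) := by
  classical
  have hf0 : f ≠ 0 := by
    intro h0
    apply hgr
    rw [h0]
    funext i
    unfold gr
    exact Finsupp.sum_zero_index
  have hh0 : ∀ j, h j ≠ 0 := by
    intro j h0
    apply hhx j
    rw [h0]
    unfold ev
    exact Finsupp.sum_zero_index
  obtain ⟨i, hi⟩ : ∃ i, gr x f i ≠ 0 := by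
    by_contra hcon
    push Not at hcon
    exact hgr (funext hcon)
  have hC0 : dt (eI i) (fun _ : Fin 1 => gr x f) (CI i) ≠ 0 := by
    rw [dt_I]
    exact hi
  have hlow := mild_low H hx (e := eI i) hf0 hf hC0 hh0 hhx fun j => (hc j).2
  have hge : ∀ (P : Place k K) j, mn (vec P x) (h j) ≤ P.ord (ev x (h j)) := fun P j =>
    (ge_mn P hx (h j)).resolve_left (hhx j)
  have hT : ∀ P : Place k K,
      0 ≤ ∑ j, c j * ((P.ord (ev x (h j)) : ℚ) - mn (vec P x) (h j)) := fun P =>
    Finset.sum_nonneg fun j _ => mul_nonneg (hc j).1 (by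
      rw [sub_nonneg]
      exact_mod_cast hge P j)
  refine ⟨fun P => v14_bdry_le hA.nonneg fun j => (hc j).2, fun P => ?_,
    fun P hP E hE => ?_⟩
  · by_cases hv : vec P x = 0
    · rw [if_pos hv, zero_add, v14_zero_eq (A' := fun _ => 1) hv]
      have h1 := bdry_up0 hx hh0 hhx (fun j => (hc j).1) P hv
      refine h1.trans (le_of_eq (Finset.sum_congr rfl fun j _ => ?_))
      rw [hv, mn_zero (hh0 j), Int.cast_zero, sub_zero]
    · rw [if_neg hv, bdry_ne hv]
      have := hT P
      linarith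
  · by_cases hE0 : ω E = 0
    · exact Or.inl hE0
    right
    have hO : R885.Om (eI i) x (fun _ : Fin 1 => f) (CI i) E ≠ 0 := by
      rw [om_I hω hi]
      exact mul_ne_zero (pow_ne_zero _ (neg_ne_zero.2 one_ne_zero)) hE0
    obtain ⟨-, hord⟩ := ord_om_I hω hi E P hO
    have h1 := hlow P hP E hE hO
    rw [hord, Fin.sum_univ_one] at h1
    beta_reduce at h1
    have hsum : ((∑ j, c j * ((P.ord (ev x (h j)) : ℚ) - mn (vec P x) (h j)) : ℚ) : ℝ) =
        ∑ j, ((c j : ℚ) : ℝ) * (P.ord (ev x (h j)) : ℝ) -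
          ∑ j, ((c j : ℚ) : ℝ) * (mn (vec P x) (h j) : ℝ) := by
      push_cast
      rw [← Finset.sum_sub_distrib]
      exact Finset.sum_congr rfl fun j _ => by ring
    rw [← Rat.cast_le (K := ℝ), Rat.cast_sub, Rat.cast_add, Rat.cast_sub, hsum]
    by_cases hv : vec P x = 0
    · rw [if_pos hv] at h1 ⊢
      rw [v14_zero_eq (A' := fun _ => 1) hv]
      push_cast at h1 ⊢
      linarith
    · rw [if_neg hv] at h1 ⊢
      rw [bdry_ne hv, sub_self, Rat.cast_zero] at h1
      rw [bdry_ne hv]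
      push_cast at h1 ⊢
      linarith

end

end Pool.Agent.K9h25.M
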