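import Pool.Agent.K9h25.M.Step
import Pool.Agent.K9h25.M.Elim
import Pool.Agent.R885.V14

/-!
Systems with one equation: the dichotomy.
-/

set_option autoImplicit false
set_option linter.overlappingInstances false
set_option linter.unusedSectionVars false

open FF IntermediateField Pool.Agent.R885 Pool.Agent.R885.N Pool.Agent.W603.LV Pool.Agent.W619.PQ

namespace Pool.Agent.K9h25.M

/-- **The dichotomy.** -/
theorem MSys.all {k K : Type} [Field k] [CharZero k] [IsAlgClosed k] [Field K] [Algebra k K]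
    {n : ℕ} (hn : 1 ≤ n) (htr : Algebra.trdeg k K = (n : ℕ)) {β : Place k K → ℝ} {r : ℕ}
    {J' : Type} [Fintype J'] {x : Fin r → K} {f : (Fin r → ℤ) →₀ k}
    {y : J' → K} {cw : J' → ℚ} {A Ψ : (Fin r → ℤ) → ℚ} (hB : MSys n β x f y cw A Ψ) :
    PosB k K n β ∨ NegB k K n β := by
  rcases hB.stepM hn htr with h1 | h1 | ⟨m, s, hm, hs, hh⟩
  · exact Or.inl h1
  · exact Or.inr h1
  · obtain ⟨r', q', z, g, y', cw', A', Ψ', h1, h2⟩ := hB.elim hm hs hh
    exact VSys.all hn htr q' r' q' _ z g y' cw' A' Ψ' h2 le_rfl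

end Pool.Agent.K9h25.M
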