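import Pool.Agent.K9h25.Ar

/-!
Estimates for a vector in the cone of at most two tight vectors, with arbitrary weights.
-/

set_option autoImplicit false
set_option linter.overlappingInstances false
set_option linter.unusedSectionVars false

open FF Pool.Agent.R885 Pool.Agent.W603.LV Pool.Agent.W619.PQ

namespace Pool.Agent.K9h25.M

section

variable {r : ℕ} {c : ℤ} {a : (Fin r → ℤ) → ℤ}

/-- the weight of a multiple -/
theorem w_mul (hA2 : ∀ v w, v ≠ 0 → w ≠ 0 → v + w ≠ 0 → a v + a w - c ≤ a (v + w))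
    {s : Fin r → ℤ} (hs : s ≠ 0) (n : ℕ) :
    ((n : ℤ) + 1) * a s - c * n ≤ a (((n : ℤ) + 1) • s) := by
  induction n with
  | zero => simp
  | succ n ih =>
    have h0 : (((n : ℤ) + 1) • s : Fin r → ℤ) + s = (((n + 1 : ℕ) : ℤ) + 1) • s := by
      funext i
      simp only [Pi.add_apply, Pi.smul_apply, smul_eq_mul]
      push_cast
      ring
    have h1 := hA2 (((n : ℤ) + 1) • s) s (smul_ne_zero (by omega) hs) hs (by
      rw [h0]
      exact smul_ne_zero (by omega) hs)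
    rw [h0] at h1
    push_cast at h1 ⊢
    linarith

theorem w_mul' (hA2 : ∀ v w, v ≠ 0 → w ≠ 0 → v + w ≠ 0 → a v + a w - c ≤ a (v + w))
    {s : Fin r → ℤ} (hs : s ≠ 0) {g : ℤ} (hg : 0 < g) :
    g * a s - c * (g - 1) ≤ a (g • s) := by
  obtain ⟨n, rfl⟩ : ∃ n : ℕ, g = (n : ℤ) + 1 := ⟨(g - 1).toNat, by omega⟩
  have h1 := w_mul hA2 hs n
  have h2 : ((n : ℤ) + 1) * a s - c * ((n : ℤ) + 1 - 1) = ((n : ℤ) + 1) * a s - c * n := by ring
  rw [h2]
  exact h1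

end

variable {k : Type} [Field k] {r jj : ℕ} {v : Fin r → ℤ} {σ : Fin jj → Fin r → ℤ}
  {α : Fin jj → ℚ} {c : ℤ} {a : (Fin r → ℤ) → ℤ}

/-- **The estimate for the weights.** -/
theorem gen_arith {f : (Fin r → ℤ) →₀ k} (hα : ∀ i, 0 < α i)
    (hf0 : f ≠ 0) (hsum : ∀ k, ∑ i, α i * (σ i k : ℚ) = v k) (hjj : jj ≤ 2) (hv : v ≠ 0)
    (hσ0 : ∀ i, σ i ≠ 0)
    (hhom : jj = 2 → ∃ m ∈ f.support, ∃ m' ∈ f.support, m ⬝ᵥ v = mn v f ∧ m' ⬝ᵥ v = mn v f ∧
      ∃ i, m ⬝ᵥ σ i ≠ m' ⬝ᵥ σ i) (hc : 0 < c)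
    (hA2 : ∀ v w, v ≠ 0 → w ≠ 0 → v + w ≠ 0 → a v + a w - c ≤ a (v + w))
    (hA3 : ∀ (g : ℤ) v, 0 < g → v ≠ 0 → a (g • v) ≤ g * a v)
    {g : ℤ} {s' c' : Fin r → ℤ} (hg : 0 < g) (hgs : v = g • s') (hc' : c' ⬝ᵥ s' = 1) :
    ∑ i, α i * (a (σ i) : ℚ) ≤ c * (g - 1) + a v +
      c * ((mn v f : ℚ) - ∑ i, α i * (mn (σ i) f : ℚ)) := by
  have hdev := dev_nonneg hf0 hα hsum
  have hg0 : (0 : ℚ) < g := by exact_mod_cast hg
  have hcq : (0 : ℚ) < c := by exact_mod_cast hc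
  have hs0 : s' ≠ 0 := by
    rintro rfl
    rw [dotProduct_zero] at hc'
    exact zero_ne_one hc'
  have hgv : (g : ℚ) = ∑ i, α i * ((c' ⬝ᵥ σ i : ℤ) : ℚ) := by
    rw [← dot_comb hsum, hgs, dotProduct_smul, hc', smul_eq_mul, mul_one]
  have hav : (g : ℚ) * a s' - c * (g - 1) ≤ a v := by
    have h1 := w_mul' hA2 hs0 hg
    rw [← hgs] at h1
    exact_mod_cast h1
  obtain rfl | rfl | rfl : jj = 0 ∨ jj = 1 ∨ jj = 2 := by omega
  · exfalso
    apply hv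
    funext i
    have h1 := hsum i
    rw [Finset.univ_eq_empty, Finset.sum_empty] at h1
    rw [Pi.zero_apply]
    exact_mod_cast h1.symm
  · simp only [Fin.sum_univ_one] at hgv hdev hsum ⊢
    obtain ⟨G, hG⟩ : ∃ G, G = c' ⬝ᵥ σ 0 := ⟨_, rfl⟩
    rw [← hG] at hgv
    have hGq : (0 : ℚ) < G := by
      by_contra hcon
      push Not at hcon
      have := mul_nonpos_of_nonneg_of_nonpos (hα 0).le hcon
      linarith
    have hG0 : 0 < G := by exact_mod_cast hGq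
    have hσ : σ 0 = G • s' := by
      funext i
      have h1 := hsum i
      rw [hgs, Pi.smul_apply, smul_eq_mul] at h1
      push_cast at h1
      rw [hgv, mul_assoc] at h1
      have h2 := mul_left_cancel₀ (hα 0).ne' h1
      rw [Pi.smul_apply, smul_eq_mul]
      exact_mod_cast h2
    have h1 : (a (σ 0) : ℚ) ≤ G * a s' := by
      rw [hσ]
      exact_mod_cast hA3 G s' hG0 hs0
    have h2 := mul_le_mul_of_nonneg_left h1 (hα 0).le
    have h3 : α 0 * ((G : ℚ) * a s') = g * a s' := by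
      rw [hgv]
      ring
    rw [h3] at h2
    have h4 : 0 ≤ (c : ℚ) * ((mn v f : ℚ) - α 0 * (mn (σ 0) f : ℚ)) :=
      mul_nonneg hcq.le (by linarith)
    linarith
  · obtain ⟨m, hm, m', hm', hmv, hmv', i0, hi0⟩ := hhom rfl
    simp only [Fin.sum_univ_two] at hgv hsum ⊢
    have hE : ∀ n ∈ f.support, n ⬝ᵥ v = mn v f →
        (mn v f : ℚ) - (α 0 * (mn (σ 0) f : ℚ) + α 1 * (mn (σ 1) f : ℚ)) =
        α 0 * ((n ⬝ᵥ σ 0 - mn (σ 0) f : ℤ) : ℚ) + α 1 * ((n ⬝ᵥ σ 1 - mn (σ 1) f : ℤ) : ℚ) := by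
      intro n _ hnv
      have hsum' : ∀ k, ∑ i, α i * (σ i k : ℚ) = v k := by
        intro k
        rw [Fin.sum_univ_two]
        exact hsum k
      rw [← hnv, dot_comb hsum', Fin.sum_univ_two]
      push_cast
      ring
    have hdot : ∀ w : Fin r → ℤ, ((w ⬝ᵥ v : ℤ) : ℚ) = α 0 * ((w ⬝ᵥ σ 0 : ℤ) : ℚ) +
        α 1 * ((w ⬝ᵥ σ 1 : ℤ) : ℚ) := by
      intro w
      have hsum' : ∀ k, ∑ i, α i * (σ i k : ℚ) = v k := by
        intro k
        rw [Fin.sum_univ_two]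
        exact hsum k
      rw [dot_comb hsum', Fin.sum_univ_two]
    have hp : ∀ n ∈ f.support, ∀ i, 0 ≤ n ⬝ᵥ σ i - mn (σ i) f := fun n hn i =>
      sub_nonneg.2 (mn_le hn)
    have key : ∀ n ∈ f.support, ∀ n' ∈ f.support, n ⬝ᵥ v = mn v f → n' ⬝ᵥ v = mn v f →
        n' ⬝ᵥ σ 0 < n ⬝ᵥ σ 0 → α 0 * (a (σ 0) : ℚ) + α 1 * (a (σ 1) : ℚ) ≤
          c * (g - 1) + a v + c * ((mn v f : ℚ) -
          (α 0 * (mn (σ 0) f : ℚ) + α 1 * (mn (σ 1) f : ℚ))) := by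
      intro n hn n' hn' hnv hnv' hlt
      obtain ⟨P, hP⟩ : ∃ P, P = n ⬝ᵥ σ 0 - n' ⬝ᵥ σ 0 := ⟨_, rfl⟩
      obtain ⟨Q, hQ⟩ : ∃ Q, Q = n' ⬝ᵥ σ 1 - n ⬝ᵥ σ 1 := ⟨_, rfl⟩
      have hP1 : 1 ≤ P := by omega
      have hPQ : α 0 * P = α 1 * Q := by
        have h1 := hdot n
        have h2 := hdot n'
        rw [hnv] at h1
        rw [hnv'] at h2
        rw [hP, hQ]
        push_cast
        linarith
      have hPq : (1 : ℚ) ≤ P := by exact_mod_cast hP1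
      have h0 := hα 0
      have h1' := hα 1
      have hQq : (0 : ℚ) < Q := by
        by_contra hcon
        push Not at hcon
        have h3 := mul_nonpos_of_nonneg_of_nonpos h1'.le hcon
        have h4 : 0 < α 0 * P := by positivity
        linarith
      have hQ1 : 1 ≤ Q := by
        have h3 : 0 < Q := by exact_mod_cast hQq
        omega
      have hQq1 : (1 : ℚ) ≤ Q := by exact_mod_cast hQ1
      -- the deviation
      have hdv : α 0 * P ≤ (mn v f : ℚ) - (α 0 * (mn (σ 0) f : ℚ) + α 1 * (mn (σ 1) f : ℚ)) := by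
        rw [hE n hn hnv]
        have h3 : (P : ℚ) ≤ ((n ⬝ᵥ σ 0 - mn (σ 0) f : ℤ) : ℚ) := by
          have := hp n' hn' 0
          exact_mod_cast (by omega : P ≤ n ⬝ᵥ σ 0 - mn (σ 0) f)
        have h4 : (0 : ℚ) ≤ ((n ⬝ᵥ σ 1 - mn (σ 1) f : ℤ) : ℚ) := by exact_mod_cast hp n hn 1
        have h5 := mul_le_mul_of_nonneg_left h3 h0.le
        have h6 := mul_nonneg h1'.le h4
        linarith
      -- the vector
      obtain ⟨G, hG⟩ : ∃ G, G = c' ⬝ᵥ (Q • σ 0 + P • σ 1) := ⟨_, rfl⟩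
      have hGe : (G : ℚ) = Q * ((c' ⬝ᵥ σ 0 : ℤ) : ℚ) + P * ((c' ⬝ᵥ σ 1 : ℤ) : ℚ) := by
        rw [hG, dotProduct_add, dotProduct_smul, dotProduct_smul, smul_eq_mul, smul_eq_mul]
        push_cast
        ring
      have hgG0 : (g : ℚ) * Q = α 0 * G := by
        rw [hgv, hGe]
        linear_combination -((c' ⬝ᵥ σ 1 : ℤ) : ℚ) * hPQ
      have hgG1 : (g : ℚ) * P = α 1 * G := by
        rw [hgv, hGe]
        linear_combination ((c' ⬝ᵥ σ 0 : ℤ) : ℚ) * hPQ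
      have hGq : (0 : ℚ) < G := by
        by_contra hcon
        push Not at hcon
        have h3 := mul_nonpos_of_nonneg_of_nonpos h0.le hcon
        have h4 : 0 < (g : ℚ) * Q := by positivity
        linarith
      have hG0 : 0 < G := by exact_mod_cast hGq
      have hvec : Q • σ 0 + P • σ 1 = G • s' := by
        funext i
        have h3 := hsum i
        rw [hgs, Pi.smul_apply, smul_eq_mul] at h3
        push_cast at h3
        have h4 : (g : ℚ) * ((Q : ℚ) * (σ 0 i : ℚ) + P * (σ 1 i : ℚ)) = g * (G * (s' i : ℚ)) := by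
          have h5 : (g : ℚ) * ((Q : ℚ) * (σ 0 i : ℚ) + P * (σ 1 i : ℚ)) =
              G * (α 0 * (σ 0 i : ℚ) + α 1 * (σ 1 i : ℚ)) := by
            linear_combination (σ 0 i : ℚ) * hgG0 + (σ 1 i : ℚ) * hgG1
          rw [h5, h3]
          ring
        have h5 := mul_left_cancel₀ hg0.ne' h4
        rw [Pi.add_apply, Pi.smul_apply, Pi.smul_apply, Pi.smul_apply, smul_eq_mul, smul_eq_mul,
          smul_eq_mul]
        exact_mod_cast h5
      have hw1 := w_mul' hA2 (hσ0 0) (g := Q) (by omega)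
      have hw2 := w_mul' hA2 (hσ0 1) (g := P) (by omega)
      have hw3 := hA2 (Q • σ 0) (P • σ 1) (smul_ne_zero (by omega) (hσ0 0))
        (smul_ne_zero (by omega) (hσ0 1)) (by
          rw [hvec]
          exact smul_ne_zero hG0.ne' hs0)
      rw [hvec] at hw3
      have hw4 := hA3 G s' hG0 hs0
      have hw5 : Q * a (σ 0) + P * a (σ 1) ≤ G * a s' + c * (P + Q - 1) := by
        linarith
      have hw6 : (Q : ℚ) * a (σ 0) + P * a (σ 1) ≤ G * a s' + c * (P + Q - 1) := by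
        exact_mod_cast hw5
      have hPQ1 : (P : ℚ) + Q - 1 ≤ P * Q := by nlinarith
      have hw7 : (Q : ℚ) * a (σ 0) + P * a (σ 1) ≤ G * a s' + c * (P * Q) := by
        have := mul_le_mul_of_nonneg_left hPQ1 hcq.le
        linarith
      have hw8 := mul_le_mul_of_nonneg_left hw7 hg0.le
      have hw9 : (G : ℚ) * (α 0 * a (σ 0) + α 1 * a (σ 1)) ≤
          G * (g * a s' + c * (α 0 * P)) := by
        have h3 : (G : ℚ) * (α 0 * a (σ 0) + α 1 * a (σ 1)) =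
            g * ((Q : ℚ) * a (σ 0) + P * a (σ 1)) := by
          linear_combination -(a (σ 0) : ℚ) * hgG0 - (a (σ 1) : ℚ) * hgG1
        have h4 : (G : ℚ) * (g * a s' + c * (α 0 * P)) = g * (G * a s' + c * (P * Q)) := by
          linear_combination -(c * P : ℚ) * hgG0
        rw [h3, h4]
        exact hw8
      have hw10 := le_of_mul_le_mul_left hw9 hGq
      have hw11 := mul_le_mul_of_nonneg_left hdv hcq.le
      linarith
    have h0 : m ⬝ᵥ σ 0 ≠ m' ⬝ᵥ σ 0 := by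
      intro h1
      have h2 := hdot (m - m')
      rw [sub_dotProduct, hmv, hmv', sub_self, Int.cast_zero, sub_dotProduct,
        h1, sub_self, Int.cast_zero, mul_zero, zero_add] at h2
      have h3 := (mul_eq_zero.1 h2.symm).resolve_left (hα 1).ne'
      have h4 : (m - m') ⬝ᵥ σ 1 = 0 := by exact_mod_cast h3
      rw [sub_dotProduct] at h4
      apply hi0
      fin_cases i0
      · exact h1
      · change m ⬝ᵥ σ 1 = m' ⬝ᵥ σ 1
        omega
    rcases lt_or_gt_of_ne h0 with h1 | h1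
    · exact key m' hm' m hm hmv' hmv h1
    · exact key m hm m' hm' hmv hmv' h1

/-- **The estimate for the order of the residue form.** -/
theorem total_arith {f : (Fin r → ℤ) →₀ k} (hα : ∀ i, 0 < α i)
    (hf0 : f ≠ 0) (hsum : ∀ k, ∑ i, α i * (σ i k : ℚ) = v k) (hjj : jj ≤ 2) (hv : v ≠ 0)
    (hσ0 : ∀ i, σ i ≠ 0)
    (hhom : jj = 2 → ∃ m ∈ f.support, ∃ m' ∈ f.support, m ⬝ᵥ v = mn v f ∧ m' ⬝ᵥ v = mn v f ∧
      ∃ i, m ⬝ᵥ σ i ≠ m' ⬝ᵥ σ i) (hc : 0 < c)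
    (hA2 : ∀ v w, v ≠ 0 → w ≠ 0 → v + w ≠ 0 → a v + a w - c ≤ a (v + w))
    (hA3 : ∀ (g : ℤ) v, 0 < g → v ≠ 0 → a (g • v) ≤ g * a v)
    {u0 : Fin r → ℤ} (hS : ∀ i, u0 ⬝ᵥ σ i = a (σ i) + c * mn (σ i) f) {o g : ℤ}
    {s' c' : Fin r → ℤ} (hg : 0 < g) (hgs : v = g • s') (hc' : c' ⬝ᵥ s' = 1)
    (h1 : o ≤ -g - mn v f) :
    c * o + u0 ⬝ᵥ v ≤ a v - c ∧ o + mn v f ≤ 0 := by
  have h2 := gen_arith hα hf0 hsum hjj hv hσ0 hhom hc hA2 hA3 hg hgs hc'
  refine ⟨?_, by omega⟩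
  have h3 : ((u0 ⬝ᵥ v : ℤ) : ℚ) = ∑ i, α i * (a (σ i) : ℚ) + c * ∑ i, α i * (mn (σ i) f : ℚ) := by
    rw [dot_comb hsum, Finset.mul_sum, ← Finset.sum_add_distrib]
    refine Finset.sum_congr rfl fun i _ => ?_
    rw [hS]
    push_cast
    ring
  have h4 : (o : ℚ) ≤ -g - mn v f := by exact_mod_cast h1
  have hcq : (0 : ℚ) < c := by exact_mod_cast hc
  have h5 := mul_le_mul_of_nonneg_left h4 hcq.le
  have h6 : ((c * o + u0 ⬝ᵥ v : ℤ) : ℚ) ≤ ((a v - c : ℤ) : ℚ) := by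
    push_cast
    rw [h3]
    linarith
  exact_mod_cast h6

end Pool.Agent.K9h25.M
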