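import Pool.Agent.K9h25.M.Ng
import Pool.Agent.K9h25.Fb

/-!
Fibres of monomial maps on an arbitrary hypersurface of a torus, with arbitrary weights and
additional functions.
-/

set_option autoImplicit false
set_option linter.overlappingInstances false
set_option linter.unusedSectionVars false

open FF Pool.Agent.R885 Pool.Agent.R885.N Pool.Agent.W603.LV Pool.Agent.W619.PQ
  Pool.Agent.Y173.QA Pool.Agent.W619.TW Pool.Agent.TH165.ACC Pool.Agent.TH122.AB Pool.Agent.Y174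

namespace Pool.Agent.K9h25.M

section

variable {k Λ F : Type} [Field k] [CharZero k] [Field Λ] [Algebra k Λ] [Field F] [Algebra Λ F]
  [Algebra k F] [IsScalarTower k Λ F] {r d m : ℕ} {x : Fin r → F}

/-- the data of the fibres -/
theorem fibre_data (e : (Unit ⊕ Fin d) ⊕ Fin (m + 1) ≃ Fin r) (hx : ∀ i, x i ≠ 0)
    {f : (Fin r → ℤ) →₀ k} (hf0 : f ≠ 0) (hf : ev x f = 0) (hgr : gr x f ≠ 0)
    {S : Finset (Fin r → ℤ)} {w : Fin d → Fin r → ℤ}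
    {t : Fin d → Λ} (ht : AlgebraicIndependent k t) (hwt : ∀ j, algebraMap Λ F (t j) = mono x (w j))
    (hcon : ∀ w' : Fin r → ℤ, (∀ s ∈ S, w' ⬝ᵥ s = 0) → ∃ a : Λ, algebraMap Λ F a = mono x w') :
    ∃ f' : (Fin r → ℤ) →₀ Λ, f' ≠ 0 ∧ ev x f' = 0 ∧ (∀ v, mn v f' = mn v f) ∧
      LinearIndependent F (Sum.elim (fun _ : Unit => gr x f') fun j i => (w j i : F)) ∧
      (∀ P : Place Λ F, InSpan S (vec P x)) ∧
      ∀ (P : Place Λ F) (C : Fin m → Fin r → ℤ) (σ : Fin 2 → Fin r → ℤ),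
      (∀ j, C j ⬝ᵥ vec P x = 0) →
      (AlgebraicIndependent Λ fun j => P.red (mono x (C j))) →
      (LinearIndependent ℚ fun (z : Fin d ⊕ Fin m) (i : Fin r) =>
        ((Sum.elim w C z i : ℤ) : ℚ)) →
      (LinearIndependent ℚ fun (i : Fin 2) (k : Fin r) => (σ i k : ℚ)) →
      (∀ j i, w j ⬝ᵥ σ i = 0) → (∀ j i, C j ⬝ᵥ σ i = 0) →
      ∃ m ∈ f'.support, ∃ m' ∈ f'.support, m ⬝ᵥ vec P x = mn (vec P x) f' ∧
        m' ⬝ᵥ vec P x = mn (vec P x) f' ∧ ∃ i, m ⬝ᵥ σ i ≠ m' ⬝ᵥ σ i := by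
  classical
  have hcΛ : CharZero Λ := charZero_of_injective_algebraMap (algebraMap k Λ).injective
  have hsp : ∀ P : Place Λ F, InSpan S (vec P x) := by
    intro P w' hw'
    obtain ⟨a, ha⟩ := hcon w' hw'
    rw [← ord_mono P hx, ← ha]
    have ha0 : a ≠ 0 := by
      rintro rfl
      rw [map_zero] at ha
      exact mono_ne hx w' ha.symm
    exact P.ord_const ha0
  have hr : r = d + m + 2 := by
    rw [← Fintype.card_fin r, ← Fintype.card_congr e]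
    simp only [Fintype.card_sum, Fintype.card_unit, Fintype.card_fin]
    omega
  have hind : AlgebraicIndependent k fun j => mono x (w j) := by
    have h1 := ht.map' (f := IsScalarTower.toAlgHom k Λ F) (algebraMap Λ F).injective
    have h2 : (fun i => (IsScalarTower.toAlgHom k Λ F) (t i)) = fun j => mono x (w j) := by
      funext j
      exact hwt j
    rw [← h2]
    exact h1
  obtain ⟨f', hf'd⟩ : ∃ f' : (Fin r → ℤ) →₀ Λ, f' = f.mapRange (algebraMap k Λ) (map_zero _) :=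
    ⟨_, rfl⟩
  have hsupp' : f'.support = f.support := by rw [hf'd]; exact supp_map f
  have hmn' : ∀ v, mn v f' = mn v f := fun v => by rw [hf'd]; exact mn_map f v
  have hf'0 : f' ≠ 0 := by
    intro h0
    rw [h0, Finsupp.support_zero] at hsupp'
    exact hf0 (Finsupp.support_eq_empty.1 hsupp'.symm)
  have hgr' : gr x f' = gr x f := by
    funext i
    rw [hf'd]
    exact gr_map x f i
  refine ⟨f', hf'0, ?_, hmn', ?_, hsp, ?_⟩
  · rw [hf'd, ev_map]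
    exact hf
  · rw [hgr']
    exact li_fib hx hf hgr hind
  · intro P C σ hCv hCi hli hσ hwσ hCσ
    obtain ⟨n, hn, n', hn', h1, h2, h3⟩ := not_hom hx hf0 hf ht hwt hr P C σ hCv hCi hli hσ hwσ hCσ
    refine ⟨n, ?_, n', ?_, ?_, ?_, h3⟩
    · rw [hsupp']
      exact hn
    · rw [hsupp']
      exact hn'
    · rw [hmn']
      exact h1
    · rw [hmn']
      exact h2

/-- **The fibres of the monomial maps: numerical dimension at most zero.** -/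
theorem num_fibreM (e : (Unit ⊕ Fin d) ⊕ Fin (m + 1) ≃ Fin r)
    (htr : Algebra.trdeg Λ F = (m + 1 : ℕ)) (hx : ∀ i, x i ≠ 0)
    (hgen : IntermediateField.adjoin Λ (Set.range x) = ⊤) {f : (Fin r → ℤ) →₀ k}
    (hf0 : f ≠ 0) (hf : ev x f = 0) (hgr : gr x f ≠ 0)
    {J' : Type} [Fintype J'] {y : J' → F} (hy : ∀ j, y j ≠ 0)
    {S : Finset (Fin r → ℤ)} {u0 : Fin r → ℤ} {c : ℤ} {a' : (Fin r → ℤ) → ℤ} {nn : J' → ℤ}
    (hc : 0 < c)
    (hA2 : ∀ v w, v ≠ 0 → w ≠ 0 → v + w ≠ 0 → a' v + a' w - c ≤ a' (v + w))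
    (hA3 : ∀ (g : ℤ) v, 0 < g → v ≠ 0 → a' (g • v) ≤ g * a' v)
    (hS : ∀ s ∈ S, s ≠ 0 ∧ u0 ⬝ᵥ s = a' s + c * mn s f)
    (hpos : ∀ q : Fin r → ℚ, (∀ s ∈ S, 0 ≤ dq q s) → ∀ s ∈ S, dq q s = 0)
    {w : Fin d → Fin r → ℤ} (hwS : ∀ j, ∀ s ∈ S, w j ⬝ᵥ s = 0)
    {t : Fin d → Λ} (ht : AlgebraicIndependent k t) (hwt : ∀ j, algebraMap Λ F (t j) = mono x (w j))
    (hcon : ∀ w' : Fin r → ℤ, (∀ s ∈ S, w' ⬝ᵥ s = 0) → ∃ a : Λ, algebraMap Λ F a = mono x w')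
    {β : Place Λ F → ℝ} (hβ1 : ∀ P : Place Λ F, β P ≤ 1)
    (hβ0 : ∀ P : Place Λ F, vec P x = 0 →
      (c : ℝ) * β P ≤ ((∑ j, nn j * P.ord (y j) : ℤ) : ℝ))
    (hβ2 : ∀ P : Place Λ F, vec P x ≠ 0 →
      (c : ℝ) * β P ≤ ((c - a' (vec P x) + ∑ j, nn j * P.ord (y j) : ℤ) : ℝ)) :
    PairNum Λ F (m + 1) β 0 := by
  have hcΛ : CharZero Λ := charZero_of_injective_algebraMap (algebraMap k Λ).injective
  obtain ⟨f', hf'0, hf', hmn', hli, hsp, hhom⟩ := fibre_data (m := m) e hx hf0 hf hgr ht hwt hcon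
  exact num_zeroM (S := S) (u0 := u0) (c := c) (a' := a') (nn := nn) htr hx hgen e hf'0 hf' hwt hli
    hy hc hA2 hA3 hwS (fun s hs => by rw [hmn']; exact hS s hs) hpos hsp hhom hβ1 hβ0 hβ2

/-- **The fibres of the monomial maps: no sections.** -/
theorem neg_fibreM (e : (Unit ⊕ Fin d) ⊕ Fin (m + 1) ≃ Fin r)
    (htr : Algebra.trdeg Λ F = (m + 1 : ℕ)) (hx : ∀ i, x i ≠ 0)
    (hgen : IntermediateField.adjoin Λ (Set.range x) = ⊤) {f : (Fin r → ℤ) →₀ k}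
    (hf0 : f ≠ 0) (hf : ev x f = 0) (hgr : gr x f ≠ 0)
    {J' : Type} [Fintype J'] {y : J' → F} (hy : ∀ j, y j ≠ 0)
    {S : Finset (Fin r → ℤ)} {u0 : Fin r → ℤ} {c : ℤ} {a' : (Fin r → ℤ) → ℤ} {nn : J' → ℤ}
    (hc : 0 < c)
    (hA2 : ∀ v w, v ≠ 0 → w ≠ 0 → v + w ≠ 0 → a' v + a' w - c ≤ a' (v + w))
    (hA3 : ∀ (g : ℤ) v, 0 < g → v ≠ 0 → a' (g • v) ≤ g * a' v)
    (hS : ∀ s ∈ S, s ≠ 0 ∧ u0 ⬝ᵥ s = a' s + c * mn s f)
    (hpos : ∀ q : Fin r → ℚ, (∀ s ∈ S, 0 ≤ dq q s) → ∀ s ∈ S, dq q s = 0)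
    {w : Fin d → Fin r → ℤ} (hwS : ∀ j, ∀ s ∈ S, w j ⬝ᵥ s = 0)
    {t : Fin d → Λ} (ht : AlgebraicIndependent k t) (hwt : ∀ j, algebraMap Λ F (t j) = mono x (w j))
    (hcon : ∀ w' : Fin r → ℤ, (∀ s ∈ S, w' ⬝ᵥ s = 0) → ∃ a : Λ, algebraMap Λ F a = mono x w')
    {β : Place Λ F → ℝ} (hβ1 : ∀ P : Place Λ F, β P ≤ 1)
    (hβ0 : ∀ P : Place Λ F, vec P x = 0 →
      (c : ℝ) * β P ≤ ((∑ j, nn j * P.ord (y j) : ℤ) : ℝ))
    {ε : ℝ} (hε : 0 < ε) (hβ2 : ∀ P : Place Λ F, vec P x ≠ 0 →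
      (c : ℝ) * β P + ε * ((n1 (vec P x) : ℚ) : ℝ) ≤
        ((c - a' (vec P x) + ∑ j, nn j * P.ord (y j) : ℤ) : ℝ))
    (T : Finset F) :
    ∃ M0 : ℕ, ∀ M : ℕ, M0 ≤ M → ∀ ω : (Fin (m + 1) → Derivation Λ F F) → F,
      PairSec Λ F (m + 1) β T M 1 ω → ω = 0 := by
  have hcΛ : CharZero Λ := charZero_of_injective_algebraMap (algebraMap k Λ).injective
  obtain ⟨f', hf'0, hf', hmn', hli, hsp, hhom⟩ := fibre_data (m := m) e hx hf0 hf hgr ht hwt hcon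
  exact neg_zeroM (S := S) (u0 := u0) (c := c) (a' := a') (nn := nn) htr hx hgen e hf'0 hf' hwt hli
    hy hc hA2 hA3 hwS (fun s hs => by rw [hmn']; exact hS s hs) hpos hsp hhom hβ1 hβ0 hε hβ2 T

end

end Pool.Agent.K9h25.M
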