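import Pool.Agent.K9h25.M.Sys
import Pool.Agent.K9h25.Kod
import Pool.Agent.R885.Q2
import Pool.Agent.R885.V14

/-!
Mild pairs: the lower bounds for the orders of the residue form.
-/

set_option autoImplicit false
set_option linter.overlappingInstances false
set_option linter.unusedSectionVars false

open FF IntermediateField Pool.Agent.R885 Pool.Agent.R885.N Pool.Agent.W603.LV Pool.Agent.W619.PQ
  Pool.Agent.Y173.QA Pool.Agent.W619.TW Pool.Agent.W619.Y Pool.Agent.Y174 Pool.Agent.TH165.ACC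
  Pool.Agent.TH122.AB

namespace Pool.Agent.K9h25.M

section

variable {k K : Type} [Field k] [Field K] [Algebra k K] {r n : ℕ} {x : Fin r → K}
  {J J' : Type} [Fintype J] [DecidableEq J] [Fintype J'] [CharZero k]

/-- the bounds for nondegenerate pairs, at one place -/
theorem low_at (P : Place k K) (hx : ∀ i, x i ≠ 0) {e : J ⊕ Fin n ≃ Fin r}
    {f : J → (Fin r → ℤ) →₀ k}
    (hf0 : ∀ l, f l ≠ 0) (hf : ∀ l, ev x (f l) = 0) {C0 : Fin n → Fin r → ℤ}
    (hC0 : dt e (fun l => gr x (f l)) C0 ≠ 0)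
    {h : J' → (Fin r → ℤ) →₀ k} (hh0 : ∀ j, h j ≠ 0) (hhx : ∀ j, ev x (h j) ≠ 0)
    (hnd : NDP P x f) [DecidablePred fun j => Van P x (h j)]
    (hndh : ∀ V : Finset J', V = Finset.univ.filter (fun j => Van P x (h j)) →
      NDP P x (Sum.elim f fun j : V => h j))
    {cw : J' → ℚ} (hc1 : ∀ j, cw j ≤ 1) {D : Fin n → Derivation k K K}
    (hD : ∀ a, Pres P (D a)) (hO : Om e x f C0 D ≠ 0) :
    -(if vec P x = 0 then (0 : ℝ) else 1) - ((∑ l, mn (vec P x) (f l) : ℤ) : ℝ) -
        ∑ j, ((cw j : ℚ) : ℝ) * (mn (vec P x) (h j) : ℝ) ≤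
      (P.ord (Om e x f C0 D) : ℝ) - ∑ j, ((cw j : ℚ) : ℝ) * (P.ord (ev x (h j)) : ℝ) +
        ((bdry (fun _ => 1) cw x h P : ℚ) : ℝ) := by
  classical
  obtain ⟨V, hVd⟩ : ∃ V : Finset J', V = Finset.univ.filter fun j => Van P x (h j) := ⟨_, rfl⟩
  have hVmem : ∀ j, j ∈ V ↔ Van P x (h j) := fun j => by
    rw [hVd, Finset.mem_filter]
    simp
  have h1 := om_geW P (e := e) hx hf0 hf (V := V) (h := fun j : V => h j) (fun j => hh0 j)
    (fun j => hhx j) (fun j => (hVmem j).1 j.2) (hndh V hVd) hC0 hD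
  have h2 := (om_ge P hx hf0 hf hnd hC0 hD).2
  have h1' := h1.resolve_left hO
  rw [Finset.sum_coe_sort V (fun j => P.ord (ev x (h j)) - mn (vec P x) (h j))] at h1'
  obtain ⟨v, hv⟩ : ∃ v, v = vec P x := ⟨_, rfl⟩
  obtain ⟨o, ho⟩ : ∃ o, o = P.ord (Om e x f C0 D) := ⟨_, rfl⟩
  rw [← hv, ← ho] at h1' ⊢
  have hVge : ∀ j ∈ V, 1 ≤ P.ord (ev x (h j)) - mn v (h j) := by
    intro j hj
    have h3 := ((hVmem j).1 hj).resolve_left (hhx j)
    rw [← hv] at h3
    omega
  have hsplit : ∑ j, cw j * (P.ord (ev x (h j)) : ℚ) = (∑ j, cw j * (mn v (h j) : ℚ)) +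
      ∑ j ∈ V, cw j * ((P.ord (ev x (h j)) - mn v (h j) : ℤ) : ℚ) := by
    rw [hVd, Finset.sum_filter, ← Finset.sum_add_distrib]
    refine Finset.sum_congr rfl fun j _ => ?_
    split_ifs with hj
    · push_cast
      ring
    · rw [ord_of_not_van P hx hj, hv]
      ring
  have hV1 : ∑ j ∈ V, cw j * ((P.ord (ev x (h j)) - mn v (h j) : ℤ) : ℚ) =
      ((∑ j ∈ V, (P.ord (ev x (h j)) - mn v (h j)) : ℤ) : ℚ) -
        ∑ j ∈ V, (1 - cw j) * ((P.ord (ev x (h j)) - mn v (h j) : ℤ) : ℚ) := by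
    rw [Int.cast_sum, ← Finset.sum_sub_distrib]
    exact Finset.sum_congr rfl fun j _ => by ring
  have hV2 : ∑ j ∈ V, (1 - cw j) ≤
      ∑ j ∈ V, (1 - cw j) * ((P.ord (ev x (h j)) - mn v (h j) : ℤ) : ℚ) := by
    refine Finset.sum_le_sum fun j hj => ?_
    have h3 : (1 : ℚ) ≤ ((P.ord (ev x (h j)) - mn v (h j) : ℤ) : ℚ) := by
      exact_mod_cast hVge j hj
    have h4 := hc1 j
    nlinarith
  have hV3 : 0 ≤ ∑ j ∈ V, (1 - cw j) := Finset.sum_nonneg fun j _ => by
    have := hc1 j
    linarith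
  have key : -(if v = 0 then (0 : ℚ) else 1) - ((∑ l, mn v (f l) : ℤ) : ℚ) -
      ∑ j, cw j * (mn v (h j) : ℚ) ≤
      (o : ℚ) - ∑ j, cw j * (P.ord (ev x (h j)) : ℚ) + bdry (fun _ => 1) cw x h P := by
    rw [hsplit, hV1]
    have h3 : ((-1 - ∑ l, mn v (f l) + ∑ j ∈ V, (P.ord (ev x (h j)) - mn v (h j)) : ℤ) : ℚ) ≤ o := by
      exact_mod_cast h1'
    push_cast at h3 ⊢
    by_cases hv0 : v = 0
    · rw [if_pos hv0]
      have hvP : vec P x = 0 := by rw [← hv]; exact hv0
      have hmn0 : ∀ l, mn v (f l) = 0 := fun l => by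
        rw [hv0]
        exact mn_zero (hf0 l)
      simp only [hmn0, Int.cast_zero, Finset.sum_const_zero] at h3 ⊢
      by_cases hex : ∃ j, 0 < P.ord (ev x (h j))
      · have h4 := bdry_van (A := fun _ => 1) (cw := cw) hvP hex
        have h5 : Finset.univ.filter (fun j => 0 < P.ord (ev x (h j))) = V := by
          rw [hVd]
          exact (Finset.filter_congr fun j _ => van_iff hh0 hhx hvP j).symm
        rw [h5] at h4
        have h6 : 1 - ∑ j ∈ V, (1 - cw j) ≤ bdry (fun _ => 1) cw x h P := by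
          rw [h4]
          exact le_max_right _ _
        push_cast at hV2 h3
        linarith
      · push Not at hex
        have h4 := bdry_no (A := fun _ => 1) (cw := cw) hvP fun j => not_lt.2 (hex j)
        have hVe : V = ∅ := by
          rw [Finset.eq_empty_iff_forall_notMem]
          intro j hj
          have := (van_iff hh0 hhx hvP j).1 ((hVmem j).1 hj)
          have := hex j
          omega
        have ho0 : (0 : ℚ) ≤ o := by
          rw [ho]
          exact_mod_cast (h2 hvP).resolve_left hO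
        rw [h4, hVe]
        simp only [Finset.sum_empty]
        linarith
    · rw [if_neg hv0, bdry_ne (by rw [← hv]; exact hv0)]
      push_cast at hV2
      linarith
  have key' := (Rat.cast_le (K := ℝ)).2 key
  push_cast at key' ⊢
  have h7 : ((if v = 0 then (0 : ℚ) else 1 : ℚ) : ℝ) = if v = 0 then (0 : ℝ) else 1 := by
    split_ifs <;> norm_num
  rw [h7] at key'
  exact key'


end

section

variable {K : Type} [Field K] {r n : ℕ}

/-- the equivalence of the index sets -/
def eU (e : Fin 1 ⊕ Fin n ≃ Fin r) : Unit ⊕ Fin n ≃ Fin r :=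
  (Equiv.sumCongr (Equiv.ofUnique Unit (Fin 1)) (Equiv.refl (Fin n))).trans e

theorem dt_unit (e : Fin 1 ⊕ Fin n ≃ Fin r) (u : Fin r → K) (C : Fin n → Fin r → ℤ) :
    dt (eU e) (fun _ : Unit => u) C = dt e (fun _ : Fin 1 => u) C := by
  unfold dt
  rw [← Matrix.det_submatrix_equiv_self
    (Equiv.sumCongr (Equiv.ofUnique Unit (Fin 1)) (Equiv.refl (Fin n)))]
  congr 1
  ext a b
  rcases a with a | a
  · rfl
  · rfl

theorem om_unit {k : Type} [Field k] [Algebra k K] (e : Fin 1 ⊕ Fin n ≃ Fin r) (x : Fin r → K)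
    (f : (Fin r → ℤ) →₀ k) (C : Fin n → Fin r → ℤ) (D : Fin n → Derivation k K K) :
    Om (eU e) x (fun _ : Unit => f) C D = Om e x (fun _ : Fin 1 => f) C D := by
  unfold Om
  rw [dt_unit]

end

/-- The pair is mild along the subvariety of the torus with the generic point `x`: at all points
`c` of the initial degeneration in the direction `v` either the gradients of the initial parts of
`f` and of the `h j` which vanish at `c` are linearly independent, or no `ini v (h j)` vanishes at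
`c` and the logarithmic Hessian of `ini v f` has rank at least two, and at least three if `v = 0`. -/
def MildP {k K : Type} [Field k] [Field K] [Algebra k K] {r p : ℕ} (f : (Fin r → ℤ) →₀ k)
    (h : Fin p → (Fin r → ℤ) →₀ k) (x : Fin r → K) : Prop :=
  ∀ (v : Fin r → ℤ) (c : Fin r → k), (∀ i, c i ≠ 0) →
    (∀ g : (Fin r → ℤ) →₀ k, ev x g = 0 → ev c (ini v g) = 0) →
      (∀ V : Finset (Fin p), (∀ j ∈ V, ev c (ini v (h j)) = 0) →
        LinearIndependent k
          (Sum.elim (fun _ : Fin 1 => gr c (ini v f)) fun j : V => gr c (ini v (h j)))) ∨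
      ((∀ j, ev c (ini v (h j)) ≠ 0) ∧ 2 ≤ (hess c (ini v f)).rank ∧
        (v = 0 → 3 ≤ (hess c (ini v f)).rank))

section

variable {k K : Type} [Field k] [CharZero k] [IsAlgClosed k] [Field K] [Algebra k K] {r n p : ℕ}
  {x : Fin r → K} {f : (Fin r → ℤ) →₀ k} {h : Fin p → (Fin r → ℤ) →₀ k}

/-- the singular points over extensions -/
theorem spec_mild (H : MildP f h x) {F : Type} [Field F] [Algebra k F] {v : Fin r → ℤ}
    {c : Fin r → F} (hc : ∀ i, c i ≠ 0)
    (hI : ∀ g : (Fin r → ℤ) →₀ k, ev x g = 0 → ev c (ini v g) = 0)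
    (hgr : gr c (ini v f) = 0) :
    (∀ j, ev c (ini v (h j)) ≠ 0) ∧ 2 ≤ (hess c (ini v f)).rank ∧
      (v = 0 → 3 ≤ (hess c (ini v f)).rank) := by
  classical
  obtain ⟨A, φ, c', hc', hsp⟩ := exists_spec (k := k) hc
  choose hm hφ using hsp
  have hevφ : ∀ g : (Fin r → ℤ) →₀ k, ev c g = 0 → ev c' g = 0 := by
    intro g hev
    have h1 : (⟨g.sum fun m a => algebraMap k F a * ((1 : ℤ) : F) * mono c m,
        hm g fun _ => 1⟩ : A) = 0 := by
      apply Subtype.ext
      change (g.sum fun m a => algebraMap k F a * ((1 : ℤ) : F) * mono c m) = 0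
      rw [← hev]
      unfold ev
      refine Finset.sum_congr rfl fun m _ => ?_
      simp
    have h2 := hφ g fun _ => 1
    rw [h1, map_zero] at h2
    rw [h2]
    unfold ev
    refine Finset.sum_congr rfl fun m _ => ?_
    simp
  have hgr' : gr c' (ini v f) = 0 := by
    funext i
    have h1 : (⟨(ini v f).sum fun m a => algebraMap k F a * ((m i : ℤ) : F) * mono c m,
        hm (ini v f) fun m => m i⟩ : A) = 0 := Subtype.ext (congrFun hgr i)
    have h2 := hφ (ini v f) fun m => m i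
    rw [h1, map_zero] at h2
    exact h2.symm
  have h1 := (H v c' hc' fun g hg => hevφ _ (hI g hg)).resolve_left (by
    intro h1
    have h2 := (h1 ∅ (fun j hj => absurd hj (Finset.notMem_empty j))).ne_zero (Sum.inl 0)
    exact h2 hgr')
  obtain ⟨h2, h3, h3'⟩ := h1
  let M : Matrix (Fin r) (Fin r) A := Matrix.of fun i j =>
    ⟨(ini v f).sum fun m a => algebraMap k F a * ((m i * m j : ℤ) : F) * mono c m,
      hm (ini v f) fun m => m i * m j⟩
  have h4 : M.map (φ : A →+* k) = hess c' (ini v f) := by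
    ext i j
    exact hφ (ini v f) fun m => m i * m j
  have h5 : M.map (algebraMap A F) = hess c (ini v f) := by
    ext i j
    rfl
  have h6 := rank_map_le (φ : A →+* k) (algebraMap A F) Subtype.val_injective M
  rw [h4, h5] at h6
  exact ⟨fun j hj => h2 j (hevφ _ hj), h3.trans h6, fun hv => (h3' hv).trans h6⟩

/-- the other points -/
theorem ndp_mild (H : MildP f h x) (hx : ∀ i, x i ≠ 0) (P : Place k K) {V : Finset (Fin p)}
    (hV : V.Nonempty) : NDP P x (Sum.elim (fun _ : Fin 1 => f) fun j : V => h j) := by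
  classical
  obtain ⟨I, hI⟩ : ∃ I : Set ((Fin r → ℤ) →₀ k), I = {g | ev x g = 0 ∨ ∃ j ∈ V, g = h j} :=
    ⟨_, rfl⟩
  intro hev0
  refine nd_ext' (I := I) (v := vec P x) ?_ (pt_ne P hx) ?_
  · intro c hc hev
    have h1 := (H (vec P x) c hc fun g hg => hev g (by rw [hI]; exact Or.inl hg)).resolve_right (by
      rintro ⟨h1, -⟩
      obtain ⟨j, hj⟩ := hV
      exact h1 j (hev (h j) (by rw [hI]; exact Or.inr ⟨j, hj, rfl⟩)))
    have h2 := h1 V fun j hj => hev (h j) (by rw [hI]; exact Or.inr ⟨j, hj, rfl⟩)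
    have h3 : (Sum.elim (fun _ : Fin 1 => gr c (ini (vec P x) f))
        fun j : V => gr c (ini (vec P x) (h j))) =
        fun l => gr c (ini (vec P x) ((Sum.elim (fun _ : Fin 1 => f) fun j : V => h j) l)) := by
      funext l
      rcases l with l | j
      · rfl
      · rfl
    rw [h3] at h2
    exact h2
  · intro g hg
    rw [hI] at hg
    rcases hg with hg | ⟨j, hj, rfl⟩
    · exact ev_pt P hx hg
    · exact hev0 (Sum.inr ⟨j, hj⟩)

/-- **The lower bound for mild pairs.** -/
theorem mild_low (H : MildP f h x) (hx : ∀ i, x i ≠ 0) {e : Fin 1 ⊕ Fin n ≃ Fin r}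
    (hf0 : f ≠ 0) (hf : ev x f = 0) {C0 : Fin n → Fin r → ℤ}
    (hC0 : dt e (fun _ => gr x f) C0 ≠ 0) (hh0 : ∀ j, h j ≠ 0) (hhx : ∀ j, ev x (h j) ≠ 0)
    {cw : Fin p → ℚ} (hc1 : ∀ j, cw j ≤ 1) :
    SLow e x (fun _ => f) C0 h cw fun P => ((bdry (fun _ => 1) cw x h P : ℚ) : ℝ) := by
  classical
  intro P hPd D hD hO
  have hvan : ∀ j, Van P x (h j) → ev (pt P x) (ini (vec P x) (h j)) = 0 := by
    intro j hj
    obtain ⟨m0, -, hm0⟩ := exists_mn (hh0 j) (vec P x)
    have h2 := red_ev' P hx (h j) hm0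
    rw [red_van P hx hj hm0] at h2
    exact (div_eq_zero_iff.1 h2.symm).resolve_right (mono_ne (pt_ne P hx) _)
  by_cases hgr : gr (pt P x) (ini (vec P x) f) = 0
  · -- a mild place
    obtain ⟨h1, h2, h3⟩ := spec_mild H (pt_ne P hx) (fun g hg => ev_pt P hx hg) hgr
    have hnv : ∀ j, ¬ Van P x (h j) := fun j hj => h1 j (hvan j hj)
    have hord : ∀ j, P.ord (ev x (h j)) = mn (vec P x) (h j) := fun j =>
      ord_of_not_van P hx (hnv j)
    obtain ⟨h4, h5⟩ := om_mild P (e := eU e) hx hf0 hf (C0 := C0) (by rw [dt_unit]; exact hC0) hD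
      fun _ => ⟨h2, h3⟩
    rw [om_unit] at h4 h5
    have h4' := h4.resolve_left hO
    have hS : ∑ j, ((cw j : ℚ) : ℝ) * (P.ord (ev x (h j)) : ℝ) =
        ∑ j, ((cw j : ℚ) : ℝ) * (mn (vec P x) (h j) : ℝ) :=
      Finset.sum_congr rfl fun j _ => by rw [hord j]
    beta_reduce
    rw [Fin.sum_univ_one, hS]
    by_cases hv : vec P x = 0
    · have h5' := (h5 hv).resolve_left hO
      have hb : bdry (fun _ => 1) cw x h P = 0 := bdry_no hv fun j => by
        rw [hord, hv, mn_zero (hh0 j)]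
        exact lt_irrefl _
      rw [if_pos hv, hb, hv, mn_zero hf0]
      have h6 : (0 : ℝ) ≤ (P.ord (Om e x (fun _ : Fin 1 => f) C0 D) : ℝ) := by exact_mod_cast h5'
      push_cast
      linarith
    · have h6 : ((-1 - mn (vec P x) f : ℤ) : ℝ) ≤
          (P.ord (Om e x (fun _ : Fin 1 => f) C0 D) : ℝ) := by exact_mod_cast h4'
      rw [if_neg hv, bdry_ne hv]
      push_cast at h6 ⊢
      linarith
  · have hnd : NDP P x fun _ : Fin 1 => f := fun _ => linearIndependent_unique_iff.2 hgr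
    refine low_at P hx (fun _ => hf0) (fun _ => hf) hC0 hh0 hhx hnd (fun V hV => ?_) hc1 hD hO
    by_cases hVe : V.Nonempty
    · exact ndp_mild H hx P hVe
    · rw [Finset.not_nonempty_iff_eq_empty] at hVe
      subst hVe
      intro _
      have h1 := hnd fun _ => ev_pt P hx hf
      have h2 := linearIndependent_sum.2 ⟨(by exact h1 : LinearIndependent P.RF
        ((fun l => gr (pt P x) (ini (vec P x) ((Sum.elim (fun _ : Fin 1 => f)
          fun j : (∅ : Finset (Fin p)) => h j) l))) ∘ Sum.inl)), by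
        have : IsEmpty (∅ : Finset (Fin p)) := Finset.isEmpty_coe_sort.2 rfl
        exact linearIndependent_empty_type, by
        have h3 : Set.range ((fun l => gr (pt P x) (ini (vec P x) ((Sum.elim (fun _ : Fin 1 => f)
          fun j : (∅ : Finset (Fin p)) => h j) l))) ∘ Sum.inr) = ∅ := by
          have : IsEmpty (∅ : Finset (Fin p)) := Finset.isEmpty_coe_sort.2 rfl
          exact Set.range_eq_empty _
        rw [h3, Submodule.span_empty]
        exact disjoint_bot_right⟩
      exact h2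

/-- the gradient at the generic point -/
theorem mild_gr (H : MildP f h x) (hx : ∀ i, x i ≠ 0)
    (hgen : IntermediateField.adjoin k (Set.range x) = ⊤) (htr : Algebra.trdeg k K = (n : ℕ))
    (hr : r = n + 1) : gr x f ≠ 0 := by
  refine gr_ne hx hgen htr hr fun h0 => ?_
  have h1 := (spec_mild H (v := 0) hx (fun g hg => by rw [ini_zero']; exact hg)
    (by rw [ini_zero']; exact h0)).2.1
  rwa [ini_zero'] at h1

/-- **The systems of mild pairs.** -/
theorem mild_sys (htr : Algebra.trdeg k K = (n : ℕ)) (hr : r = n + 1)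
    (hx : ∀ i, x i ≠ 0) (hgen : IntermediateField.adjoin k (Set.range x) = ⊤) (hf0 : f ≠ 0)
    (hf : ev x f = 0) (hhx : ∀ j, ev x (h j) ≠ 0) (H : MildP f h x)
    {A : (Fin r → ℤ) → ℚ} (hA : N.IsWeight A) {c : Fin p → ℚ}
    (hc : ∀ j, 0 ≤ c j ∧ c j ≤ 1) :
    MSys n (fun P => ((bdry A c x h P : ℚ) : ℝ)) x f (fun j => ev x (h j)) c A
      (fun v => ∑ j, c j * (mn v (h j) : ℚ)) := by
  classical
  have hh0 : ∀ j, h j ≠ 0 := by
    intro j h0
    apply hhx j
    rw [h0]
    unfold ev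
    exact Finsupp.sum_zero_index
  have hgr := mild_gr H hx hgen htr hr
  have e : Fin 1 ⊕ Fin n ≃ Fin r := Fintype.equivOfCardEq (by
    rw [Fintype.card_sum, Fintype.card_fin, Fintype.card_fin, Fintype.card_fin]
    omega)
  obtain ⟨C0, hC0'⟩ := complete_zero (κ := K) (J := Fin 1) (a := fun _ => gr x f)
    (linearIndependent_unique_iff.2 hgr) (n := n) (by
      rw [Fintype.card_fin, Fintype.card_fin]; omega)
  have hC0 : dt e (fun _ : Fin 1 => gr x f) C0 ≠ 0 := dt_ne hC0'
  have hlow := mild_low H hx (e := e) hf0 hf hC0 hh0 hhx fun j => (hc j).2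
  have hP0 : PLin fun v => ∑ j, c j * (mn v (h j) : ℚ) := PLin.of_sum hh0 fun j => (hc j).1
  have hge : ∀ (P : Place k K) j, mn (vec P x) (h j) ≤ P.ord (ev x (h j)) := fun P j =>
    (ge_mn P hx (h j)).resolve_left (hhx j)
  have hth : ∀ P : Place k K, ((∑ j, c j * (mn (vec P x) (h j) : ℚ) : ℚ) : ℝ) ≤
      Th (fun j => ev x (h j)) c P := by
    intro P
    unfold Th
    push_cast
    refine Finset.sum_le_sum fun j _ => mul_le_mul_of_nonneg_left ?_ ?_
    · exact_mod_cast hge P j
    · exact_mod_cast (hc j).1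
  refine
    { hr := hr
      hx := hx
      hgen := hgen
      hf0 := hf0
      hf := hf
      hgr := hgr
      hy := hhx
      A0 := hA.nonneg
      A1 := hA.le_one
      AD := hA.denom
      A3 := hA.smul
      P0 := hP0
      AP := ?_
      le1 := ?_
      low := ⟨e, C0, hC0, fun P hP D hD hO => ?_⟩
      th0 := ?_
      th1 := fun P _ => hth P
      up0 := ?_
      up1 := ?_ }
  · intro v w hv hw hvw
    have h1 := hA.add v w hv hw hvw
    have h2 := hP0.superadd v w
    linarith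
  · intro P
    have h1 : bdry A c x h P ≤ 1 := v14_bdry_le hA.nonneg fun j => (hc j).2
    exact_mod_cast h1
  · have h1 := hlow P hP D hD hO
    beta_reduce at h1
    have h2 : ∑ j, ((c j : ℚ) : ℝ) * (P.ord (ev x (h j)) : ℝ) =
        Th (fun j => ev x (h j)) c P := rfl
    rw [h2] at h1
    beta_reduce
    by_cases hv : vec P x = 0
    · rw [if_pos hv] at h1 ⊢
      rw [v14_zero_eq (A' := fun _ => 1) hv]
      have h3 : ∑ j, ((c j : ℚ) : ℝ) * (mn (vec P x) (h j) : ℝ) = 0 := by
        refine Finset.sum_eq_zero fun j _ => ?_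
        rw [hv, mn_zero (hh0 j), Int.cast_zero, mul_zero]
      rw [h3] at h1
      linarith
    · rw [if_neg hv] at h1 ⊢
      rw [bdry_ne hv, sub_self, Rat.cast_zero] at h1
      rw [bdry_ne hv]
      push_cast at h1 ⊢
      linarith
  · intro P hv
    have h1 := hth P
    rw [Finset.sum_eq_zero fun j _ => by rw [hv, mn_zero (hh0 j), Int.cast_zero, mul_zero],
      Rat.cast_zero] at h1
    exact h1
  · intro P hv
    have h1 := bdry_up0 hx hh0 hhx (fun j => (hc j).1) P hv
    rw [v14_zero_eq (A' := fun _ => 1) hv]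
    have h3 := (Rat.cast_le (K := ℝ)).2 h1
    unfold Th
    push_cast at h3 ⊢
    exact h3
  · intro P hv
    have h1 := hth P
    rw [bdry_ne hv]
    push_cast at h1 ⊢
    linarith

end

end Pool.Agent.K9h25.M
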