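import Pool.Agent.K9h25.M.All
import Pool.Agent.K9h25.M.Mild
import Pool.Agent.R885.W9

/-!
Mild pairs: the final statements.
-/

set_option autoImplicit false
set_option linter.overlappingInstances false
set_option linter.unusedSectionVars false
set_option linter.unusedVariables false

open FF IntermediateField Pool.Agent.R885 Pool.Agent.R885.N Pool.Agent.W602.GT
  Pool.Agent.W603.LV Pool.Agent.W619.PQ Pool.Agent.Y173.QA Pool.Agent.W619.TW
  Pool.Agent.W619.Y Pool.Agent.W672.PG Pool.Agent.W824.PG Pool.Agent.Y172 Pool.Agent.Y191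
  Pool.Agent.Y174

namespace Pool.Agent.K9h25.M

/-- **The dichotomy for mild pairs, with the values.** -/
theorem mild_val {k K : Type} [Field k] [CharZero k] [IsAlgClosed k] [Field K] [Algebra k K]
    {n p : ℕ} (hn : 1 ≤ n) (htr : Algebra.trdeg k K = (n : ℕ)) {x : Fin (n + 1) → K}
    (hx : ∀ i, x i ≠ 0) (hgen : IntermediateField.adjoin k (Set.range x) = ⊤)
    {f : (Fin (n + 1) → ℤ) →₀ k} (hf : ev x f = 0)
    {h : Fin p → (Fin (n + 1) → ℤ) →₀ k} (hhx : ∀ j, ev x (h j) ≠ 0) (H : MildP f h x)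
    {A : (Fin (n + 1) → ℤ) → ℚ} (hA : N.IsWeight A) {c : Fin p → ℚ}
    (hc : ∀ j, 0 ≤ c j ∧ c j ≤ 1) :
    (PosB k K n (fun P => ((bdry A c x h P : ℚ) : ℝ)) ∨
      NegB k K n (fun P => ((bdry A c x h P : ℚ) : ℝ))) ∧
      ((FineG A (fun v => ∑ j, c j * (mn v (h j) : ℚ)) (fun _ : Fin 1 => f)).Nonempty →
        ∀ d : ℕ, Algebra.trdeg k (IntermediateField.adjoin k {z : K |
          ∃ w ∈ dirsG A (fun v => ∑ j, c j * (mn v (h j) : ℚ)) (fun _ : Fin 1 => f),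
            z = R885.mono x w}) = (d : ℕ) →
        PairKod k K n (fun P => ((bdry A c x h P : ℚ) : ℝ)) d ∧
          PairNum k K n (fun P => ((bdry A c x h P : ℚ) : ℝ)) d) := by
  have hgr : gr x f ≠ 0 := mild_gr H hx hgen htr rfl
  have hf0 : f ≠ 0 := by
    intro h0
    apply hgr
    rw [h0]
    funext i
    unfold gr
    exact Finsupp.sum_zero_index
  have hB := mild_sys htr rfl hx hgen hf0 hf hhx H hA hc
  exact ⟨hB.all hn htr, fun hF d hd => hB.pos_val hn htr hF hd⟩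

section

variable {K L : Type} [Field K] [Field L] [Algebra ℂ K] [Algebra ℂ L]

/-- **Commensurable pairs.** -/
theorem transfer {n : ℕ} {M : Type} [Field M] [Algebra ℂ M] [Algebra K M]
    [Algebra L M] [IsScalarTower ℂ K M] [IsScalarTower ℂ L M] [FiniteDimensional K M]
    [FiniteDimensional L M] (htr : Algebra.trdeg ℂ L = (n : ℕ))
    (hessL : Algebra.EssFiniteType ℂ L) {b : Place ℂ L → ℚ} {N : ℕ} {y : Fin (N + 1) → K}
    {Δ : Place ℂ K → ℚ} (hy : IsCommensurable M b y n Δ) :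
    ((PosB ℂ L n (fun P => ((b P : ℚ) : ℝ)) ∨ NegB ℂ L n (fun P => ((b P : ℚ) : ℝ))) →
        PData (n := n) y Δ (fun δ => PosB ℂ K n δ ∨ NegB ℂ K n δ)) ∧
      ∀ d, PairKod ℂ L n (fun P => ((b P : ℚ) : ℝ)) d →
        PairNum ℂ L n (fun P => ((b P : ℚ) : ℝ)) d →
        PData (n := n) y Δ (fun δ => PairKod ℂ K n δ d ∧ PairNum ℂ K n δ d) := by
  classical
  choose e0 v0 hv0 using fun w : Place ℂ M => Pool.Agent.W73.PG.PULL.exists_over' (K := L) w
  obtain ⟨β, hβd⟩ : ∃ β : Place ℂ M → ℚ, β = fun w => 1 - (e0 w : ℚ) * (1 - b (v0 w)) :=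
    ⟨_, rfl⟩
  have hβ : ∀ Q, Divisorial n Q → ∀ (Q' : Place ℂ M) (e : ℕ), LiesOn Q' Q e →
      β Q' = 1 - e * (1 - b Q) := by
    intro Q hQ Q' e' hQ'
    obtain ⟨h1, h2⟩ := over_uniq hQ' (hv0 Q')
    rw [hβd]
    beta_reduce
    rw [h1, h2]
  have hyP : IsPulledBack β y n Δ := by
    refine ⟨hy.normal, hy.effective, ?_, ?_⟩
    · intro P hP P' e' hP'
      rw [hβd]
      beta_reduce
      rw [hy.mult P hP P' (v0 P') e' (e0 P') hP' (hv0 P')]
    · intro P hP P' e' hP'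
      rw [hβd]
      beta_reduce
      rw [sub_sub_cancel]
      exact hy.disc P hP P' (v0 P') e' (e0 P') hP' (hv0 P')
  have hessM : Algebra.EssFiniteType ℂ M := w6_ess (K := L) hessL
  have htrM : Algebra.trdeg ℂ M = (n : ℕ) := w6_trdeg (K := L) htr
  obtain ⟨z, hz⟩ := Pool.Agent.W636.PG.exists_basis ℂ M n htrM
  have htrK : Algebra.trdeg ℂ K = (n : ℕ) := by
    have h1 := trdeg_add_eq ℂ K (A := M)
    have h2 : Algebra.trdeg K M = 0 := trdeg_eq_zero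
    rw [h2, add_zero, htrM] at h1
    exact h1
  obtain ⟨z', hz'⟩ := Pool.Agent.W636.PG.exists_basis ℂ K n htrK
  have hessK : Algebra.EssFiniteType ℂ K := ess_down hessM z' hz'
  have hβ' : ∀ v, IsDivisorial v n → ∀ (w : Place ℂ M) e, LiesOn w v e →
      (fun P => ((β P : ℚ) : ℝ)) w = 1 - e * (1 - (fun P => ((b P : ℚ) : ℝ)) v) := by
    intro v hv w e hwv
    beta_reduce
    rw [hβ v hv w e hwv]
    push_cast
    ring
  obtain ⟨k1, k2, k3⟩ := fin_all (K := L) (L := M) hessL htr hβ'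
  obtain ⟨δ, d1, d2, d3, d4, d5⟩ := pulled_data hessK htrK hyP
  refine ⟨fun hP => ⟨htrK, δ, ?_, d4, d5⟩, fun d h1 h2 => ⟨htrK, δ, ?_, d4, d5⟩⟩
  · rcases hP with ⟨d, hd, h1, h2⟩ | h1
    · exact Or.inl ⟨d, hd, d1 d ((k1 d).2 h1), d2 d ((k2 d).2 h2)⟩
    · exact Or.inr (d3 (k3.2 h1))
  · exact ⟨d1 d ((k1 d).2 h1), d2 d ((k2 d).2 h2)⟩

/-- **Pairs which are commensurable with mild pairs.** -/
theorem mild_final {n p : ℕ} (hn : 1 ≤ n) {M : Type} [Field M] [Algebra ℂ M] [Algebra K M]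
    [Algebra L M] [IsScalarTower ℂ K M] [IsScalarTower ℂ L M] [FiniteDimensional K M]
    [FiniteDimensional L M] (htr : Algebra.trdeg ℂ L = (n : ℕ)) {x : Fin (n + 1) → L}
    (hx : ∀ i, x i ≠ 0) (hgen : IntermediateField.adjoin ℂ (Set.range x) = ⊤)
    {f : (Fin (n + 1) → ℤ) →₀ ℂ} (hf : ev x f = 0)
    {h : Fin p → (Fin (n + 1) → ℤ) →₀ ℂ} (hhx : ∀ j, ev x (h j) ≠ 0)
    (H : MildP f h x) {A : (Fin (n + 1) → ℤ) → ℚ} (hA : N.IsWeight A) {c : Fin p → ℚ}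
    (hc : ∀ j, 0 ≤ c j ∧ c j ≤ 1) {N : ℕ} {y : Fin (N + 1) → K} {Δ : Place ℂ K → ℚ}
    (hy : IsCommensurable M (bdry A c x h) y n Δ) :
    PData (n := n) y Δ (fun δ => PosB ℂ K n δ ∨ NegB ℂ K n δ) ∧
      ((FineG A (fun v => ∑ j, c j * (mn v (h j) : ℚ)) (fun _ : Fin 1 => f)).Nonempty →
        ∀ d : ℕ, Algebra.trdeg ℂ (IntermediateField.adjoin ℂ {z : L |
          ∃ w ∈ dirsG A (fun v => ∑ j, c j * (mn v (h j) : ℚ)) (fun _ : Fin 1 => f),
            z = R885.mono x w}) = (d : ℕ) →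
        PData (n := n) y Δ (fun δ => PairKod ℂ K n δ d ∧ PairNum ℂ K n δ d)) := by
  obtain ⟨hP, hV⟩ := mild_val hn htr hx hgen hf hhx H hA hc
  obtain ⟨t1, t2⟩ := transfer (M := M) htr (ess_of_gen hgen) hy
  refine ⟨t1 hP, fun hF d hd => ?_⟩
  obtain ⟨h1, h2⟩ := hV hF d hd
  exact t2 d h1 h2

end

end Pool.Agent.K9h25.M
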