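import Pool.Agent.K9h25.M.Mild
import Pool.Agent.R882.TCol

/-!
Residue forms of mild hypersurfaces, for the images.
-/

set_option autoImplicit false
set_option linter.overlappingInstances false
set_option linter.unusedSectionVars false

open FF Pool.Agent.R885 Pool.Agent.W603.LV Pool.Agent.W619.PQ Pool.Agent.W619.TW
  Pool.Agent.Y173.QA Pool.Agent.Y184.NT Pool.Agent.R882.LT
open Pool.Agent.W602.GT (RegAt IsPluri)

namespace Pool.Agent.K9h25.M

/-- The hypersurface `f = 0` is mild along the component with the generic point `x`. -/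
def MildA {k K : Type} [Field k] [Field K] [Algebra k K] {r : ℕ} (f : (Fin r → ℤ) →₀ k)
    (x : Fin r → K) : Prop :=
  ∀ (v : Fin r → ℤ) (c : Fin r → k), (∀ i, c i ≠ 0) →
    (∀ g : (Fin r → ℤ) →₀ k, ev x g = 0 → ev c (ini v g) = 0) → gr c (ini v f) = 0 →
      2 ≤ (hess c (ini v f)).rank ∧ (v = 0 → 3 ≤ (hess c (ini v f)).rank)

theorem MildA.pair {k K : Type} [Field k] [Field K] [Algebra k K] {r : ℕ}
    {f : (Fin r → ℤ) →₀ k} {x : Fin r → K} (H : MildA f x) :
    MildP f (fun _ : Fin 0 => f) x := by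
  classical
  intro v c hc hev
  by_cases hg : gr c (ini v f) = 0
  · exact Or.inr ⟨fun j => j.elim0, H v c hc hev hg⟩
  · left
    intro V _
    have hVe : IsEmpty V := ⟨fun j => (j : Fin 0).elim0⟩
    have h1 : LinearIndependent k (fun _ : Fin 1 => gr c (ini v f)) :=
      linearIndependent_unique_iff.2 hg
    have h2 := linearIndependent_sum.2 ⟨(by exact h1 : LinearIndependent k
      ((Sum.elim (fun _ : Fin 1 => gr c (ini v f)) fun j : V => gr c (ini v
        ((fun _ : Fin 0 => f) j))) ∘ Sum.inl)), by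
      exact linearIndependent_empty_type, by
      have h3 : Set.range ((Sum.elim (fun _ : Fin 1 => gr c (ini v f)) fun j : V =>
          gr c (ini v ((fun _ : Fin 0 => f) j))) ∘ Sum.inr) = ∅ := Set.range_eq_empty _
      rw [h3, Submodule.span_empty]
      exact disjoint_bot_right⟩
    exact h2

section

variable {k K : Type} [Field k] [CharZero k] [IsAlgClosed k] [Field K] [Algebra k K] {r n : ℕ}
  {x : Fin r → K} {f : (Fin r → ℤ) →₀ k}

/-- the order of the residue form -/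
theorem om_ge_A (H : MildA f x) (P : Place k K) (hx : ∀ i, x i ≠ 0)
    {e : Fin 1 ⊕ Fin n ≃ Fin r} (hf0 : f ≠ 0) (hf : ev x f = 0) {C0 : Fin n → Fin r → ℤ}
    (h0 : dt e (fun _ => gr x f) C0 ≠ 0) {D : Fin n → Derivation k K K}
    (hD : ∀ a, Pres P (D a)) :
    Ge P (-1 - mn (vec P x) f) (Om e x (fun _ : Fin 1 => f) C0 D) ∧
      (vec P x = 0 → Ge P 0 (Om e x (fun _ : Fin 1 => f) C0 D)) := by
  rw [← om_unit]
  exact om_mild P (e := eU e) hx hf0 hf (C0 := C0) (by rw [dt_unit]; exact h0) hD fun hz =>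
    (spec_mild H.pair (pt_ne P hx) (fun g hg => N.ev_pt P hx hg) hz).2

end

section

variable {K : Type} [Field K] [Algebra ℂ K] {r n N M : ℕ}

/-- the forms `x ^ u Res` are regular -/
theorem mono_om_regA {x : Fin r → K} (hx : ∀ i, x i ≠ 0) {e : Fin 1 ⊕ Fin n ≃ Fin r}
    {f : (Fin r → ℤ) →₀ ℂ} (hf0 : f ≠ 0) (hf : ev x f = 0) (H : MildA f x)
    {C0 : Fin n → Fin r → ℤ} (h0 : dt e (fun _ => gr x f) C0 ≠ 0) {u : Fin r → ℤ}
    (hu : InFine (fun _ : Fin 1 => f) u) (P : Place ℂ K) :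
    RegAt P (fun D => R885.mono x u * Om e x (fun _ : Fin 1 => f) C0 D) := by
  intro D hD
  have hD' : ∀ a, Pres P (D a) := hD
  obtain ⟨h1, h2⟩ := om_ge_A H P hx (e := e) hf0 hf h0 hD'
  by_cases hO : Om e x (fun _ : Fin 1 => f) C0 D = 0
  · left
    change R885.mono x u * Om e x (fun _ : Fin 1 => f) C0 D = 0
    rw [hO, mul_zero]
  right
  change 0 ≤ P.ord (R885.mono x u * Om e x (fun _ : Fin 1 => f) C0 D)
  rw [P.ord_mul (R885.mono_ne hx _) hO, ord_mono P hx]
  by_cases hV0 : vec P x = 0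
  · have h3 := (h2 hV0).resolve_left hO
    rw [hV0, dotProduct_zero, zero_add]
    exact h3
  · have h3 := hu _ hV0
    have h4 := h1.resolve_left hO
    rw [Fin.sum_univ_one] at h3
    linarith

/-- **The residue forms.** -/
theorem exists_resA (htr : Algebra.trdeg ℂ K = (n : ℕ)) (hr : r = n + 1) {x : Fin r → K}
    (hx : ∀ i, x i ≠ 0) (hgen : IntermediateField.adjoin ℂ (Set.range x) = ⊤)
    (e : Fin 1 ⊕ Fin n ≃ Fin r) {f : (Fin r → ℤ) →₀ ℂ} (hf : ev x f = 0) (H : MildA f x) :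
    ∃ C0 : Fin n → Fin r → ℤ, dt e (fun _ : Fin 1 => gr x f) C0 ≠ 0 ∧
      (∀ u, InFine (fun _ : Fin 1 => f) u → ∀ P : Place ℂ K,
        RegAt P (fun D => R885.mono x u * Om e x (fun _ : Fin 1 => f) C0 D)) ∧
      ∀ (Z : Fin n → K), IsTranscendenceBasis ℂ Z → ∀ D0 : Fin n → Derivation ℂ K K,
        (∀ i j, D0 i (Z j) = if i = j then 1 else 0) →
          Om e x (fun _ : Fin 1 => f) C0 D0 ≠ 0 := by
  have hgr : gr x f ≠ 0 := mild_gr H.pair hx hgen htr hr
  have hf0 : f ≠ 0 := by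
    intro h0
    apply hgr
    rw [h0]
    funext i
    unfold gr
    exact Finsupp.sum_zero_index
  obtain ⟨C0, hC0'⟩ := complete_zero (κ := K) (J := Fin 1) (a := fun _ => gr x f)
    (linearIndependent_unique_iff.2 hgr) (n := n) (by
      rw [Fintype.card_fin, Fintype.card_fin]; omega)
  have h0 : dt e (fun _ : Fin 1 => gr x f) C0 ≠ 0 := dt_ne hC0'
  exact ⟨C0, h0, fun u hu P => mono_om_regA hx hf0 hf H h0 hu P, fun Z hZ D0 hD0 =>
    om_ne hx hgen (f := fun _ : Fin 1 => f) (fun _ => hf) h0 hZ hD0⟩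

/-- **The twisted forms.** -/
theorem exists_twisted_colA (htr : Algebra.trdeg ℂ K = (n : ℕ)) (hr : r = n + 1)
    {x : Fin r → K} (hx : ∀ i, x i ≠ 0)
    (hgen : IntermediateField.adjoin ℂ (Set.range x) = ⊤) (e : Fin 1 ⊕ Fin n ≃ Fin r)
    {f : (Fin r → ℤ) →₀ ℂ} (hf : ev x f = 0) (H : MildA f x)
    {w : Fin N → Fin r → ℤ} :
    ∃ Ω : (Fin n → Derivation ℂ K K) → K,
      (∀ (M : ℕ) (u : Fin r → ℤ), InFine (fun _ : Fin 1 => f) u →
        (∀ j, InFine (fun _ : Fin 1 => f) (u + (M : ℤ) • w j)) →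
        IsTwisted n M (fun j => R885.mono x (w j)) (fun D => R885.mono x u * Ω D)) ∧
      ∀ (Z : Fin n → K), IsTranscendenceBasis ℂ Z → ∀ D0 : Fin n → Derivation ℂ K K,
        (∀ i j, D0 i (Z j) = if i = j then 1 else 0) → Ω D0 ≠ 0 := by
  obtain ⟨C0, h0, hreg, hne⟩ := exists_resA htr hr hx hgen e hf H
  obtain ⟨f', hf'⟩ : ∃ f' : Fin 1 → (Fin r → ℤ) →₀ ℂ, f' = fun _ => f := ⟨_, rfl⟩
  rw [← hf'] at hreg hne ⊢
  refine ⟨Om e x f' C0, fun M u hu hw => ⟨?_, ?_⟩, hne⟩
  · intro B D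
    have h1 := om_pluri e x f' C0 1 B D
    change Om e x f' C0 (fun i => ∑ j, B i j • D j) ^ 1 = B.det ^ 1 * Om e x f' C0 D ^ 1 at h1
    change R885.mono x u * Om e x f' C0 (fun i => ∑ j, B i j • D j) =
      B.det ^ 1 * (R885.mono x u * Om e x f' C0 D)
    rw [pow_one, pow_one, pow_one] at h1
    rw [h1]
    ring
  · intro a ha P _ D hD
    have hfin : InFine f' (u + ∑ j, (a j : ℤ) • w j) := by
      rcases Nat.eq_zero_or_pos M with hM | hM
      · have h1 : ∀ j, a j = 0 := by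
          intro j
          have h2 := Finset.single_le_sum (f := a) (fun _ _ => Nat.zero_le _) (Finset.mem_univ j)
          omega
        have h2 : ∑ j, (a j : ℤ) • w j = 0 := by
          refine Finset.sum_eq_zero fun j _ => ?_
          rw [h1, Nat.cast_zero, zero_smul]
        rw [h2, add_zero]
        exact hu
      · exact inFine_comb hM hu hw a ha
    have h1 := hreg _ hfin P D hD
    change P.Reg ((∏ j, R885.mono x (w j) ^ a j) * (R885.mono x u * Om e x f' C0 D))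
    rw [mono_comb hx, ← mul_assoc, mul_comm (R885.mono x _) (R885.mono x u), ← R885.mono_add hx]
    exact h1

end

end Pool.Agent.K9h25.M
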