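import Pool.Agent.K9h25.M.Fb
import Pool.Agent.K9h25.M.Sys

/-!
Arbitrary hypersurfaces of tori whose polytope has a point as its image: bounded families of sections.
-/

set_option autoImplicit false
set_option linter.overlappingInstances false
set_option linter.unusedSectionVars false
set_option linter.unusedVariables false

open FF IntermediateField Pool.Agent.R885 Pool.Agent.R885.N Pool.Agent.W603.LV Pool.Agent.W619.PQ
  Pool.Agent.W619.PL Pool.Agent.Y173.QA Pool.Agent.W619.TW Pool.Agent.TH165.ACC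
  Pool.Agent.TH122.AB Pool.Agent.W619.Y Pool.Agent.W824.PG Pool.Agent.Y174

namespace Pool.Agent.K9h25.M

section

variable {k K : Type} [Field k] [Field K] [Algebra k K]

theorem span_ord (P : Place k K) {S : Set K} {a : ℤ} (hS : ∀ g ∈ S, g = 0 ∨ a < P.ord g) :
    ∀ g ∈ Submodule.span k S, g = 0 ∨ a < P.ord g := by
  intro g hg
  induction hg using Submodule.span_induction with
  | mem g hg => exact hS g hg
  | zero => exact Or.inl rfl
  | add g h _ _ h1 h2 =>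
    rcases h1 with rfl | h1
    · rwa [zero_add]
    rcases h2 with rfl | h2
    · rw [add_zero]
      exact Or.inr h1
    by_cases hg0 : g = 0
    · rw [hg0, zero_add]
      exact Or.inr h2
    by_cases hh0 : h = 0
    · rw [hh0, add_zero]
      exact Or.inr h1
    by_cases hgh : g + h = 0
    · exact Or.inl hgh
    · right
      exact lt_of_lt_of_le (lt_min h1 h2) (P.ord_add hg0 hh0 hgh)
  | smul c g _ h1 =>
    by_cases hc : c = 0
    · left
      rw [hc, zero_smul]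
    by_cases hg0 : g = 0
    · left
      rw [hg0, smul_zero]
    right
    have h2 := h1.resolve_left hg0
    rw [Algebra.smul_def, P.ord_mul (by
      rw [Ne, map_eq_zero]
      exact hc) hg0, P.ord_const hc, zero_add]
    exact h2

/-- functions with different orders are linearly independent -/
theorem li_strict (P : Place k K) : ∀ (N : ℕ) (φ : Fin N → K), (∀ i, φ i ≠ 0) →
    (∀ i j, i < j → P.ord (φ i) < P.ord (φ j)) → LinearIndependent k φ := by
  intro N
  induction N with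
  | zero => intro φ _ _; exact linearIndependent_empty_type
  | succ N ih =>
    intro φ h0 h1
    rw [linearIndependent_finSucc]
    refine ⟨ih (Fin.tail φ) (fun i => h0 _) fun i j hij => h1 _ _ (Fin.succ_lt_succ_iff.2 hij),
      fun hmem => ?_⟩
    have h2 := span_ord P (S := Set.range (Fin.tail φ)) (a := P.ord (φ 0)) (by
      rintro _ ⟨i, rfl⟩
      exact Or.inr (h1 _ _ (Fin.succ_pos i))) _ hmem
    rcases h2 with h2 | h2
    · exact h0 0 h2
    · exact lt_irrefl _ h2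

/-- bounded families have bounded orders -/
theorem ord_bdd {Q : K → Prop} {C : ℕ} (hC : ∀ (N : ℕ) (φ : Fin N → K), LinearIndependent k φ →
    (∀ l, Q (φ l)) → N ≤ C) (P : Place k K) : ∃ B : ℤ, ∀ φ, φ ≠ 0 → Q φ → P.ord φ ≤ B := by
  by_contra hcon
  push Not at hcon
  choose g hg using hcon
  let s : ℕ → K := fun i => Nat.rec (g 0) (fun _ z => g (P.ord z)) i
  have hs : ∀ i, s i ≠ 0 ∧ Q (s i) := by
    intro i
    cases i with
    | zero => exact ⟨(hg 0).1, (hg 0).2.1⟩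
    | succ i => exact ⟨(hg (P.ord (s i))).1, (hg (P.ord (s i))).2.1⟩
  have hlt : ∀ i, P.ord (s i) < P.ord (s (i + 1)) := fun i => (hg (P.ord (s i))).2.2
  have hmono : StrictMono fun i => P.ord (s i) := strictMono_nat_of_lt_succ hlt
  have h1 := hC (C + 1) (fun i => s i) (li_strict P _ _ (fun i => (hs i).1) fun i j hij =>
    hmono (by exact_mod_cast hij)) fun i => (hs i).2
  omega

end

section

variable {k K : Type} [Field k] [CharZero k] [Field K] [Algebra k K] {r m d : ℕ} {x : Fin r → K}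

/-- **Bounded families of sections.** -/
theorem lim_zeroM (htr : Algebra.trdeg k K = (m + 1 : ℕ)) (hx : ∀ i, x i ≠ 0)
    (hgen : IntermediateField.adjoin k (Set.range x) = ⊤)
    (e : (Unit ⊕ Fin d) ⊕ Fin (m + 1) ≃ Fin r) {f : (Fin r → ℤ) →₀ k}
    (hf0 : f ≠ 0) (hf : ev x f = 0) {w : Fin d → Fin r → ℤ} {t : Fin d → k}
    (hwt : ∀ j, algebraMap k K (t j) = mono x (w j))
    (hli : LinearIndependent K (Sum.elim (fun _ : Unit => gr x f) fun j i => (w j i : K)))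
    {J' : Type} [Fintype J'] {y : J' → K} (hy : ∀ j, y j ≠ 0)
    {S : Finset (Fin r → ℤ)} {u0 : Fin r → ℤ} {c : ℤ} {a' : (Fin r → ℤ) → ℤ} {nn : J' → ℤ}
    (hc : 0 < c)
    (hA2 : ∀ v w, v ≠ 0 → w ≠ 0 → v + w ≠ 0 → a' v + a' w - c ≤ a' (v + w))
    (hA3 : ∀ (g : ℤ) v, 0 < g → v ≠ 0 → a' (g • v) ≤ g * a' v)
    (hwS : ∀ j, ∀ s ∈ S, w j ⬝ᵥ s = 0) (hS : ∀ s ∈ S, s ≠ 0 ∧ u0 ⬝ᵥ s = a' s + c * mn s f)
    (hpos : ∀ q : Fin r → ℚ, (∀ s ∈ S, 0 ≤ dq q s) → ∀ s ∈ S, dq q s = 0)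
    (hsp : ∀ P : Place k K, InSpan S (vec P x))
    (hhom : ∀ (P : Place k K) (C : Fin m → Fin r → ℤ) (σ : Fin 2 → Fin r → ℤ),
      (∀ j, C j ⬝ᵥ vec P x = 0) →
      (AlgebraicIndependent k fun j => P.red (mono x (C j))) →
      (LinearIndependent ℚ fun (z : Fin d ⊕ Fin m) (i : Fin r) =>
        ((Sum.elim w C z i : ℤ) : ℚ)) →
      (LinearIndependent ℚ fun (i : Fin 2) (k : Fin r) => (σ i k : ℚ)) →
      (∀ j i, w j ⬝ᵥ σ i = 0) → (∀ j i, C j ⬝ᵥ σ i = 0) →
      ∃ m ∈ f.support, ∃ m' ∈ f.support, m ⬝ᵥ vec P x = mn (vec P x) f ∧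
        m' ⬝ᵥ vec P x = mn (vec P x) f ∧ ∃ i, m ⬝ᵥ σ i ≠ m' ⬝ᵥ σ i)
    {β : Place k K → ℝ} (hβ1 : ∀ P : Place k K, β P ≤ 1)
    (hβ0 : ∀ P : Place k K, vec P x = 0 →
      (c : ℝ) * β P ≤ ((∑ j, nn j * P.ord (y j) : ℤ) : ℝ))
    (hβ2 : ∀ P : Place k K, vec P x ≠ 0 →
      (c : ℝ) * β P ≤ ((c - a' (vec P x) + ∑ j, nn j * P.ord (y j) : ℤ) : ℝ))
    (T : Finset K) (hinf : ∀ M0 : ℕ, ∃ M : ℕ, M0 ≤ M ∧
      ∃ ω : (Fin (m + 1) → Derivation k K K) → K, ω ≠ 0 ∧ PairSec k K (m + 1) β T M 1 ω) :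
    ∃ C0 : Fin (m + 1) → Fin r → ℤ, dt e (fun l => gr x (hs f w t l)) C0 ≠ 0 ∧
      ∀ P : Place k K, IsDivisorial P (m + 1) → ∀ D : Fin (m + 1) → Derivation k K K,
        (∀ a, Pres P (D a)) → Om e x (hs f w t) C0 D ≠ 0 →
          0 ≤ (c : ℝ) * (P.ord (Om e x (hs f w t) C0 D) : ℝ) +
            ((u0 ⬝ᵥ vec P x - ∑ j, nn j * P.ord (y j) : ℤ) : ℝ) + c * β P := by
  classical
  obtain ⟨c1, B, hc1, h0B, hsB, hB⟩ := exists_B S hpos
  have hcard : r = (1 + d) + (m + 1) := by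
    rw [← Fintype.card_fin r, ← Fintype.card_congr e]
    simp only [Fintype.card_sum, Fintype.card_unit, Fintype.card_fin]
  have hGu := li_Gu (κ := k) hx hli
  obtain ⟨C0, hC0⟩ := complete_zero hGu (n := m + 1) (by
    simp only [Fintype.card_sum, Fintype.card_unit, Fintype.card_fin]
    omega)
  have h0 : dt e (fun l => gr x (hs f w t l)) C0 ≠ 0 := by
    rw [gr_hs]
    exact dt_ne hC0
  have hfl : ∀ l, ev x (hs f w t l) = 0 := by
    rintro (l | j)
    · exact hf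
    · change ev x (Finsupp.single (w j) 1 - Finsupp.single 0 (t j)) = 0
      rw [bin_ev, hwt, sub_self]
  have hgenB : IntermediateField.adjoin k (Set.range fun b : B => mono x (b : Fin r → ℤ)) = ⊤ := by
    rw [eq_top_iff, ← hgen, IntermediateField.adjoin_le_iff]
    rintro _ ⟨i, rfl⟩
    apply IntermediateField.subset_adjoin
    exact ⟨⟨Pi.single i 1, hsB i⟩, mono_single x i⟩
  obtain ⟨v, hℓ, hbas, hord⟩ := noether (u := fun b : B => mono x (b : Fin r → ℤ))
    (fun b => mono_ne hx _) (b0 := ⟨0, h0B⟩) (mono_zero x) hgenB htr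
  obtain ⟨ℓ, hℓd⟩ : ∃ ℓ : Fin (m + 2) → K, ℓ = fun l => ∑ b : B, v l b • mono x b := ⟨_, rfl⟩
  have hℓd' : ∀ l, ∑ b : B, v l b • mono x b = ℓ l := fun l => by rw [hℓd]
  obtain ⟨Z, hZd⟩ : ∃ Z : Fin (m + 1) → K, Z = fun j => ℓ ((0 : Fin (m + 2)).succAbove j) / ℓ 0 :=
    ⟨_, rfl⟩
  obtain ⟨Z', hZ'd⟩ : ∃ Z' : Fin (m + 1) → K,
    Z' = fun j => ℓ ((1 : Fin (m + 2)).succAbove j) / ℓ 1 := ⟨_, rfl⟩
  have hℓ0 : ∀ l, ℓ l ≠ 0 := fun l => by rw [← hℓd']; exact hℓ l
  have hZ : IsTranscendenceBasis k Z := by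
    have h1 := hbas 0
    simp only [hℓd'] at h1
    rw [hZd]
    exact h1
  have hZ0 : Z' 0 = (Z 0)⁻¹ := by
    rw [hZ'd, hZd]
    beta_reduce
    have h1 : (1 : Fin (m + 2)).succAbove 0 = 0 := by
      rw [Fin.succAbove_of_castSucc_lt _ _ (by simp [Fin.lt_def])]
      rfl
    have h2 : (0 : Fin (m + 2)).succAbove 0 = 1 := by
      rw [Fin.succAbove_zero]
      rfl
    rw [h1, h2, inv_div]
  have hZs : ∀ j : Fin m, Z' j.succ = Z j.succ / Z 0 := by
    intro j
    rw [hZ'd, hZd]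
    beta_reduce
    have h1 : (1 : Fin (m + 2)).succAbove j.succ = j.succ.succ := by
      rw [Fin.succAbove_of_le_castSucc _ _ (by simp [Fin.le_def])]
    have h2 : (0 : Fin (m + 2)).succAbove 0 = 1 := by
      rw [Fin.succAbove_zero]
      rfl
    have h3 : (0 : Fin (m + 2)).succAbove j.succ = j.succ.succ := by
      rw [Fin.succAbove_zero]
    rw [h1, h2, h3]
    have := hℓ0 0
    have := hℓ0 1
    field_simp
  obtain ⟨D0, hD0'⟩ := Pool.Agent.W602.GT.exists_dual hZ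
  have hD0 : ∀ i j, D0 i (Z j) = if i = j then 1 else 0 := by
    intro i j
    have h1 := congrFun (congrFun hD0' i) j
    rw [Matrix.of_apply, Matrix.one_apply] at h1
    exact h1
  have hOm0 := om_ne hx hgen hfl h0 hZ hD0
  -- the bound for the orders
  obtain ⟨K1, hK10, hK1⟩ : ∃ K1 : ℤ, 0 ≤ K1 ∧ ∀ s ∈ S, ∀ m ∈ f.support, |m ⬝ᵥ s| ≤ K1 := by
    refine ⟨∑ s ∈ S, ∑ m ∈ f.support, |m ⬝ᵥ s|, Finset.sum_nonneg fun s _ =>
      Finset.sum_nonneg fun i _ => abs_nonneg _, fun s hs m' hm' => ?_⟩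
    have h1 := Finset.single_le_sum (f := fun m' => |m' ⬝ᵥ s|)
      (fun i _ => abs_nonneg _) hm'
    have h2 := Finset.single_le_sum (f := fun s : Fin r → ℤ => ∑ m ∈ f.support, |m ⬝ᵥ s|)
      (fun s _ => Finset.sum_nonneg fun i _ => abs_nonneg _) hs
    exact h1.trans h2
  obtain ⟨N0, hN0d⟩ : ∃ N0 : ℤ, N0 = c * (1 + K1) := ⟨_, rfl⟩
  have hN0 : 0 ≤ N0 := by rw [hN0d]; exact mul_nonneg hc.le (by omega)
  have hN1 : c ≤ N0 := by
    rw [hN0d]
    nlinarith
  -- the finite set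
  obtain ⟨T0, hT0d⟩ : ∃ T0 : Finset K, T0 = T.filter fun s => s ≠ 0 := ⟨_, rfl⟩
  obtain ⟨T', hT'd⟩ : ∃ T' : Finset K, T' = T0 ∪
      ((T0 ×ˢ B).image fun p => p.1 * mono x (N0 • p.2)) ∪
      ((T0 ×ˢ (Finset.univ : Finset (J' → Bool))).image fun p =>
        p.1 * ∏ j, (y j) ^ (if p.2 j then N0 else -N0)) :=
    ⟨_, rfl⟩
  have hT0 : ∀ s ∈ T0, s ≠ 0 := by
    intro s hs
    rw [hT0d] at hs
    exact (Finset.mem_filter.1 hs).2
  have hT'0 : ∀ s ∈ T', s ≠ 0 := by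
    intro s hs
    rw [hT'd, Finset.mem_union, Finset.mem_union] at hs
    rcases hs with (hs | hs) | hs
    · exact hT0 s hs
    · obtain ⟨p, hp, rfl⟩ := Finset.mem_image.1 hs
      exact mul_ne_zero (hT0 _ (Finset.mem_product.1 hp).1) (mono_ne hx _)
    · obtain ⟨p, hp, rfl⟩ := Finset.mem_image.1 hs
      exact mul_ne_zero (hT0 _ (Finset.mem_product.1 hp).1)
        (Finset.prod_ne_zero_iff.2 fun j _ => zpow_ne_zero _ (hy j))
  obtain ⟨C, hC⟩ := fd_bound hZ (hfin_of_gen hgen hZ) hZ0 hZs T' hT'0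
  have key : ∀ (M : ℕ) (ω0 : (Fin (m + 1) → Derivation k K K) → K), ω0 ≠ 0 →
      PairSec k K (m + 1) β T M 1 ω0 → ∃ (q ρ : ℤ) (φ : K), (M : ℤ) = c * q + ρ ∧ 0 ≤ ρ ∧
        ρ < c ∧ φ ≠ 0 ∧ (∀ P : Place k K, ((∃ p, Irreducible p ∧ Adic Z p P) ∨
          Adic Z' (MvPolynomial.X 0 : MvPolynomial (Fin (m + 1)) k) P) →
          ∃ s ∈ T', P.ord s ≤ P.ord φ) ∧
        ∀ (P : Place k K) (D : Fin (m + 1) → Derivation k K K),
          Om e x (hs f w t) C0 D ≠ 0 → ω0 D ≠ 0 ∧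
            P.ord φ = P.ord (ω0 D) - M * P.ord (Om e x (hs f w t) C0 D) -
              q * (u0 ⬝ᵥ vec P x) + q * ∑ j, nn j * P.ord (y j) := by
    intro M ω0 hω00 hsec0
    obtain ⟨ω, hωd⟩ : ∃ ω : Fin 1 → (Fin (m + 1) → Derivation k K K) → K, ω = fun _ => ω0 :=
      ⟨_, rfl⟩
    have hsec : ∀ l, PairSec k K (m + 1) β T M 1 (ω l) := fun l => by
      rw [hωd]
      exact hsec0
    have hlin : LinearIndependent k ω := by
      rw [hωd]
      exact linearIndependent_unique_iff.2 hω00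
    obtain ⟨q, hqd⟩ : ∃ q : ℤ, q = (M : ℤ) / c := ⟨_, rfl⟩
    obtain ⟨ρ, hρd⟩ : ∃ ρ : ℤ, ρ = (M : ℤ) % c := ⟨_, rfl⟩
    have hMq : (M : ℤ) = c * q + ρ := by
      rw [hqd, hρd]
      have := Int.emod_add_mul_ediv (M : ℤ) c
      linarith
    have hρ0 : 0 ≤ ρ := by
      rw [hρd]
      exact Int.emod_nonneg _ hc.ne'
    have hρc : ρ < c := by
      rw [hρd]
      exact Int.emod_lt_of_pos _ hc
    have hq0 : 0 ≤ q := by
      rw [hqd]
      exact Int.ediv_nonneg (Int.natCast_nonneg M) hc.le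
    have hM0 : (0 : ℤ) ≤ M := Int.natCast_nonneg M
    obtain ⟨R, hRd⟩ : ∃ R : K, R = mono x (q • u0) * ∏ j, (y j) ^ (-(q * nn j)) := ⟨_, rfl⟩
    have hR0 : R ≠ 0 := by
      rw [hRd]
      exact mul_ne_zero (mono_ne hx _) (Finset.prod_ne_zero_iff.2 fun j _ => zpow_ne_zero _ (hy j))
    have hRord : ∀ P : Place k K, P.ord R = q * (u0 ⬝ᵥ vec P x) -
        q * ∑ j, nn j * P.ord (y j) := by
      intro P
      rw [hRd, P.ord_mul (mono_ne hx _) (Finset.prod_ne_zero_iff.2 fun j _ =>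
        zpow_ne_zero _ (hy j)), ord_mono P hx, ord_prod_zpow P _ _ hy, smul_dotProduct,
        smul_eq_mul, Finset.mul_sum, sub_eq_add_neg, ← Finset.sum_neg_distrib]
      congr 1
      exact Finset.sum_congr rfl fun j _ => by ring
    have hc'0 : (Om e x (hs f w t) C0 D0 ^ M * R)⁻¹ ≠ 0 :=
      inv_ne_zero (mul_ne_zero (pow_ne_zero _ hOm0) hR0)
    have hlin' := lin_sec hZ hD0 hlin (fun l => (hsec l).1) hc'0
    obtain ⟨l, hl⟩ : ∃ l : Fin 1, l = 0 := ⟨_, rfl⟩
    have hωl : ω l = ω0 := by rw [hωd]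
    have hvals : ∀ (P : Place k K) (D : Fin (m + 1) → Derivation k K K),
        Om e x (hs f w t) C0 D ≠ 0 → ω l D ≠ 0 ∧
          P.ord (ω l D0 * (Om e x (hs f w t) C0 D0 ^ M * R)⁻¹) =
            P.ord (ω l D) - M * P.ord (Om e x (hs f w t) C0 D) -
              q * (u0 ⬝ᵥ vec P x) + q * ∑ j, nn j * P.ord (y j) := by
      intro P D hOm
      have hne : ω l D0 ≠ 0 := by
        intro h1
        have h2 := hlin'.ne_zero l
        rw [h1, zero_mul] at h2
        exact h2 rfl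
      have h1 : D = fun i => ∑ b, D i (Z b) • D0 b := by
        funext i
        apply der_ext' hZ
        intro j
        rw [sum_der, Finset.sum_eq_single j]
        · rw [hD0, if_pos rfl, mul_one]
        · intro b _ hb
          rw [hD0, if_neg hb, mul_zero]
        · intro hj
          exact absurd (Finset.mem_univ _) hj
      obtain ⟨δ, hδ⟩ : ∃ δ : K, δ = (Matrix.of fun i b => D i (Z b)).det := ⟨_, rfl⟩
      have h2 : Om e x (hs f w t) C0 D = δ * Om e x (hs f w t) C0 D0 := by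
        have h3 := om_pluri e x (hs f w t) C0 1 (Matrix.of fun i b => D i (Z b)) D0
        simp only [Matrix.of_apply, pow_one] at h3
        rw [← h1, ← hδ] at h3
        exact h3
      have h3 : ω l D = δ ^ M * ω l D0 := by
        have h4 := (hsec l).1 (Matrix.of fun i b => D i (Z b)) D0
        simp only [Matrix.of_apply] at h4
        rw [← h1, ← hδ] at h4
        exact h4
      have hδ0 : δ ≠ 0 := by
        intro h4
        rw [h4, zero_mul] at h2
        exact hOm h2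
      have hωD : ω l D ≠ 0 := by
        rw [h3]
        exact mul_ne_zero (pow_ne_zero _ hδ0) hne
      have h4 : ω l D0 * (Om e x (hs f w t) C0 D0 ^ M * R)⁻¹ = ω l D / (Om e x (hs f w t) C0 D ^ M * R) := by
        rw [h2, h3, mul_pow, mul_assoc, ← div_eq_mul_inv, mul_div_mul_left _ _ (pow_ne_zero _ hδ0)]
      have h5 : P.ord (ω l D0 * (Om e x (hs f w t) C0 D0 ^ M * R)⁻¹) =
          P.ord (ω l D) - M * P.ord (Om e x (hs f w t) C0 D) - q * (u0 ⬝ᵥ vec P x) +
            q * ∑ j, nn j * P.ord (y j) := by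
        rw [h4, P.ord_div hωD (mul_ne_zero (pow_ne_zero _ hOm) hR0),
          P.ord_mul (pow_ne_zero _ hOm) hR0, P.ord_pow, hRord]
        ring
      exact ⟨hωD, h5⟩
    refine ⟨q, ρ, ω l D0 * (Om e x (hs f w t) C0 D0 ^ M * R)⁻¹, hMq, hρ0, hρc, hlin'.ne_zero l,
      fun P hP => ?_, fun P D hOm => ?_⟩
    swap
    · rw [← hωl]
      exact hvals P D hOm
    -- the frame at the place
    have hfr : IsDivisorial P (m + 1) ∧
        ∃ D : Fin (m + 1) → Derivation k K K, (∀ a, Pres P (D a)) ∧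
          Om e x (hs f w t) C0 D ≠ 0 ∧
          ((vec P x = 0 ∧ P.ord (Om e x (hs f w t) C0 D) ≤ 0) ∨
          (vec P x ≠ 0 ∧
            c * P.ord (Om e x (hs f w t) C0 D) + u0 ⬝ᵥ vec P x ≤ a' (vec P x) - c ∧
            P.ord (Om e x (hs f w t) C0 D) + mn (vec P x) f ≤ 0 ∧
            ∃ b ∈ B, b ⬝ᵥ vec P x ≤ -1 ∧ |mn (vec P x) f| ≤ K1 * (-(b ⬝ᵥ vec P x)))) := by
      rcases hP with ⟨p, hp, hP⟩ | hP
      · exact place_M htr hgen P hx e hf0 hf hwt hli hc hA2 hA3 hwS hS (hsp P) hc1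
          h0B hB hℓ hbas (hord P) h0 0 hp (by
            simp only [hℓd']
            rw [hZd] at hP
            exact hP) (hhom P) hK10 hK1
      · exact place_M htr hgen P hx e hf0 hf hwt hli hc hA2 hA3 hwS hS (hsp P) hc1
          h0B hB hℓ hbas (hord P) h0 1
          (MvPolynomial.X_prime (R := k) (i := (0 : Fin (m + 1)))).irreducible (by
            simp only [hℓd']
            rw [hZ'd] at hP
            exact hP) (hhom P) hK10 hK1
    obtain ⟨hdiv, D, hD, hOm, hcase⟩ := hfr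
    have hne : ω l D0 ≠ 0 := by
      intro h1
      have h2 := hlin'.ne_zero l
      rw [h1, zero_mul] at h2
      exact h2 rfl
    have h1 : D = fun i => ∑ b, D i (Z b) • D0 b := by
      funext i
      apply der_ext' hZ
      intro j
      rw [sum_der, Finset.sum_eq_single j]
      · rw [hD0, if_pos rfl, mul_one]
      · intro b _ hb
        rw [hD0, if_neg hb, mul_zero]
      · intro hj
        exact absurd (Finset.mem_univ _) hj
    obtain ⟨δ, hδ⟩ : ∃ δ : K, δ = (Matrix.of fun i b => D i (Z b)).det := ⟨_, rfl⟩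
    have h2 : Om e x (hs f w t) C0 D = δ * Om e x (hs f w t) C0 D0 := by
      have h3 := om_pluri e x (hs f w t) C0 1 (Matrix.of fun i b => D i (Z b)) D0
      simp only [Matrix.of_apply, pow_one] at h3
      rw [← h1, ← hδ] at h3
      exact h3
    have h3 : ω l D = δ ^ M * ω l D0 := by
      have h4 := (hsec l).1 (Matrix.of fun i b => D i (Z b)) D0
      simp only [Matrix.of_apply] at h4
      rw [← h1, ← hδ] at h4
      exact h4
    have hδ0 : δ ≠ 0 := by
      intro h4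
      rw [h4, zero_mul] at h2
      exact hOm h2
    have hωD : ω l D ≠ 0 := by
      rw [h3]
      exact mul_ne_zero (pow_ne_zero _ hδ0) hne
    have h4 : ω l D0 * (Om e x (hs f w t) C0 D0 ^ M * R)⁻¹ = ω l D / (Om e x (hs f w t) C0 D ^ M * R) := by
      rw [h2, h3, mul_pow, mul_assoc, ← div_eq_mul_inv, mul_div_mul_left _ _ (pow_ne_zero _ hδ0)]
    have h5 : P.ord (ω l D0 * (Om e x (hs f w t) C0 D0 ^ M * R)⁻¹) =
        P.ord (ω l D) - M * P.ord (Om e x (hs f w t) C0 D) - q * (u0 ⬝ᵥ vec P x) +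
          q * ∑ j, nn j * P.ord (y j) := by
      rw [h4, P.ord_div hωD (mul_ne_zero (pow_ne_zero _ hOm) hR0),
        P.ord_mul (pow_ne_zero _ hOm) hR0, P.ord_pow, hRord]
      ring
    obtain ⟨s, hsT, hs0, hle⟩ := ((hsec l).2 P hdiv D hD).resolve_left hωD
    rw [Nat.cast_one, one_mul] at hle
    have hle' : ((P.ord s : ℤ) : ℝ) - ((M : ℤ) : ℝ) * β P ≤ ((P.ord (ω l D) : ℤ) : ℝ) := by
      push_cast
      exact hle
    have hsf : s ∈ T0 := by
      rw [hT0d]
      exact Finset.mem_filter.2 ⟨hsT, hs0⟩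
    rcases hcase with ⟨hv, ho⟩ | ⟨hvne, ho, homn, bs, hbsm, hbs1, hbsF⟩
    · have hMo : 0 ≤ -((M : ℤ) * P.ord (Om e x (hs f w t) C0 D)) := by
        have := mul_nonpos_of_nonneg_of_nonpos hM0 ho
        omega
      rw [h5, hv, dotProduct_zero, mul_zero, sub_zero]
      have hβ := hβ0 P hv
      by_cases hex : ∀ j, P.ord (y j) = 0
      · have hsum : ∑ j, nn j * P.ord (y j) = 0 :=
          Finset.sum_eq_zero fun j _ => by rw [hex j, mul_zero]
        rw [hsum, mul_zero, add_zero]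
        refine ⟨s, ?_, ?_⟩
        · rw [hT'd]
          exact Finset.mem_union_left _ (Finset.mem_union_left _ hsf)
        · rw [hsum, Int.cast_zero] at hβ
          have hc' : (0 : ℝ) < c := by exact_mod_cast hc
          have hβ' : β P ≤ 0 := by
            by_contra hcon
            have := mul_pos hc' (not_le.1 hcon)
            linarith
          have h6 : ((M : ℤ) : ℝ) * β P ≤ 0 :=
            mul_nonpos_of_nonneg_of_nonpos (by exact_mod_cast hM0) hβ'
          have h7 : ((P.ord s : ℤ) : ℝ) ≤ ((P.ord (ω l D) : ℤ) : ℝ) := by linarith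
          have h8 : P.ord s ≤ P.ord (ω l D) := by exact_mod_cast h7
          linarith
      · push Not at hex
        obtain ⟨j0, hj0⟩ := hex
        have hE1 : 1 ≤ ∑ j, |P.ord (y j)| := by
          have h6 := Finset.single_le_sum (f := fun j => |P.ord (y j)|)
            (fun j _ => abs_nonneg _) (Finset.mem_univ j0)
          have h7 : |P.ord (y j0)| ≤ ∑ j, |P.ord (y j)| := h6
          have h8 : 0 < |P.ord (y j0)| := abs_pos.2 hj0
          omega
        have h6 := t6_arith hc hMq hρ0 hρc hq0 hβ (hβ1 P) hle' hN1 hE1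
        obtain ⟨sg, hsg⟩ : ∃ sg : J' → Bool, sg = fun j => decide (P.ord (y j) ≤ 0) := ⟨_, rfl⟩
        have hsgj : ∀ j, (if sg j then N0 else -N0) * P.ord (y j) = -N0 * |P.ord (y j)| := by
          intro j
          rw [hsg]
          by_cases h7 : P.ord (y j) ≤ 0
          · rw [abs_of_nonpos h7]
            simp only [decide_eq_true_eq, if_pos h7]
            ring
          · rw [abs_of_pos (not_le.1 h7)]
            simp only [decide_eq_true_eq, if_neg h7]
        refine ⟨s * ∏ j, (y j) ^ (if sg j then N0 else -N0), ?_, ?_⟩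
        · rw [hT'd]
          exact Finset.mem_union_right _ (Finset.mem_image.2 ⟨(s, sg),
            Finset.mem_product.2 ⟨hsf, Finset.mem_univ _⟩, rfl⟩)
        · rw [P.ord_mul hs0 (Finset.prod_ne_zero_iff.2 fun j _ => zpow_ne_zero _ (hy j)),
            ord_prod_zpow P _ _ hy, Finset.sum_congr rfl fun j _ => hsgj j, ← Finset.mul_sum]
          have h8 : -N0 * ∑ j, |P.ord (y j)| = -(N0 * ∑ j, |P.ord (y j)|) := by ring
          rw [h8]
          linarith
    · have h6 := m_arith (E := 0) hc hMq hρ0 hρc hq0 ho homn (by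
        rw [add_zero]
        exact hβ2 P hvne) (hβ1 P) hle' (by omega : 1 ≤ -(bs ⬝ᵥ vec P x)) hbsF hK10 hN0d.ge
      rw [mul_zero, add_zero] at h6
      have h6' : P.ord s - N0 * (-(bs ⬝ᵥ vec P x)) ≤
          P.ord (ω l D0 * (Om e x (hs f w t) C0 D0 ^ M * R)⁻¹) := by
        rw [h5]
        exact_mod_cast h6
      refine ⟨s * mono x (N0 • bs), ?_, ?_⟩
      · rw [hT'd]
        exact Finset.mem_union_left _ (Finset.mem_union_right _ (Finset.mem_image.2 ⟨(s, bs),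
          Finset.mem_product.2 ⟨hsf, hbsm⟩, rfl⟩))
      · rw [P.ord_mul hs0 (mono_ne hx _), ord_mono P hx, smul_dotProduct, smul_eq_mul]
        have h9 : N0 * (-(bs ⬝ᵥ vec P x)) = -(N0 * (bs ⬝ᵥ vec P x)) := by ring
        rw [h9] at h6'
        linarith
  refine ⟨C0, h0, fun P hP D hD hOm => ?_⟩
  obtain ⟨Bd, hBd⟩ := ord_bdd (Q := fun φ => ∀ P : Place k K, ((∃ p, Irreducible p ∧ Adic Z p P) ∨
    Adic Z' (MvPolynomial.X 0 : MvPolynomial (Fin (m + 1)) k) P) →
      ∃ s ∈ T', P.ord s ≤ P.ord φ) (fun N φ hφ h => hC N φ hφ h) P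
  obtain ⟨o, ho⟩ : ∃ o : ℤ, o = P.ord (Om e x (hs f w t) C0 D) := ⟨_, rfl⟩
  obtain ⟨U, hU⟩ : ∃ U : ℤ, U = u0 ⬝ᵥ vec P x - ∑ j, nn j * P.ord (y j) := ⟨_, rfl⟩
  rw [← ho, ← hU]
  obtain ⟨X, hX⟩ : ∃ X : ℝ, X = (c : ℝ) * (o : ℝ) + (U : ℝ) + c * β P := ⟨_, rfl⟩
  rw [← hX]
  by_contra hneg
  push Not at hneg
  obtain ⟨E, hE0, hE⟩ : ∃ E : ℤ, 0 ≤ E ∧ ∀ s ∈ T, -E ≤ P.ord s := by
    refine ⟨∑ s ∈ T, |P.ord s|, Finset.sum_nonneg fun s _ => abs_nonneg _, fun s hs => ?_⟩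
    have h1 := Finset.single_le_sum (f := fun s => |P.ord s|) (fun i _ => abs_nonneg _) hs
    have h2 : |P.ord s| ≤ ∑ s ∈ T, |P.ord s| := h1
    have h3 := neg_abs_le (P.ord s)
    omega
  obtain ⟨G, hG⟩ : ∃ G : ℝ, G = c * (E + |(Bd : ℝ)|) + c * |(U : ℝ)| := ⟨_, rfl⟩
  obtain ⟨M, hM, ω, hω0, hω⟩ := hinf (⌈G / (-X)⌉₊ + 1)
  obtain ⟨q, ρ, φ, hMq, hρ0, hρc, hφ0, hφ, hφv⟩ := key M ω hω0 hω
  obtain ⟨hωD, hord⟩ := hφv P D hOm
  have h1 := hBd φ hφ0 hφ
  obtain ⟨s, hsT, hs0, hle⟩ := (hω.2 P hP D hD).resolve_left hωD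
  have h2 := hE s hsT
  have hcr : (0 : ℝ) < c := by exact_mod_cast hc
  have h3 : (P.ord φ : ℝ) = P.ord (ω D) - M * o - q * U := by
    rw [hord, ho, hU]
    push_cast
    ring
  have h4 : (P.ord φ : ℝ) ≤ |(Bd : ℝ)| := le_trans (by exact_mod_cast h1) (le_abs_self _)
  have h5 : -(E : ℝ) ≤ P.ord s := by exact_mod_cast h2
  rw [Nat.cast_one, one_mul] at hle
  have h6 : (M : ℝ) = c * q + ρ := by exact_mod_cast hMq
  have h7 : -(E + |(Bd : ℝ)|) ≤ M * (β P + o) + q * U := by linarith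
  have h8 : -(c * (E + |(Bd : ℝ)|)) ≤ c * (M * (β P + o) + q * U) := by
    have := mul_le_mul_of_nonneg_left h7 hcr.le
    linarith
  have h9 : c * (M * (β P + o) + q * U) = M * X - ρ * U := by
    rw [hX]
    have h10 : (c : ℝ) * q = M - ρ := by linarith
    calc c * (M * (β P + o) + q * U) = M * (c * β P + c * o) + (c * q) * U := by ring
      _ = M * (c * β P + c * o) + (M - ρ) * U := by rw [h10]
      _ = M * (c * o + U + c * β P) - ρ * U := by ring
  have h10 : |(ρ : ℝ) * U| ≤ c * |(U : ℝ)| := by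
    rw [abs_mul]
    refine mul_le_mul_of_nonneg_right ?_ (abs_nonneg _)
    rw [abs_of_nonneg (by exact_mod_cast hρ0)]
    exact_mod_cast hρc.le
  have h11 : -G ≤ M * X := by
    have h12 := neg_abs_le ((ρ : ℝ) * U)
    rw [hG]
    linarith
  have h12 : G / (-X) < M := by
    have h13 := Nat.le_ceil (G / (-X))
    have h14 : ((⌈G / (-X)⌉₊ : ℕ) : ℝ) + 1 ≤ M := by exact_mod_cast hM
    linarith
  have h13 : 0 < -X := by linarith
  rw [div_lt_iff₀ h13] at h12
  linarith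

end

end Pool.Agent.K9h25.M
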