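import Pool.Agent.K9h25.M.Pn
import Pool.Agent.K9h25.Ng
import Pool.Agent.R885.U1
import Pool.Agent.R885.U2
import Pool.Agent.R885.V0
import Pool.Agent.R885.T6

/-!
Arbitrary hypersurfaces of tori, fibres of monomial maps on them, with arbitrary weights and
additional functions: numerical dimension at most zero.
-/

set_option autoImplicit false
set_option linter.overlappingInstances false
set_option linter.unusedSectionVars false

open FF Pool.Agent.R885 Pool.Agent.R885.N Pool.Agent.W603.LV Pool.Agent.W619.PQ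
  Pool.Agent.Y173.QA Pool.Agent.W619.TW Pool.Agent.TH165.ACC Pool.Agent.TH122.AB Pool.Agent.Y174

namespace Pool.Agent.K9h25.M

/-- the arithmetic at the places over the charts with nonconstant monomials -/
theorem m_arith {c q ρ M a F o U Hs w s0 N0 z K1 : ℤ} {β E : ℝ} (hc : 0 < c) (hM : M = c * q + ρ)
    (hρ0 : 0 ≤ ρ) (hρc : ρ < c) (hq : 0 ≤ q) (ho : c * o + U ≤ a - c) (hoF : o + F ≤ 0)
    (hβ : (c : ℝ) * β + E ≤ ((c - a + Hs : ℤ) : ℝ)) (hβ1 : β ≤ 1)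
    (hw : ((s0 : ℤ) : ℝ) - M * β ≤ (w : ℝ)) (hz : 1 ≤ z) (hF : |F| ≤ K1 * z)
    (hK : 0 ≤ K1) (hN : c * (1 + K1) ≤ N0) :
    ((s0 - N0 * z : ℤ) : ℝ) + q * E ≤ ((w - M * o - q * U + q * Hs : ℤ) : ℝ) := by
  have hq' : (0 : ℝ) ≤ q := by exact_mod_cast hq
  have hρ' : (0 : ℝ) ≤ ρ := by exact_mod_cast hρ0
  have hM' : (M : ℝ) = c * q + ρ := by exact_mod_cast hM
  have h2 : (q : ℝ) * (c * β + E) ≤ q * ((c - a + Hs : ℤ) : ℝ) := mul_le_mul_of_nonneg_left hβ hq'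
  have h3 : (ρ : ℝ) * β ≤ ρ * 1 := mul_le_mul_of_nonneg_left hβ1 hρ'
  have h4 : ((s0 : ℤ) : ℝ) + q * E - ρ ≤ (w : ℝ) + q * ((c - a + Hs : ℤ) : ℝ) := by
    rw [hM'] at hw
    nlinarith
  have h5 : q * (c * o + U) ≤ q * (a - c) := mul_le_mul_of_nonneg_left ho hq
  have h6 : ρ * o ≤ c * K1 * z := by
    have h7 : o ≤ |F| := by
      have := neg_abs_le F
      omega
    have h8 : ρ * o ≤ ρ * |F| := mul_le_mul_of_nonneg_left h7 hρ0
    have h9 : ρ * |F| ≤ c * |F| := mul_le_mul_of_nonneg_right hρc.le (abs_nonneg F)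
    have h10 : c * |F| ≤ c * (K1 * z) := mul_le_mul_of_nonneg_left hF hc.le
    have h11 : c * (K1 * z) = c * K1 * z := by ring
    linarith
  have h7 : ρ ≤ c * z := by nlinarith
  have h8 : c * z + c * K1 * z ≤ N0 * z := by
    have h9 := mul_le_mul_of_nonneg_right hN (by omega : (0 : ℤ) ≤ z)
    have h10 : c * (1 + K1) * z = c * z + c * K1 * z := by ring
    linarith
  have h9 : w + q * (c - a + Hs) - ρ * o ≤ w - M * o - q * U + q * Hs := by
    rw [hM]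
    have h10 : w + q * (c - a + Hs) - ρ * o = w - q * (a - c) + q * Hs - ρ * o := by ring
    have h11 : w - (c * q + ρ) * o - q * U + q * Hs = w - q * (c * o + U) + q * Hs - ρ * o := by
      ring
    rw [h10, h11]
    linarith
  have h10 : ((w + q * (c - a + Hs) - ρ * o : ℤ) : ℝ) ≤
      ((w - M * o - q * U + q * Hs : ℤ) : ℝ) := by exact_mod_cast h9
  have h11 : ((ρ + ρ * o : ℤ) : ℝ) ≤ ((N0 * z : ℤ) : ℝ) := by
    exact_mod_cast (by linarith : ρ + ρ * o ≤ N0 * z)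
  push_cast at h10 h11 h4 ⊢
  linarith

section

variable {k K : Type} [Field k] [CharZero k] [Field K] [Algebra k K] {r m d : ℕ} {x : Fin r → K}

/-- **Numerical dimension at most zero.** -/
theorem num_zeroM (htr : Algebra.trdeg k K = (m + 1 : ℕ)) (hx : ∀ i, x i ≠ 0)
    (hgen : IntermediateField.adjoin k (Set.range x) = ⊤)
    (e : (Unit ⊕ Fin d) ⊕ Fin (m + 1) ≃ Fin r) {f : (Fin r → ℤ) →₀ k}
    (hf0 : f ≠ 0) (hf : ev x f = 0) {w : Fin d → Fin r → ℤ} {t : Fin d → k}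
    (hwt : ∀ j, algebraMap k K (t j) = mono x (w j))
    (hli : LinearIndependent K (Sum.elim (fun _ : Unit => gr x f) fun j i => (w j i : K)))
    {J' : Type} [Fintype J'] {y : J' → K} (hy : ∀ j, y j ≠ 0)
    {S : Finset (Fin r → ℤ)} {u0 : Fin r → ℤ} {c : ℤ} {a' : (Fin r → ℤ) → ℤ} {nn : J' → ℤ}
    (hc : 0 < c)
    (hA2 : ∀ v w, v ≠ 0 → w ≠ 0 → v + w ≠ 0 → a' v + a' w - c ≤ a' (v + w))
    (hA3 : ∀ (g : ℤ) v, 0 < g → v ≠ 0 → a' (g • v) ≤ g * a' v)
    (hwS : ∀ j, ∀ s ∈ S, w j ⬝ᵥ s = 0) (hS : ∀ s ∈ S, s ≠ 0 ∧ u0 ⬝ᵥ s = a' s + c * mn s f)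
    (hpos : ∀ q : Fin r → ℚ, (∀ s ∈ S, 0 ≤ dq q s) → ∀ s ∈ S, dq q s = 0)
    (hsp : ∀ P : Place k K, InSpan S (vec P x))
    (hhom : ∀ (P : Place k K) (C : Fin m → Fin r → ℤ) (σ : Fin 2 → Fin r → ℤ),
      (∀ j, C j ⬝ᵥ vec P x = 0) →
      (AlgebraicIndependent k fun j => P.red (mono x (C j))) →
      (LinearIndependent ℚ fun (z : Fin d ⊕ Fin m) (i : Fin r) =>
        ((Sum.elim w C z i : ℤ) : ℚ)) →
      (LinearIndependent ℚ fun (i : Fin 2) (k : Fin r) => (σ i k : ℚ)) →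
      (∀ j i, w j ⬝ᵥ σ i = 0) → (∀ j i, C j ⬝ᵥ σ i = 0) →
      ∃ m ∈ f.support, ∃ m' ∈ f.support, m ⬝ᵥ vec P x = mn (vec P x) f ∧
        m' ⬝ᵥ vec P x = mn (vec P x) f ∧ ∃ i, m ⬝ᵥ σ i ≠ m' ⬝ᵥ σ i)
    {β : Place k K → ℝ} (hβ1 : ∀ P : Place k K, β P ≤ 1)
    (hβ0 : ∀ P : Place k K, vec P x = 0 →
      (c : ℝ) * β P ≤ ((∑ j, nn j * P.ord (y j) : ℤ) : ℝ))
    (hβ2 : ∀ P : Place k K, vec P x ≠ 0 →
      (c : ℝ) * β P ≤ ((c - a' (vec P x) + ∑ j, nn j * P.ord (y j) : ℤ) : ℝ)) :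
    PairNum k K (m + 1) β 0 := by
  classical
  intro T
  obtain ⟨c1, B, hc1, h0B, hsB, hB⟩ := exists_B S hpos
  have hcard : r = (1 + d) + (m + 1) := by
    rw [← Fintype.card_fin r, ← Fintype.card_congr e]
    simp only [Fintype.card_sum, Fintype.card_unit, Fintype.card_fin]
  have hGu := li_Gu (κ := k) hx hli
  obtain ⟨C0, hC0⟩ := complete_zero hGu (n := m + 1) (by
    simp only [Fintype.card_sum, Fintype.card_unit, Fintype.card_fin]
    omega)
  have h0 : dt e (fun l => gr x (hs f w t l)) C0 ≠ 0 := by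
    rw [gr_hs]
    exact dt_ne hC0
  have hfl : ∀ l, ev x (hs f w t l) = 0 := by
    rintro (l | j)
    · exact hf
    · change ev x (Finsupp.single (w j) 1 - Finsupp.single 0 (t j)) = 0
      rw [bin_ev, hwt, sub_self]
  have hgenB : IntermediateField.adjoin k (Set.range fun b : B => mono x (b : Fin r → ℤ)) = ⊤ := by
    rw [eq_top_iff, ← hgen, IntermediateField.adjoin_le_iff]
    rintro _ ⟨i, rfl⟩
    apply IntermediateField.subset_adjoin
    exact ⟨⟨Pi.single i 1, hsB i⟩, mono_single x i⟩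
  obtain ⟨v, hℓ, hbas, hord⟩ := noether (u := fun b : B => mono x (b : Fin r → ℤ))
    (fun b => mono_ne hx _) (b0 := ⟨0, h0B⟩) (mono_zero x) hgenB htr
  obtain ⟨ℓ, hℓd⟩ : ∃ ℓ : Fin (m + 2) → K, ℓ = fun l => ∑ b : B, v l b • mono x b := ⟨_, rfl⟩
  have hℓd' : ∀ l, ∑ b : B, v l b • mono x b = ℓ l := fun l => by rw [hℓd]
  obtain ⟨Z, hZd⟩ : ∃ Z : Fin (m + 1) → K, Z = fun j => ℓ ((0 : Fin (m + 2)).succAbove j) / ℓ 0 :=
    ⟨_, rfl⟩
  obtain ⟨Z', hZ'd⟩ : ∃ Z' : Fin (m + 1) → K,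
    Z' = fun j => ℓ ((1 : Fin (m + 2)).succAbove j) / ℓ 1 := ⟨_, rfl⟩
  have hℓ0 : ∀ l, ℓ l ≠ 0 := fun l => by rw [← hℓd']; exact hℓ l
  have hZ : IsTranscendenceBasis k Z := by
    have h1 := hbas 0
    simp only [hℓd'] at h1
    rw [hZd]
    exact h1
  have hZ0 : Z' 0 = (Z 0)⁻¹ := by
    rw [hZ'd, hZd]
    beta_reduce
    have h1 : (1 : Fin (m + 2)).succAbove 0 = 0 := by
      rw [Fin.succAbove_of_castSucc_lt _ _ (by simp [Fin.lt_def])]
      rfl
    have h2 : (0 : Fin (m + 2)).succAbove 0 = 1 := by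
      rw [Fin.succAbove_zero]
      rfl
    rw [h1, h2, inv_div]
  have hZs : ∀ j : Fin m, Z' j.succ = Z j.succ / Z 0 := by
    intro j
    rw [hZ'd, hZd]
    beta_reduce
    have h1 : (1 : Fin (m + 2)).succAbove j.succ = j.succ.succ := by
      rw [Fin.succAbove_of_le_castSucc _ _ (by simp [Fin.le_def])]
    have h2 : (0 : Fin (m + 2)).succAbove 0 = 1 := by
      rw [Fin.succAbove_zero]
      rfl
    have h3 : (0 : Fin (m + 2)).succAbove j.succ = j.succ.succ := by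
      rw [Fin.succAbove_zero]
    rw [h1, h2, h3]
    have := hℓ0 0
    have := hℓ0 1
    field_simp
  obtain ⟨D0, hD0'⟩ := Pool.Agent.W602.GT.exists_dual hZ
  have hD0 : ∀ i j, D0 i (Z j) = if i = j then 1 else 0 := by
    intro i j
    have h1 := congrFun (congrFun hD0' i) j
    rw [Matrix.of_apply, Matrix.one_apply] at h1
    exact h1
  have hOm0 := om_ne hx hgen hfl h0 hZ hD0
  -- the bound for the orders
  obtain ⟨K1, hK10, hK1⟩ : ∃ K1 : ℤ, 0 ≤ K1 ∧ ∀ s ∈ S, ∀ m ∈ f.support, |m ⬝ᵥ s| ≤ K1 := by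
    refine ⟨∑ s ∈ S, ∑ m ∈ f.support, |m ⬝ᵥ s|, Finset.sum_nonneg fun s _ =>
      Finset.sum_nonneg fun i _ => abs_nonneg _, fun s hs m' hm' => ?_⟩
    have h1 := Finset.single_le_sum (f := fun m' => |m' ⬝ᵥ s|)
      (fun i _ => abs_nonneg _) hm'
    have h2 := Finset.single_le_sum (f := fun s : Fin r → ℤ => ∑ m ∈ f.support, |m ⬝ᵥ s|)
      (fun s _ => Finset.sum_nonneg fun i _ => abs_nonneg _) hs
    exact h1.trans h2
  obtain ⟨N0, hN0d⟩ : ∃ N0 : ℤ, N0 = c * (1 + K1) := ⟨_, rfl⟩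
  have hN0 : 0 ≤ N0 := by rw [hN0d]; exact mul_nonneg hc.le (by omega)
  have hN1 : c ≤ N0 := by
    rw [hN0d]
    nlinarith
  -- the finite set
  obtain ⟨T0, hT0d⟩ : ∃ T0 : Finset K, T0 = T.filter fun s => s ≠ 0 := ⟨_, rfl⟩
  obtain ⟨T', hT'd⟩ : ∃ T' : Finset K, T' = T0 ∪
      ((T0 ×ˢ B).image fun p => p.1 * mono x (N0 • p.2)) ∪
      ((T0 ×ˢ (Finset.univ : Finset (J' → Bool))).image fun p =>
        p.1 * ∏ j, (y j) ^ (if p.2 j then N0 else -N0)) :=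
    ⟨_, rfl⟩
  have hT0 : ∀ s ∈ T0, s ≠ 0 := by
    intro s hs
    rw [hT0d] at hs
    exact (Finset.mem_filter.1 hs).2
  have hT'0 : ∀ s ∈ T', s ≠ 0 := by
    intro s hs
    rw [hT'd, Finset.mem_union, Finset.mem_union] at hs
    rcases hs with (hs | hs) | hs
    · exact hT0 s hs
    · obtain ⟨p, hp, rfl⟩ := Finset.mem_image.1 hs
      exact mul_ne_zero (hT0 _ (Finset.mem_product.1 hp).1) (mono_ne hx _)
    · obtain ⟨p, hp, rfl⟩ := Finset.mem_image.1 hs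
      exact mul_ne_zero (hT0 _ (Finset.mem_product.1 hp).1)
        (Finset.prod_ne_zero_iff.2 fun j _ => zpow_ne_zero _ (hy j))
  obtain ⟨C, hC⟩ := fd_bound hZ (hfin_of_gen hgen hZ) hZ0 hZs T' hT'0
  refine ⟨C, fun M N hM hind => ?_⟩
  obtain ⟨ω, hlin, hsec⟩ := hind
  rw [pow_zero, mul_one]
  obtain ⟨q, hqd⟩ : ∃ q : ℤ, q = (M : ℤ) / c := ⟨_, rfl⟩
  obtain ⟨ρ, hρd⟩ : ∃ ρ : ℤ, ρ = (M : ℤ) % c := ⟨_, rfl⟩
  have hMq : (M : ℤ) = c * q + ρ := by
    rw [hqd, hρd]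
    have := Int.emod_add_mul_ediv (M : ℤ) c
    linarith
  have hρ0 : 0 ≤ ρ := by
    rw [hρd]
    exact Int.emod_nonneg _ hc.ne'
  have hρc : ρ < c := by
    rw [hρd]
    exact Int.emod_lt_of_pos _ hc
  have hq0 : 0 ≤ q := by
    rw [hqd]
    exact Int.ediv_nonneg (Int.natCast_nonneg M) hc.le
  have hM0 : (0 : ℤ) ≤ M := Int.natCast_nonneg M
  obtain ⟨R, hRd⟩ : ∃ R : K, R = mono x (q • u0) * ∏ j, (y j) ^ (-(q * nn j)) := ⟨_, rfl⟩
  have hR0 : R ≠ 0 := by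
    rw [hRd]
    exact mul_ne_zero (mono_ne hx _) (Finset.prod_ne_zero_iff.2 fun j _ => zpow_ne_zero _ (hy j))
  have hRord : ∀ P : Place k K, P.ord R = q * (u0 ⬝ᵥ vec P x) -
      q * ∑ j, nn j * P.ord (y j) := by
    intro P
    rw [hRd, P.ord_mul (mono_ne hx _) (Finset.prod_ne_zero_iff.2 fun j _ =>
      zpow_ne_zero _ (hy j)), ord_mono P hx, ord_prod_zpow P _ _ hy, smul_dotProduct,
      smul_eq_mul, Finset.mul_sum, sub_eq_add_neg, ← Finset.sum_neg_distrib]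
    congr 1
    exact Finset.sum_congr rfl fun j _ => by ring
  have hc'0 : (Om e x (hs f w t) C0 D0 ^ M * R)⁻¹ ≠ 0 :=
    inv_ne_zero (mul_ne_zero (pow_ne_zero _ hOm0) hR0)
  have hlin' := lin_sec hZ hD0 hlin (fun l => (hsec l).1) hc'0
  refine hC N _ hlin' fun l P hP => ?_
  -- the frame at the place
  have hfr : IsDivisorial P (m + 1) ∧
      ∃ D : Fin (m + 1) → Derivation k K K, (∀ a, Pres P (D a)) ∧
        Om e x (hs f w t) C0 D ≠ 0 ∧
        ((vec P x = 0 ∧ P.ord (Om e x (hs f w t) C0 D) ≤ 0) ∨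
        (vec P x ≠ 0 ∧
          c * P.ord (Om e x (hs f w t) C0 D) + u0 ⬝ᵥ vec P x ≤ a' (vec P x) - c ∧
          P.ord (Om e x (hs f w t) C0 D) + mn (vec P x) f ≤ 0 ∧
          ∃ b ∈ B, b ⬝ᵥ vec P x ≤ -1 ∧ |mn (vec P x) f| ≤ K1 * (-(b ⬝ᵥ vec P x)))) := by
    rcases hP with ⟨p, hp, hP⟩ | hP
    · exact place_M htr hgen P hx e hf0 hf hwt hli hc hA2 hA3 hwS hS (hsp P) hc1
        h0B hB hℓ hbas (hord P) h0 0 hp (by
          simp only [hℓd']
          rw [hZd] at hP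
          exact hP) (hhom P) hK10 hK1
    · exact place_M htr hgen P hx e hf0 hf hwt hli hc hA2 hA3 hwS hS (hsp P) hc1
        h0B hB hℓ hbas (hord P) h0 1
        (MvPolynomial.X_prime (R := k) (i := (0 : Fin (m + 1)))).irreducible (by
          simp only [hℓd']
          rw [hZ'd] at hP
          exact hP) (hhom P) hK10 hK1
  obtain ⟨hdiv, D, hD, hOm, hcase⟩ := hfr
  have hne : ω l D0 ≠ 0 := by
    intro h1
    have h2 := hlin'.ne_zero l
    rw [h1, zero_mul] at h2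
    exact h2 rfl
  have h1 : D = fun i => ∑ b, D i (Z b) • D0 b := by
    funext i
    apply der_ext' hZ
    intro j
    rw [sum_der, Finset.sum_eq_single j]
    · rw [hD0, if_pos rfl, mul_one]
    · intro b _ hb
      rw [hD0, if_neg hb, mul_zero]
    · intro hj
      exact absurd (Finset.mem_univ _) hj
  obtain ⟨δ, hδ⟩ : ∃ δ : K, δ = (Matrix.of fun i b => D i (Z b)).det := ⟨_, rfl⟩
  have h2 : Om e x (hs f w t) C0 D = δ * Om e x (hs f w t) C0 D0 := by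
    have h3 := om_pluri e x (hs f w t) C0 1 (Matrix.of fun i b => D i (Z b)) D0
    simp only [Matrix.of_apply, pow_one] at h3
    rw [← h1, ← hδ] at h3
    exact h3
  have h3 : ω l D = δ ^ M * ω l D0 := by
    have h4 := (hsec l).1 (Matrix.of fun i b => D i (Z b)) D0
    simp only [Matrix.of_apply] at h4
    rw [← h1, ← hδ] at h4
    exact h4
  have hδ0 : δ ≠ 0 := by
    intro h4
    rw [h4, zero_mul] at h2
    exact hOm h2
  have hωD : ω l D ≠ 0 := by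
    rw [h3]
    exact mul_ne_zero (pow_ne_zero _ hδ0) hne
  have h4 : ω l D0 * (Om e x (hs f w t) C0 D0 ^ M * R)⁻¹ = ω l D / (Om e x (hs f w t) C0 D ^ M * R) := by
    rw [h2, h3, mul_pow, mul_assoc, ← div_eq_mul_inv, mul_div_mul_left _ _ (pow_ne_zero _ hδ0)]
  have h5 : P.ord (ω l D0 * (Om e x (hs f w t) C0 D0 ^ M * R)⁻¹) =
      P.ord (ω l D) - M * P.ord (Om e x (hs f w t) C0 D) - q * (u0 ⬝ᵥ vec P x) +
        q * ∑ j, nn j * P.ord (y j) := by
    rw [h4, P.ord_div hωD (mul_ne_zero (pow_ne_zero _ hOm) hR0),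
      P.ord_mul (pow_ne_zero _ hOm) hR0, P.ord_pow, hRord]
    ring
  obtain ⟨s, hsT, hs0, hle⟩ := ((hsec l).2 P hdiv D hD).resolve_left hωD
  rw [Nat.cast_one, one_mul] at hle
  have hle' : ((P.ord s : ℤ) : ℝ) - ((M : ℤ) : ℝ) * β P ≤ ((P.ord (ω l D) : ℤ) : ℝ) := by
    push_cast
    exact hle
  have hsf : s ∈ T0 := by
    rw [hT0d]
    exact Finset.mem_filter.2 ⟨hsT, hs0⟩
  rcases hcase with ⟨hv, ho⟩ | ⟨hvne, ho, homn, bs, hbsm, hbs1, hbsF⟩
  · have hMo : 0 ≤ -((M : ℤ) * P.ord (Om e x (hs f w t) C0 D)) := by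
      have := mul_nonpos_of_nonneg_of_nonpos hM0 ho
      omega
    rw [h5, hv, dotProduct_zero, mul_zero, sub_zero]
    have hβ := hβ0 P hv
    by_cases hex : ∀ j, P.ord (y j) = 0
    · have hsum : ∑ j, nn j * P.ord (y j) = 0 :=
        Finset.sum_eq_zero fun j _ => by rw [hex j, mul_zero]
      rw [hsum, mul_zero, add_zero]
      refine ⟨s, ?_, ?_⟩
      · rw [hT'd]
        exact Finset.mem_union_left _ (Finset.mem_union_left _ hsf)
      · rw [hsum, Int.cast_zero] at hβ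
        have hc' : (0 : ℝ) < c := by exact_mod_cast hc
        have hβ' : β P ≤ 0 := by
          by_contra hcon
          have := mul_pos hc' (not_le.1 hcon)
          linarith
        have h6 : ((M : ℤ) : ℝ) * β P ≤ 0 :=
          mul_nonpos_of_nonneg_of_nonpos (by exact_mod_cast hM0) hβ'
        have h7 : ((P.ord s : ℤ) : ℝ) ≤ ((P.ord (ω l D) : ℤ) : ℝ) := by linarith
        have h8 : P.ord s ≤ P.ord (ω l D) := by exact_mod_cast h7
        linarith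
    · push Not at hex
      obtain ⟨j0, hj0⟩ := hex
      have hE1 : 1 ≤ ∑ j, |P.ord (y j)| := by
        have h6 := Finset.single_le_sum (f := fun j => |P.ord (y j)|)
          (fun j _ => abs_nonneg _) (Finset.mem_univ j0)
        have h7 : |P.ord (y j0)| ≤ ∑ j, |P.ord (y j)| := h6
        have h8 : 0 < |P.ord (y j0)| := abs_pos.2 hj0
        omega
      have h6 := t6_arith hc hMq hρ0 hρc hq0 hβ (hβ1 P) hle' hN1 hE1
      obtain ⟨sg, hsg⟩ : ∃ sg : J' → Bool, sg = fun j => decide (P.ord (y j) ≤ 0) := ⟨_, rfl⟩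
      have hsgj : ∀ j, (if sg j then N0 else -N0) * P.ord (y j) = -N0 * |P.ord (y j)| := by
        intro j
        rw [hsg]
        by_cases h7 : P.ord (y j) ≤ 0
        · rw [abs_of_nonpos h7]
          simp only [decide_eq_true_eq, if_pos h7]
          ring
        · rw [abs_of_pos (not_le.1 h7)]
          simp only [decide_eq_true_eq, if_neg h7]
      refine ⟨s * ∏ j, (y j) ^ (if sg j then N0 else -N0), ?_, ?_⟩
      · rw [hT'd]
        exact Finset.mem_union_right _ (Finset.mem_image.2 ⟨(s, sg),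
          Finset.mem_product.2 ⟨hsf, Finset.mem_univ _⟩, rfl⟩)
      · rw [P.ord_mul hs0 (Finset.prod_ne_zero_iff.2 fun j _ => zpow_ne_zero _ (hy j)),
          ord_prod_zpow P _ _ hy, Finset.sum_congr rfl fun j _ => hsgj j, ← Finset.mul_sum]
        have h8 : -N0 * ∑ j, |P.ord (y j)| = -(N0 * ∑ j, |P.ord (y j)|) := by ring
        rw [h8]
        linarith
  · have h6 := m_arith (E := 0) hc hMq hρ0 hρc hq0 ho homn (by
      rw [add_zero]
      exact hβ2 P hvne) (hβ1 P) hle' (by omega : 1 ≤ -(bs ⬝ᵥ vec P x)) hbsF hK10 hN0d.ge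
    rw [mul_zero, add_zero] at h6
    have h6' : P.ord s - N0 * (-(bs ⬝ᵥ vec P x)) ≤
        P.ord (ω l D0 * (Om e x (hs f w t) C0 D0 ^ M * R)⁻¹) := by
      rw [h5]
      exact_mod_cast h6
    refine ⟨s * mono x (N0 • bs), ?_, ?_⟩
    · rw [hT'd]
      exact Finset.mem_union_left _ (Finset.mem_union_right _ (Finset.mem_image.2 ⟨(s, bs),
        Finset.mem_product.2 ⟨hsf, hbsm⟩, rfl⟩))
    · rw [P.ord_mul hs0 (mono_ne hx _), ord_mono P hx, smul_dotProduct, smul_eq_mul]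
      have h9 : N0 * (-(bs ⬝ᵥ vec P x)) = -(N0 * (bs ⬝ᵥ vec P x)) := by ring
      rw [h9] at h6'
      linarith

end

end Pool.Agent.K9h25.M
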