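import Pool.Agent.K9h25.Ch
import Pool.Agent.K9h25.M.Ar
import Pool.Agent.R885.NG4

/-!
The residue form at the places over the charts, for an arbitrary hypersurface and arbitrary weights.
-/

set_option autoImplicit false
set_option linter.overlappingInstances false
set_option linter.unusedSectionVars false

open FF Pool.Agent.R885 Pool.Agent.W603.LV Pool.Agent.W619.PQ Pool.Agent.Y173.QA
  Pool.Agent.W619.TW Pool.Agent.TH165.ACC

namespace Pool.Agent.K9h25.M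

section

variable {k K : Type} [Field k] [CharZero k] [Field K] [Algebra k K] {r m d : ℕ} {x : Fin r → K}

/-- **The residue form at the places over the charts.** -/
theorem place_M (htr : Algebra.trdeg k K = (m + 1 : ℕ))
    (hgen : IntermediateField.adjoin k (Set.range x) = ⊤)
    (P : Place k K) (hx : ∀ i, x i ≠ 0)
    (e : (Unit ⊕ Fin d) ⊕ Fin (m + 1) ≃ Fin r) {f : (Fin r → ℤ) →₀ k}
    (hf0 : f ≠ 0) (hf : ev x f = 0) {w : Fin d → Fin r → ℤ} {t : Fin d → k}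
    (hwt : ∀ j, algebraMap k K (t j) = mono x (w j))
    (hli : LinearIndependent K (Sum.elim (fun _ : Unit => gr x f) fun j i => (w j i : K)))
    {S : Finset (Fin r → ℤ)} {u0 : Fin r → ℤ} {c : ℤ} {a : (Fin r → ℤ) → ℤ} (hc : 0 < c)
    (hA2 : ∀ v w, v ≠ 0 → w ≠ 0 → v + w ≠ 0 → a v + a w - c ≤ a (v + w))
    (hA3 : ∀ (g : ℤ) v, 0 < g → v ≠ 0 → a (g • v) ≤ g * a v)
    (hwS : ∀ j, ∀ s ∈ S, w j ⬝ᵥ s = 0) (hS : ∀ s ∈ S, s ≠ 0 ∧ u0 ⬝ᵥ s = a s + c * mn s f)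
    (hsp : InSpan S (vec P x)) {c1 : ℤ} (hc1 : 0 < c1) {B : Finset (Fin r → ℤ)} (h0B : (0 : Fin r → ℤ) ∈ B)
    (hB : ∀ v : Fin r → ℤ, (∀ q : Fin r → ℚ, (∀ s ∈ S, dq q s = 0) → dq q v = 0) →
        ∃ (j : ℕ) (σ : Fin j → Fin r → ℤ) (α : Fin j → ℚ), (∀ i, σ i ∈ S ∧ 0 < α i) ∧
          (∀ k, ∑ i, α i * (σ i k : ℚ) = v k) ∧
          (LinearIndependent ℚ fun (i : Fin j) (k : Fin r) => (σ i k : ℚ)) ∧
          ((∑ i, σ i) ∈ S → j ≤ 1) ∧
          ∀ b ∈ B, (∀ b' ∈ B, b ⬝ᵥ v ≤ b' ⬝ᵥ v) → ∀ i, b ⬝ᵥ σ i = -c1)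
    {v : Fin (m + 2) → B → k} (hℓ : ∀ l, ∑ b : B, v l b • mono x b ≠ 0)
    (hbas : ∀ l0 : Fin (m + 2), IsTranscendenceBasis k fun j : Fin (m + 1) =>
        (∑ b : B, v (l0.succAbove j) b • mono x b) / ∑ b : B, v l0 b • mono x b)
    (hord : ∀ b : B, ∃ l, P.ord (∑ b : B, v l b • mono x b) ≤ P.ord (mono x b))
    {C0 : Fin (m + 1) → Fin r → ℤ} (h0 : dt e (fun l => gr x (hs f w t l)) C0 ≠ 0)
    (l0 : Fin (m + 2)) {p : MvPolynomial (Fin (m + 1)) k} (hp : Irreducible p)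
    (hP : Adic (fun j : Fin (m + 1) =>
        (∑ b : B, v (l0.succAbove j) b • mono x b) / ∑ b : B, v l0 b • mono x b) p P)
    (hhom : ∀ (C : Fin m → Fin r → ℤ) (σ : Fin 2 → Fin r → ℤ), (∀ j, C j ⬝ᵥ vec P x = 0) →
      (AlgebraicIndependent k fun j => P.red (mono x (C j))) →
      (LinearIndependent ℚ fun (z : Fin d ⊕ Fin m) (i : Fin r) =>
        ((Sum.elim w C z i : ℤ) : ℚ)) →
      (LinearIndependent ℚ fun (i : Fin 2) (k : Fin r) => (σ i k : ℚ)) →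
      (∀ j i, w j ⬝ᵥ σ i = 0) → (∀ j i, C j ⬝ᵥ σ i = 0) →
      ∃ m ∈ f.support, ∃ m' ∈ f.support, m ⬝ᵥ vec P x = mn (vec P x) f ∧
        m' ⬝ᵥ vec P x = mn (vec P x) f ∧ ∃ i, m ⬝ᵥ σ i ≠ m' ⬝ᵥ σ i)
    {K1 : ℤ} (hK10 : 0 ≤ K1) (hK1 : ∀ s ∈ S, ∀ m ∈ f.support, |m ⬝ᵥ s| ≤ K1) :
    IsDivisorial P (m + 1) ∧
    ∃ D : Fin (m + 1) → Derivation k K K, (∀ a, Pres P (D a)) ∧ Om e x (hs f w t) C0 D ≠ 0 ∧
      ((vec P x = 0 ∧ P.ord (Om e x (hs f w t) C0 D) ≤ 0) ∨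
      (vec P x ≠ 0 ∧
        c * P.ord (Om e x (hs f w t) C0 D) + u0 ⬝ᵥ vec P x ≤ a (vec P x) - c ∧
        P.ord (Om e x (hs f w t) C0 D) + mn (vec P x) f ≤ 0 ∧
        ∃ b ∈ B, b ⬝ᵥ vec P x ≤ -1 ∧ |mn (vec P x) f| ≤ K1 * (-(b ⬝ᵥ vec P x)))) := by
  classical
  have hK0 : CharZero K := charZero_of_injective_algebraMap (algebraMap k K).injective
  have hfin : ∀ y : Fin (m + 1) → K, IsTranscendenceBasis k y →
      FiniteDimensional (IntermediateField.adjoin k (Set.range y)) K :=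
    fun y hy => hfin_of_gen hgen hy
  obtain ⟨b, hy⟩ := adic_res (hbas l0).1 hp hP
  refine ⟨⟨_, hy⟩, ?_⟩
  obtain ⟨bs, -, hbs⟩ := Finset.exists_min_image (Finset.univ : Finset B)
    (fun b => (b : Fin r → ℤ) ⬝ᵥ vec P x) ⟨⟨0, h0B⟩, Finset.mem_univ _⟩
  have hbs' : ∀ b : B, (bs : Fin r → ℤ) ⬝ᵥ vec P x ≤ (b : Fin r → ℤ) ⬝ᵥ vec P x := fun b =>
    hbs b (Finset.mem_univ _)
  obtain ⟨ℓ, hℓd⟩ : ∃ ℓ : Fin (m + 2) → K, ℓ = fun l => ∑ b : B, v l b • mono x b := ⟨_, rfl⟩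
  have hℓd' : ∀ l, ∑ b : B, v l b • mono x b = ℓ l := fun l => by rw [hℓd]
  simp only [hℓd'] at hℓ hbas hord hP hy
  have hZ0 : ∀ j : Fin (m + 1), 0 ≤ P.ord (ℓ (l0.succAbove j) / ℓ l0) := by
    intro j
    have h1 := (hP (MvPolynomial.X j) (MvPolynomial.X_ne_zero j)).1
    rwa [MvPolynomial.aeval_X] at h1
  have hmin : ∀ l, P.ord (ℓ l0) ≤ P.ord (ℓ l) := by
    intro l
    by_cases hl : l = l0
    · rw [hl]
    · obtain ⟨j, rfl⟩ := Fin.exists_succAbove_eq hl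
      have h1 := hZ0 j
      rw [P.ord_div (hℓ _) (hℓ _)] at h1
      omega
  have hordℓ : P.ord (ℓ l0) = (bs : Fin r → ℤ) ⬝ᵥ vec P x := by
    apply le_antisymm
    · obtain ⟨l, hl⟩ := hord bs
      rw [ord_mono P hx] at hl
      exact (hmin l).trans hl
    · have h1 : Ge P ((bs : Fin r → ℤ) ⬝ᵥ vec P x) (ℓ l0) := by
        rw [← hℓd']
        refine Ge.sum _ _ fun b _ => ?_
        rw [Algebra.smul_def]
        have h2 : Ge P ((bs : Fin r → ℤ) ⬝ᵥ vec P x) (mono x (b : Fin r → ℤ)) := Or.inr (by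
          rw [ord_mono P hx]
          exact hbs' b)
        have h3 := (Ge.const (P := P) (v l0 b)).mul h2
        rwa [zero_add] at h3
      exact h1.resolve_left (hℓ _)
  -- the forms divided by the monomial
  have hz0 : mono x (bs : Fin r → ℤ) ≠ 0 := mono_ne hx _
  have ht : ∀ l, ∑ b : B, v l b • mono x ((b : Fin r → ℤ) - bs) = ℓ l / mono x (bs : Fin r → ℤ) := by
    intro l
    rw [← hℓd', Finset.sum_div]
    refine Finset.sum_congr rfl fun b _ => ?_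
    rw [mono_sub hx, smul_div_assoc]
  have hne : ℓ l0 / mono x (bs : Fin r → ℤ) ≠ 0 := div_ne_zero (hℓ _) hz0
  have ho : P.ord (ℓ l0 / mono x (bs : Fin r → ℤ)) = 0 := by
    rw [P.ord_div (hℓ _) hz0, ord_mono P hx, hordℓ, sub_self]
  have hmul : ∀ j : Fin m, ℓ (l0.succAbove (b.succAbove j)) / ℓ l0 *
      (ℓ l0 / mono x (bs : Fin r → ℤ)) =
      ℓ (l0.succAbove (b.succAbove j)) / mono x (bs : Fin r → ℤ) := by
    intro j
    have := hℓ l0
    field_simp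
  have hyl : ∀ j : Fin m, ℓ (l0.succAbove (b.succAbove j)) / ℓ l0 *
      (∑ b : B, v l0 b • mono x ((b : Fin r → ℤ) - bs)) =
      ∑ b_1 : B, v (l0.succAbove (b.succAbove j)) b_1 • mono x ((b_1 : Fin r → ℤ) - bs) :=
    fun j => by rw [ht, ht]; exact hmul j
  have hl0 : (∑ b : B, v l0 b • mono x ((b : Fin r → ℤ) - bs)) ≠ 0 := by rw [ht]; exact hne
  have hl0' : P.ord (∑ b : B, v l0 b • mono x ((b : Fin r → ℤ) - bs)) = 0 := by
    rw [ht]
    exact ho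
  obtain ⟨β, hβ, hβi⟩ := exists_C P hx hbs' hy (a := fun j => v (l0.succAbove (b.succAbove j)))
    (a0 := v l0) hl0 hl0' hyl
  obtain ⟨C, hCd⟩ : ∃ C : Fin m → Fin r → ℤ, C = fun j => (β j : Fin r → ℤ) - bs := ⟨_, rfl⟩
  have hCv : ∀ j, C j ⬝ᵥ vec P x = 0 := by
    intro j
    rw [hCd]
    beta_reduce
    rw [sub_dotProduct, hβ, sub_self]
  have hCi : AlgebraicIndependent k fun j => P.red (mono x (C j)) := by
    rw [hCd]
    exact hβi
  have hyC := unit_of_ind P (z := fun j => mono x (C j)) (fun j => Or.inr (by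
    rw [ord_mono P hx, hCv])) hCi
  obtain ⟨hliwC, D, hD, hOm, hOm0, hOm1⟩ := om_upper htr hfin P hx hgen (e := e) hf0 hf hwt hli
    hCv hyC h0
  obtain ⟨jj, σ, α, hσ, hsum, hlis, -, hface⟩ := hB (vec P x) (inSpan_dq hsp)
  have hCσ : ∀ j i, C j ⬝ᵥ σ i = 0 := by
    intro j i
    have h1 := hface (β j) (β j).2 (fun b' hb' => by
      rw [hβ]
      exact hbs' ⟨b', hb'⟩) i
    have h2 := hface bs bs.2 (fun b' hb' => hbs' ⟨b', hb'⟩) i
    rw [hCd]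
    beta_reduce
    rw [sub_dotProduct, h1, h2, sub_self]
  have hwσ : ∀ j i, w j ⬝ᵥ σ i = 0 := fun j i => hwS j _ (hσ i).1
  have hcard : r = (1 + d) + (m + 1) := by
    rw [← Fintype.card_fin r, ← Fintype.card_congr e]
    simp only [Fintype.card_sum, Fintype.card_unit, Fintype.card_fin]
  have hjj : jj ≤ 2 := by
    have h1 := rank_le hliwC (li_field (F := K) hlis) (by
      rintro (j | j) i
      · change ∑ l, (w j l : K) * (σ i l : K) = 0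
        rw [dot_intCast, hwσ, Int.cast_zero]
      · change ∑ l, (C j l : K) * (σ i l : K) = 0
        rw [dot_intCast, hCσ, Int.cast_zero])
    simp only [Fintype.card_sum, Fintype.card_fin] at h1
    omega
  refine ⟨D, hD, hOm, ?_⟩
  by_cases hv : vec P x = 0
  · left
    exact ⟨hv, hOm0 hv⟩
  right
  obtain ⟨g, s', c', hg, hgs, hc'⟩ := exists_prim hv
  obtain ⟨h1, h2⟩ := total_arith (fun i => (hσ i).2) hf0 hsum hjj hv
    (fun i => (hS _ (hσ i).1).1) (by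
      rintro rfl
      exact hhom C σ hCv hCi (li_down (F := K) hliwC) hlis hwσ hCσ) hc hA2 hA3
    (fun i => (hS _ (hσ i).1).2) hg hgs hc' (hOm1 g s' c' hg hgs hc')
  refine ⟨hv, h1, h2, bs, bs.2, ?_⟩
  have hbv : (((bs : Fin r → ℤ) ⬝ᵥ vec P x : ℤ) : ℚ) = -(c1 * ∑ i, α i) := by
    rw [dot_comb hsum, Finset.mul_sum, ← Finset.sum_neg_distrib]
    refine Finset.sum_congr rfl fun i _ => ?_
    rw [hface bs bs.2 (fun b' hb' => hbs' ⟨b', hb'⟩) i]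
    push_cast
    ring
  have hc1q : (1 : ℚ) ≤ c1 := by exact_mod_cast (by omega : 1 ≤ c1)
  have hαs : 0 < ∑ i, α i := by
    refine Finset.sum_pos (fun i _ => (hσ i).2) ?_
    by_contra hcon
    rw [Finset.not_nonempty_iff_eq_empty] at hcon
    apply hv
    funext i
    have h3 := hsum i
    rw [hcon, Finset.sum_empty] at h3
    rw [Pi.zero_apply]
    exact_mod_cast h3.symm
  constructor
  · have h3 : (((bs : Fin r → ℤ) ⬝ᵥ vec P x : ℤ) : ℚ) < 0 := by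
      rw [hbv]
      have : 0 < (c1 : ℚ) * ∑ i, α i := mul_pos (by linarith) hαs
      linarith
    have h4 : (bs : Fin r → ℤ) ⬝ᵥ vec P x < 0 := by exact_mod_cast h3
    omega
  · obtain ⟨m0, hm0, hm0'⟩ := exists_mn hf0 (vec P x)
    have h3 := comb_bound (fun i => (hσ i).2) hsum (w := m0) (V0 := K1) (by
      intro j
      exact_mod_cast hK1 _ (hσ j).1 m0 hm0)
    rw [hm0'] at h3
    have hK0q : (0 : ℚ) ≤ K1 := by exact_mod_cast hK10
    have h4 : (∑ i, α i) ≤ c1 * ∑ i, α i := by nlinarith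
    have h5 := mul_le_mul_of_nonneg_left h4 hK0q
    have h6 : ((|mn (vec P x) f| : ℤ) : ℚ) ≤
        ((K1 * (-((bs : Fin r → ℤ) ⬝ᵥ vec P x)) : ℤ) : ℚ) := by
      push_cast
      have h7 : (-(((bs : Fin r → ℤ) ⬝ᵥ vec P x : ℤ) : ℚ)) = c1 * ∑ i, α i := by
        rw [hbv, neg_neg]
      rw [h7]
      linarith
    exact_mod_cast h6

end

end Pool.Agent.K9h25.M
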