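import Pool.Agent.K9h25.M.Sys
import Pool.Agent.R885.V2
import Pool.Agent.R885.V9
import Pool.Agent.R885.U9
import Pool.Agent.R885.T13

/-!
Systems with one equation: the step of the induction.
-/

set_option autoImplicit false
set_option linter.overlappingInstances false
set_option linter.unusedSectionVars false

open FF IntermediateField Pool.Agent.R885 Pool.Agent.R885.N Pool.Agent.W603.LV Pool.Agent.W619.PQ
  Pool.Agent.W619.PL Pool.Agent.Y173.QA Pool.Agent.W619.TW Pool.Agent.TH165.ACC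
  Pool.Agent.TH122.AB Pool.Agent.W619.Y Pool.Agent.W824.PG Pool.Agent.Y174

namespace Pool.Agent.K9h25.M

/-- **The step of the induction.** -/
theorem MSys.stepM {k K : Type} [Field k] [CharZero k] [Field K] [Algebra k K] {n : ℕ}
    {β : Place k K → ℝ} {r : ℕ} {J' : Type} [Fintype J'] {x : Fin r → K}
    {f₀ : (Fin r → ℤ) →₀ k} {y : J' → K} {cw : J' → ℚ} {A Ψ : (Fin r → ℤ) → ℚ}
    [IsAlgClosed k] (hn : 1 ≤ n) (htr : Algebra.trdeg k K = (n : ℕ))
    (hB : MSys n β x f₀ y cw A Ψ) :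
    PosB k K n β ∨ NegB k K n β ∨ ∃ (m : ℕ) (s : Fin (m + 1) → Fin r → ℤ),
      1 ≤ m ∧ Exc x (fun _ : Fin 1 => f₀) s ∧ SubD (fun _ : Fin 1 => f₀) A Ψ s := by
  classical
  have hr := hB.hr
  have hx := hB.hx
  have hgen := hB.hgen
  obtain ⟨f, hfd⟩ : ∃ f : Fin 1 → (Fin r → ℤ) →₀ k, f = fun _ => f₀ := ⟨_, rfl⟩
  rw [← hfd]
  have hf : ∀ l, ev x (f l) = 0 := fun l => by rw [hfd]; exact hB.hf
  have hf0 : ∀ l, f l ≠ 0 := fun l => by rw [hfd]; exact hB.hf0
  have hli : LinearIndependent K fun l => gr x (f l) := by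
    rw [hfd]
    exact linearIndependent_unique_iff.2 hB.hgr
  have hK0 : CharZero K := charZero_of_injective_algebraMap (algebraMap k K).injective
  obtain ⟨ε, hε0, hF, hmax⟩ := exists_epsV hf0 hB.A0 hB.A1 hB.AD hB.P0
  have htrE : ∀ E : IntermediateField k K, ∃ d : ℕ, d ≤ n ∧ Algebra.trdeg k E = (d : ℕ) := by
    intro E
    have h1 : Algebra.trdeg k E ≤ n := by
      rw [← htr]
      exact trdeg_le_of_injective E.val E.val.injective
    obtain ⟨d, hd⟩ := Cardinal.lt_aleph0.1 (h1.trans_lt Cardinal.natCast_lt_aleph0)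
    refine ⟨d, ?_, hd⟩
    rw [hd] at h1
    exact_mod_cast h1
  rcases hε0.lt_or_eq with hε | hε
  swap
  · left
    have h1 : (fun v => Ψ v - ε * n1 v) = Ψ := by
      funext v
      rw [← hε, zero_mul, sub_zero]
    rw [h1, hfd] at hF
    obtain ⟨d, hdn, hd⟩ := htrE (IntermediateField.adjoin k
      {z : K | ∃ w ∈ dirsG A Ψ (fun _ : Fin 1 => f₀), z = mono x w})
    obtain ⟨h2, h3⟩ := hB.pos_val hn htr hF hd
    exact ⟨d, hdn, h2, h3⟩
  right
  obtain ⟨d, hdn, hd⟩ := htrE (IntermediateField.adjoin k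
    {z : K | ∃ w ∈ dirsG A (fun v => Ψ v - ε * n1 v) f, z = mono x w})
  rcases hdn.lt_or_eq with hdlt | hdeq
  · left
    rw [hfd] at hF hd
    exact hB.neg htr hε hF hdlt hd
  right
  rw [hdeq] at hd
  -- the tight vectors
  obtain ⟨u0, c, a', nn, S, hc, ha, -, hF', hS, -, hpos, hdirs, hspan⟩ :=
    exists_tightV (Ψ := fun v => Ψ v - ε * n1 v) hf0 hB.A0 hB.A1 hB.AD (hB.P0.sub_n1 hε0)
      (n1_AP hB.AP hε0) cw hF
  beta_reduce at ha
  have hcq : (0 : ℚ) < c := by exact_mod_cast hc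
  have hPhq : ∀ v : Fin r → ℤ, ((a' v + c * ∑ l, mn v (f l) : ℤ) : ℚ) =
      c * (A v + (Ψ v - ε * n1 v) + ∑ l, (mn v (f l) : ℚ)) := by
    intro v
    push_cast
    rw [ha]
    ring
  have hFu : ∀ v, v ≠ 0 → A v + (Ψ v - ε * n1 v) + ∑ l, (mn v (f l) : ℚ) ≤
      dq (fun i => (u0 i : ℚ) / c) v := by
    intro v hv
    have h1 : ((a' v + c * ∑ l, mn v (f l) : ℤ) : ℚ) ≤ ((u0 ⬝ᵥ v : ℤ) : ℚ) := by
      exact_mod_cast hF' v hv
    rw [hPhq] at h1
    rw [u9_dq, le_div_iff₀ hcq]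
    linarith
  have hSne : S.Nonempty := by
    by_contra hcon
    rw [Finset.not_nonempty_iff_eq_empty] at hcon
    obtain ⟨v, hv, hvt⟩ := hmax hε _ hFu
    rw [u9_dq, div_eq_iff hcq.ne'] at hvt
    have h1 : ((u0 ⬝ᵥ v : ℤ) : ℚ) = ((a' v + c * ∑ l, mn v (f l) : ℤ) : ℚ) := by
      rw [hPhq, hvt]
      ring
    have h2 : u0 ⬝ᵥ v = a' v + c * ∑ l, mn v (f l) := by exact_mod_cast h1
    have h3 := hspan v hv h2 v fun s hs => by
      rw [hcon] at hs
      exact absurd hs (Finset.notMem_empty _)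
    exact hv (dotProduct_self_eq_zero.1 h3)
  obtain ⟨m, s, c', hm, hsS, hrel, huniq⟩ := exists_circuit (fun s hs => (hS s hs).1) hSne hpos
  have hlis := circ_li (fun i => (hsS i).2) huniq
  -- the monomials
  obtain ⟨Y, hYG, hYind, -⟩ := exists_mono_basis hd
  choose w hw hwY using hYG
  have hYw : Y = fun j => mono x (w j) := funext hwY
  rw [hYw] at hYind
  have hws : ∀ j i, w j ⬝ᵥ s i = 0 := fun j i => (hdirs (w j)).1 (hw j) (s i) (hsS i).1
  have heta : ∀ (N : ℕ) (s' : Fin N → Fin r → ℤ) (c : Fin N → K), (∀ j i, w j ⬝ᵥ s' i = 0) →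
      (∀ l, ∑ j, gr x (f l) j * (∑ i, c i * (s' i j : K)) = 0) →
      (fun j => ∑ i, c i * (s' i j : K)) = 0 := by
    intro N s' c hws' h1
    refine eta_zero htr hx hgen (J := Fin 1) (by rw [Fintype.card_fin, hr, add_comm]) hf hli hYind
      h1 fun j => ?_
    have h2 : ∑ i, (w j i : K) * ∑ i', c i' * (s' i' i : K) =
        ∑ i', c i' * ((w j ⬝ᵥ s' i' : ℤ) : K) := by
      simp only [Finset.mul_sum]
      rw [Finset.sum_comm]
      refine Finset.sum_congr rfl fun i' _ => ?_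
      rw [← dot_intCast, Finset.mul_sum]
      exact Finset.sum_congr rfl fun i _ => by ring
    rw [h2]
    exact Finset.sum_eq_zero fun i' _ => by rw [hws', Int.cast_zero, mul_zero]
  have hcardf := card_JC hf hlis fun c hc => heta m (fun i => s i.succ) c
    (fun j i => hws j i.succ) hc
  have hsu : ∀ i, dq (fun i => (u0 i : ℚ) / c) (s i) =
      A (s i) + (Ψ (s i) - ε * n1 (s i)) + ∑ l, (mn (s i) (f l) : ℚ) := by
    intro i
    have h1 : ((u0 ⬝ᵥ s i : ℤ) : ℚ) = ((a' (s i) + c * ∑ l, mn (s i) (f l) : ℤ) : ℚ) := by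
      exact_mod_cast (hS _ (hsS i).1).2
    rw [hPhq] at h1
    rw [u9_dq, div_eq_iff hcq.ne', h1]
    ring
  obtain ⟨h1, h2, h3, hsub⟩ := exc_arithV hf0 hm (fun i => (hsS i).2) hrel huniq
    hB.A0 hB.A1 hB.P0 hB.AP hε hFu hsu hcardf
  refine ⟨m, s, hm, ⟨hx, hf, h1, h2, h3, fun c hc => ?_⟩, hsub⟩
  have h5 := heta (m + 1) s c hws hc
  have h6 := Fintype.linearIndependent_iff.1 (li_field (F := K) hlis)
    (fun i => c i.succ - c 0) (by
      funext j
      rw [Finset.sum_apply]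
      have h7 := congrFun h5 j
      beta_reduce at h7
      rw [Fin.sum_univ_succ, Pi.zero_apply] at h7
      have h8 : (s 0 j : K) + ∑ i : Fin m, (s i.succ j : K) = 0 := by
        have h9 := congrFun h1 j
        rw [Finset.sum_apply, Fin.sum_univ_succ, Pi.zero_apply] at h9
        exact_mod_cast h9
      have h9 : ∑ i : Fin m, (c i.succ - c 0) * (s i.succ j : K) =
          ∑ i : Fin m, c i.succ * (s i.succ j : K) - c 0 * ∑ i : Fin m, (s i.succ j : K) := by
        rw [Finset.mul_sum, ← Finset.sum_sub_distrib]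
        exact Finset.sum_congr rfl fun i _ => by ring
      change ∑ i : Fin m, (c i.succ - c 0) * (s i.succ j : K) = 0
      rw [h9]
      linear_combination h7 - c 0 * h8)
  intro i
  refine Fin.cases rfl (fun i => ?_) i
  exact sub_eq_zero.1 (h6 i)

end Pool.Agent.K9h25.M
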