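import Pool.Agent.K9h25.M.Fb
import Pool.Agent.R885.V3b
import Pool.Agent.R885.V7
import Pool.Agent.R885.V8n
import Pool.Agent.R885.T9

/-!
The class of the systems with one equation, without any condition of nondegeneracy and without
lower bounds for the multiplicities (the proofs are those of `Sys.lean`).
-/

set_option autoImplicit false
set_option linter.overlappingInstances false
set_option linter.unusedSectionVars false

open FF IntermediateField Pool.Agent.R885 Pool.Agent.R885.N Pool.Agent.W603.LV Pool.Agent.W619.PQ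
  Pool.Agent.W619.PL Pool.Agent.Y173.QA Pool.Agent.W619.TW Pool.Agent.TH165.ACC
  Pool.Agent.TH122.AB Pool.Agent.W619.Y Pool.Agent.W824.PG Pool.Agent.Y174

namespace Pool.Agent.K9h25.M

section

variable {k K : Type} [Field k] [Field K] [Algebra k K]

/-- The class of the systems with one equation, with weights `A` and support functions `Ψ`, with
multiplicities which are bounded only from above. -/
structure MSys0 (n : ℕ) (β : Place k K → ℝ) {r : ℕ} {J' : Type} [Fintype J'] (x : Fin r → K)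
    (f : (Fin r → ℤ) →₀ k) (y : J' → K) (cw : J' → ℚ) (A Ψ : (Fin r → ℤ) → ℚ) :
    Prop where
  hr : r = n + 1
  hx : ∀ i, x i ≠ 0
  hgen : IntermediateField.adjoin k (Set.range x) = ⊤
  hf0 : f ≠ 0
  hf : ev x f = 0
  hgr : gr x f ≠ 0
  hy : ∀ j, y j ≠ 0
  A0 : ∀ v, v ≠ 0 → 0 ≤ A v
  A1 : ∀ v, A v ≤ 1
  AD : ∃ D : ℕ, 1 ≤ D ∧ ∀ v, ∃ z : ℤ, (D : ℚ) * A v = z
  A3 : ∀ (g : ℤ) (v : Fin r → ℤ), 0 < g → v ≠ 0 → A (g • v) ≤ g * A v
  P0 : PLin Ψ
  AP : ∀ v w, v ≠ 0 → w ≠ 0 → v + w ≠ 0 → A v + Ψ v + (A w + Ψ w) - 1 ≤ A (v + w) + Ψ (v + w)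
  le1 : ∀ P : Place k K, β P ≤ 1
  th0 : ∀ P : Place k K, vec P x = 0 → 0 ≤ Th y cw P
  th1 : ∀ P : Place k K, vec P x ≠ 0 → ((Ψ (vec P x) : ℚ) : ℝ) ≤ Th y cw P
  up0 : ∀ P : Place k K, vec P x = 0 → β P ≤ Th y cw P
  up1 : ∀ P : Place k K, vec P x ≠ 0 →
    β P ≤ 1 - ((A (vec P x) + Ψ (vec P x) : ℚ) : ℝ) + Th y cw P

end

section

variable {k K : Type} [Field k] [CharZero k] [Field K] [Algebra k K] {n : ℕ}
  {β : Place k K → ℝ} {r : ℕ} {J' : Type} [Fintype J'] {x : Fin r → K}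
  {f : (Fin r → ℤ) →₀ k} {y : J' → K} {cw : J' → ℚ} {A Ψ : (Fin r → ℤ) → ℚ}

/-- The multiplicities on the generic fibre are nonnegative combinations. -/
theorem MSys0.nonneg (hB : MSys0 n β x f y cw A Ψ) {Λ F : Type} [Field Λ] [Field F] [Algebra Λ F]
    [Algebra k Λ] [Algebra k F] [IsScalarTower k Λ F] (φ : K →ₐ[k] F) (P : Place Λ F) :
    (vec P (fun i => φ (x i)) = 0 → 0 ≤ Th (fun j => φ (y j)) cw P) ∧
      (vec P (fun i => φ (x i)) ≠ 0 →
        ((Ψ (vec P fun i => φ (x i)) : ℚ) : ℝ) ≤ Th (fun j => φ (y j)) cw P) := by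
  rcases restr_place φ P with h0 | ⟨v, e, he, hv⟩
  · have hV : vec P (fun i => φ (x i)) = 0 := by
      funext i
      exact h0 (x i)
    refine ⟨fun _ => ?_, fun h => absurd hV h⟩
    unfold Th
    refine (Finset.sum_eq_zero fun j _ => ?_).symm.le
    rw [h0, Int.cast_zero, mul_zero]
  · have he' : ((e : ℕ) : ℤ) ≠ 0 := by omega
    have her : (0 : ℝ) ≤ e := Nat.cast_nonneg e
    rw [v8n_vec φ hv, v8n_Th φ hv]
    refine ⟨fun h => ?_, fun h => ?_⟩
    · exact mul_nonneg her (hB.th0 v ((smul_eq_zero.1 h).resolve_left he'))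
    · have hvv : vec v x ≠ 0 := fun h1 => h (by rw [h1, smul_zero])
      rw [hB.P0.zsmul (by omega)]
      push_cast
      exact mul_le_mul_of_nonneg_left (hB.th1 v hvv) her

/-- The bounds for the multiplicities on the generic fibre. -/
theorem MSys0.bound (hB : MSys0 n β x f y cw A Ψ) {Λ F : Type} [Field Λ] [Field F] [Algebra Λ F]
    [Algebra k Λ] [Algebra k F] [IsScalarTower k Λ F] (φ : K →ₐ[k] F) (P : Place Λ F) {δ : ℝ}
    (hδ : (∃ (v : Place k K) (e : ℕ), 0 < e ∧ (∀ z, P.ord (φ z) = e * v.ord z) ∧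
      δ = max 0 (1 - e * (1 - β v))) ∨ δ = 0) :
    (vec P (fun i => φ (x i)) = 0 → δ ≤ Th (fun j => φ (y j)) cw P) ∧
      (vec P (fun i => φ (x i)) ≠ 0 →
        δ ≤ 1 - ((A (vec P fun i => φ (x i)) + Ψ (vec P fun i => φ (x i)) : ℚ) : ℝ) +
          Th (fun j => φ (y j)) cw P) := by
  obtain ⟨hn0, hn1⟩ := hB.nonneg φ P
  have hn2 : vec P (fun i => φ (x i)) ≠ 0 →
      0 ≤ 1 - ((A (vec P fun i => φ (x i)) + Ψ (vec P fun i => φ (x i)) : ℚ) : ℝ) +
        Th (fun j => φ (y j)) cw P := by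
    intro h
    have h1 := hn1 h
    have h2 : ((A (vec P fun i => φ (x i)) : ℚ) : ℝ) ≤ 1 := by exact_mod_cast hB.A1 _
    push_cast
    linarith
  rcases hδ with ⟨v, e, he, hv, rfl⟩ | rfl
  · have he' : ((e : ℕ) : ℤ) ≠ 0 := by omega
    have her : (1 : ℝ) ≤ e := by exact_mod_cast he
    refine ⟨fun h => max_le (hn0 h) ?_, fun h => max_le (hn2 h) ?_⟩
    · rw [v8n_vec φ hv] at h
      have hvv : vec v x = 0 := (smul_eq_zero.1 h).resolve_left he'
      rw [v8n_Th φ hv]
      have h1 := mul_le_mul_of_nonneg_left (hB.up0 v hvv) (by linarith : (0 : ℝ) ≤ e)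
      linarith
    · have hvv : vec v x ≠ 0 := by
        intro h1
        apply h
        rw [v8n_vec φ hv, h1, smul_zero]
      rw [v8n_Th φ hv, v8n_vec φ hv, hB.P0.zsmul (by omega)]
      have h1 := mul_le_mul_of_nonneg_left (hB.up1 v hvv) (by linarith : (0 : ℝ) ≤ e)
      have h2 : ((A ((e : ℤ) • vec v x) : ℚ) : ℝ) ≤ e * ((A (vec v x) : ℚ) : ℝ) := by
        exact_mod_cast hB.A3 (e : ℤ) (vec v x) (by omega) hvv
      push_cast at h1 ⊢
      nlinarith
  · exact ⟨hn0, hn2⟩

/-- the places where the multiplicity is positive -/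
theorem MSys0.hG (hB : MSys0 n β x f y cw A Ψ) [DecidableEq K] : ∀ P : Place k K, 0 < β P →
    ∃ g ∈ Finset.univ.image x ∪ Finset.univ.image y, P.ord g ≠ 0 := by
  intro P hP
  by_cases hv : vec P x = 0
  · by_contra hcon
    push Not at hcon
    have h1 := hB.up0 P hv
    unfold Th at h1
    rw [Finset.sum_eq_zero fun j _ => by
      rw [hcon _ (Finset.mem_union_right _ (Finset.mem_image_of_mem _ (Finset.mem_univ j))),
        Int.cast_zero, mul_zero]] at h1
    linarith
  · obtain ⟨i, hi⟩ : ∃ i, vec P x i ≠ 0 := by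
      by_contra hcon
      push Not at hcon
      exact hv (funext hcon)
    exact ⟨x i, Finset.mem_union_left _ (Finset.mem_image_of_mem _ (Finset.mem_univ i)), hi⟩

/-- the numerical dimension, for the fibres -/
theorem MSys0.num [IsAlgClosed k] (htr : Algebra.trdeg k K = (n : ℕ))
    (hB : MSys0 n β x f y cw A Ψ) (hF : (FineG A Ψ (fun _ : Fin 1 => f)).Nonempty) {d : ℕ}
    (hdn : d ≤ n)
    (hd : Algebra.trdeg k (IntermediateField.adjoin k
      {z : K | ∃ w ∈ dirsG A Ψ (fun _ : Fin 1 => f), z = mono x w}) = (d : ℕ)) :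
    PairNum k K n β d := by
  classical
  have hr := hB.hr
  have hx := hB.hx
  have hgen := hB.hgen
  have hf := hB.hf
  have hβ1 := hB.le1
  obtain ⟨u0, c, a', nn, S, hc, ha, hnnq, hF', hS, hcl, hpos, hdirs, -⟩ :=
    exists_tightV (f := fun _ : Fin 1 => f) (fun _ => hB.hf0) hB.A0 hB.A1 hB.AD hB.P0 hB.AP cw hF
  simp only [Fin.sum_univ_one] at hF' hS
  have hcq : (0 : ℚ) < c := by exact_mod_cast hc
  have hcr : (0 : ℝ) < c := by exact_mod_cast hc
  have hnnr : ∀ j, (nn j : ℝ) = c * ((cw j : ℚ) : ℝ) := fun j => by exact_mod_cast hnnq j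
  have har : ∀ v, (a' v : ℝ) = c * ((A v + Ψ v : ℚ) : ℝ) := fun v => by exact_mod_cast ha v
  have hA2 : ∀ v w, v ≠ 0 → w ≠ 0 → v + w ≠ 0 → a' v + a' w - c ≤ a' (v + w) := by
    intro v w hv hw hvw
    have h1 := mul_le_mul_of_nonneg_left (hB.AP v w hv hw hvw) hcq.le
    have h2 : (a' v : ℚ) + a' w - c ≤ a' (v + w) := by
      rw [ha, ha, ha]
      linarith
    exact_mod_cast h2
  have hA3 : ∀ (g : ℤ) v, 0 < g → v ≠ 0 → a' (g • v) ≤ g * a' v := by
    intro g v hg hv
    have h1 := hB.A3 g v hg hv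
    have h2 : (a' (g • v) : ℚ) ≤ g * a' v := by
      rw [ha, ha, hB.P0.zsmul hg.le]
      have h3 := mul_le_mul_of_nonneg_left h1 hcq.le
      linarith
    exact_mod_cast h2
  obtain ⟨t, htG, htind, htalg⟩ := exists_mono_basis hd
  choose w hw hwt using htG
  have hwS : ∀ j, ∀ s ∈ S, w j ⬝ᵥ s = 0 := fun j => (hdirs (w j)).1 (hw j)
  have hess : Algebra.EssFiniteType k K := by
    rw [← IntermediateField.fg_top_iff, ← hgen]
    exact ⟨Finset.univ.image x, by rw [Finset.coe_image, Finset.coe_univ, Set.image_univ]⟩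
  have hG := hB.hG
  rcases hdn.lt_or_eq with hlt | rfl
  · -- the generic fibre
    obtain ⟨m, rfl⟩ : ∃ m, n = d + (m + 1) := ⟨n - d - 1, by omega⟩
    refine pair_gen (h := 0) hess htind htr hG hβ1 ?_
    intro Λ F _ _ _ _ _ _ _ φ hφgen hΛF t' ht' htt' hcon δ' hδ'
    have hinj : Function.Injective φ := (φ : K →+* F).injective
    have e' : (Unit ⊕ Fin d) ⊕ Fin (m + 1) ≃ Fin r := Fintype.equivOfCardEq (by
      simp only [Fintype.card_sum, Fintype.card_fin, Fintype.card_unit]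
      omega)
    have hmono : ∀ w' : Fin r → ℤ, φ (mono x w') = mono (fun i => φ (x i)) w' := fun w' =>
      map_mono (φ : K →+* F) x w'
    have hφx : ∀ i, φ (x i) ≠ 0 := by
      intro i h0
      exact hx i (hinj (by rw [h0, map_zero]))
    have hφy : ∀ j, φ (y j) ≠ 0 := by
      intro j h0
      exact hB.hy j (hinj (by rw [h0, map_zero]))
    have hgrφ : ∀ i, gr (fun i => φ (x i)) f i = φ (gr x f i) := by
      intro i
      unfold gr Finsupp.sum
      rw [map_sum]
      refine Finset.sum_congr rfl fun m' _ => ?_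
      rw [map_mul, map_mul, map_intCast, hmono, φ.commutes]
    have hnnTh : ∀ P : Place Λ F, ((∑ j, nn j * P.ord (φ (y j)) : ℤ) : ℝ) =
        c * Th (fun j => φ (y j)) cw P := by
      intro P
      unfold Th
      push_cast
      rw [Finset.mul_sum]
      refine Finset.sum_congr rfl fun j _ => ?_
      rw [hnnr]
      ring
    refine num_fibreM (k := k) (f := f) (S := S) (u0 := u0) (c := c)
      (a' := a') (nn := nn) (w := w) (t := t') (y := fun j => φ (y j))
      (x := fun i => φ (x i)) e' hΛF hφx ?_ hB.hf0 ?_ ?_ hφy hc hA2 hA3 hS hpos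
      hwS ht' ?_ ?_ ?_ ?_ ?_
    · rw [eq_top_iff, ← hφgen, IntermediateField.adjoin_le_iff]
      rintro _ ⟨z, rfl⟩
      have hz : z ∈ IntermediateField.adjoin k (Set.range x) := by
        rw [hgen]
        trivial
      have h1 : IntermediateField.adjoin k (Set.range x) ≤
          ((IntermediateField.adjoin Λ (Set.range fun i => φ (x i))).restrictScalars k).comap
            φ := by
        rw [IntermediateField.adjoin_le_iff]
        rintro _ ⟨i, rfl⟩
        exact IntermediateField.subset_adjoin Λ _ ⟨i, rfl⟩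
      exact h1 hz
    · rw [← map_ev, hf, map_zero]
    · intro h0
      apply hB.hgr
      funext i
      have h1 := congrFun h0 i
      rw [hgrφ] at h1
      exact hinj (by rw [h1]; exact (map_zero φ).symm)
    · intro j
      rw [htt', hwt, hmono]
    · intro w' hw'
      have h1 := htalg (mono x w') ⟨w', (hdirs w').2 hw', rfl⟩
      obtain ⟨a, ha⟩ := hcon _ h1
      exact ⟨a, by rw [ha, hmono]⟩
    · intro P
      rcases hδ' P with ⟨v, e, he, hv, hδ⟩ | h0
      · rw [hδ]
        refine max_le zero_le_one ?_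
        have h1 : (0 : ℝ) ≤ e * (1 - β v) :=
          mul_nonneg (Nat.cast_nonneg e) (sub_nonneg.2 (hβ1 v))
        linarith
      · rw [h0]
        exact zero_le_one
    · intro P hP
      rw [hnnTh]
      exact mul_le_mul_of_nonneg_left ((hB.bound φ P (hδ' P)).1 hP) hcr.le
    · intro P hP0
      have h1 := mul_le_mul_of_nonneg_left ((hB.bound φ P (hδ' P)).2 hP0) hcr.le
      have h2 : ((c - a' (vec P fun i => φ (x i)) + ∑ j, nn j * P.ord (φ (y j)) : ℤ) : ℝ) =
          c * (1 - ((A (vec P fun i => φ (x i)) + Ψ (vec P fun i => φ (x i)) : ℚ) : ℝ) +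
            Th (fun j => φ (y j)) cw P) := by
        rw [Int.cast_add, Int.cast_sub, hnnTh, har]
        ring
      exact h1.trans h2.symm.le
  · -- the top dimension
    exact pair_top hess htr hG hβ1

/-- **The polytope is not empty only after a perturbation.** -/
theorem MSys0.neg [IsAlgClosed k] (htr : Algebra.trdeg k K = (n : ℕ))
    (hB : MSys0 n β x f y cw A Ψ) {ε : ℚ} (hε : 0 < ε)
    (hF : (FineG A (fun v => Ψ v - ε * n1 v) (fun _ : Fin 1 => f)).Nonempty) {d : ℕ}
    (hdn : d < n)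
    (hd : Algebra.trdeg k (IntermediateField.adjoin k
      {z : K | ∃ w ∈ dirsG A (fun v => Ψ v - ε * n1 v) (fun _ : Fin 1 => f),
        z = mono x w}) = (d : ℕ)) :
    NegB k K n β := by
  classical
  intro T
  have hr := hB.hr
  have hx := hB.hx
  have hgen := hB.hgen
  have hf := hB.hf
  have hy := hB.hy
  have hβ1 := hB.le1
  have hP0' := hB.P0.sub_n1 hε.le
  have hAP' := n1_AP hB.AP hε.le
  obtain ⟨u0, c, a, nn, S, hc, ha, hnnq, hF', hS, hcl, hpos, hdirs, -⟩ :=
    exists_tightV (f := fun _ : Fin 1 => f) (fun _ => hB.hf0) hB.A0 hB.A1 hB.AD hP0' hAP' cw hF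
  simp only [Fin.sum_univ_one] at hF' hS
  have hcq : (0 : ℚ) < c := by exact_mod_cast hc
  have hcr : (0 : ℝ) < c := by exact_mod_cast hc
  have haq : ∀ v, (a v : ℚ) = c * (A v + (Ψ v - ε * n1 v)) := ha
  have hεr : (0 : ℝ) < ((ε : ℚ) : ℝ) := by exact_mod_cast hε
  have ha2 : ∀ v w, v ≠ 0 → w ≠ 0 → v + w ≠ 0 → a v + a w - c ≤ a (v + w) := by
    intro v w hv hw hvw
    have h1 : (a v : ℚ) + a w - c ≤ a (v + w) := by
      rw [haq, haq, haq]
      have h2 := mul_le_mul_of_nonneg_left (hAP' v w hv hw hvw) hcq.le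
      linarith
    exact_mod_cast h1
  have ha3 : ∀ (g : ℤ) v, 0 < g → v ≠ 0 → a (g • v) ≤ g * a v := by
    intro g v hg hv
    have h1 : (a (g • v) : ℚ) ≤ g * a v := by
      have h2 := hB.A3 g v hg hv
      have h3 : Ψ (g • v) - ε * n1 (g • v) = g * (Ψ v - ε * n1 v) := hP0'.zsmul hg.le v
      rw [haq, haq, h3]
      have h4 := mul_le_mul_of_nonneg_left h2 hcq.le
      linarith
    exact_mod_cast h1
  obtain ⟨t, htG, htind, htalg⟩ := exists_mono_basis hd
  choose w hw hwt using htG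
  have hwS : ∀ j, ∀ s ∈ S, w j ⬝ᵥ s = 0 := fun j => (hdirs (w j)).1 (hw j)
  have hess : Algebra.EssFiniteType k K := by
    rw [← IntermediateField.fg_top_iff, ← hgen]
    exact ⟨Finset.univ.image x, by rw [Finset.coe_image, Finset.coe_univ, Set.image_univ]⟩
  obtain ⟨m, rfl⟩ : ∃ m, n = d + (m + 1) := ⟨n - d - 1, by omega⟩
  refine pairNeg_gen hess htind htr ?_ T
  intro Λ F _ _ _ _ _ _ _ φ hφgen hΛF t' ht' htt' hcon δ' hδ' T'
  have hinj : Function.Injective φ := (φ : K →+* F).injective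
  have e' : (Unit ⊕ Fin d) ⊕ Fin (m + 1) ≃ Fin r := Fintype.equivOfCardEq (by
    simp only [Fintype.card_sum, Fintype.card_fin, Fintype.card_unit]
    omega)
  have hmono : ∀ w' : Fin r → ℤ, φ (mono x w') = mono (fun i => φ (x i)) w' := fun w' =>
    map_mono (φ : K →+* F) x w'
  have hxφ : ∀ i, φ (x i) ≠ 0 := fun i h0 => hx i (hinj (by rw [h0, map_zero]))
  have hyφ : ∀ j, φ (y j) ≠ 0 := fun j h0 => hy j (hinj (by rw [h0, map_zero]))
  have hgrφ : ∀ i, gr (fun i => φ (x i)) f i = φ (gr x f i) := by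
    intro i
    unfold gr Finsupp.sum
    rw [map_sum]
    refine Finset.sum_congr rfl fun m' _ => ?_
    rw [map_mul, map_mul, map_intCast, hmono, φ.commutes]
  have hnnTh : ∀ P : Place Λ F, ((∑ j, nn j * P.ord (φ (y j)) : ℤ) : ℝ) =
      c * Th (fun j => φ (y j)) cw P := by
    intro P
    unfold Th
    push_cast
    rw [Finset.mul_sum]
    refine Finset.sum_congr rfl fun j _ => ?_
    have h4 : (nn j : ℝ) = c * ((cw j : ℚ) : ℝ) := by exact_mod_cast hnnq j
    rw [h4]
    ring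
  have har : ∀ v, (a v : ℝ) = c * (((A v + Ψ v : ℚ) : ℝ) - ((ε : ℚ) : ℝ) * ((n1 v : ℚ) : ℝ)) := by
    intro v
    have h1 : (a v : ℚ) = c * ((A v + Ψ v) - ε * n1 v) := by
      rw [haq]
      ring
    exact_mod_cast h1
  refine neg_fibreM (k := k) (f := f) (y := fun j => φ (y j)) (S := S) (u0 := u0) (c := c)
    (a' := a) (nn := nn) (w := w) (t := t')
    (x := fun i => φ (x i)) e' hΛF hxφ ?_ hB.hf0 ?_ ?_ hyφ hc ha2 ha3 hS hpos
    hwS ht' ?_ ?_ ?_ ?_ (ε := c * ε) ?_ ?_ T'
  · rw [eq_top_iff, ← hφgen, IntermediateField.adjoin_le_iff]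
    rintro _ ⟨z, rfl⟩
    have hz : z ∈ IntermediateField.adjoin k (Set.range x) := by
      rw [hgen]
      trivial
    have h1 : IntermediateField.adjoin k (Set.range x) ≤
        ((IntermediateField.adjoin Λ (Set.range fun i => φ (x i))).restrictScalars k).comap
          φ := by
      rw [IntermediateField.adjoin_le_iff]
      rintro _ ⟨i, rfl⟩
      exact IntermediateField.subset_adjoin Λ _ ⟨i, rfl⟩
    exact h1 hz
  · rw [← map_ev, hf, map_zero]
  · intro h0
    apply hB.hgr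
    funext i
    have h1 := congrFun h0 i
    rw [hgrφ] at h1
    exact hinj (by rw [h1]; exact (map_zero φ).symm)
  · intro j
    rw [htt', hwt, hmono]
  · intro w' hw'
    have h1 := htalg (mono x w') ⟨w', (hdirs w').2 hw', rfl⟩
    obtain ⟨a, ha⟩ := hcon _ h1
    exact ⟨a, by rw [ha, hmono]⟩
  · -- the multiplicities are at most one
    intro P
    rcases hδ' P with ⟨v, e, he, hv, hδ⟩ | h0
    · rw [hδ]
      refine max_le zero_le_one ?_
      have h1 : (0 : ℝ) ≤ e * (1 - β v) :=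
        mul_nonneg (Nat.cast_nonneg e) (sub_nonneg.2 (hβ1 v))
      linarith
    · rw [h0]
      exact zero_le_one
  · -- the places with the vector zero
    intro P hP
    rw [hnnTh]
    exact mul_le_mul_of_nonneg_left ((hB.bound φ P (hδ' P)).1 hP) hcr.le
  · exact mul_pos hcr hεr
  · -- the other places
    intro P hP
    have h1 := mul_le_mul_of_nonneg_left ((hB.bound φ P (hδ' P)).2 hP) hcr.le
    have h2 : ((c - a (vec P fun i => φ (x i)) + ∑ j, nn j * P.ord (φ (y j)) : ℤ) : ℝ) =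
        c * (1 - ((A (vec P fun i => φ (x i)) + Ψ (vec P fun i => φ (x i)) : ℚ) : ℝ) +
          Th (fun j => φ (y j)) cw P) +
          c * ((ε : ℚ) : ℝ) * ((n1 (vec P fun i => φ (x i)) : ℚ) : ℝ) := by
      rw [Int.cast_add, Int.cast_sub, hnnTh, har]
      ring
    rw [h2]
    linarith

end

end Pool.Agent.K9h25.M
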