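import Pool.Agent.K9h25.M.Lim
import Pool.Agent.K9h25.M.Fin

/-!
Arbitrary hypersurfaces of tori whose polytope has a point as its image: abundance.
-/

set_option autoImplicit false
set_option linter.overlappingInstances false
set_option linter.unusedSectionVars false
set_option linter.unusedVariables false

open FF IntermediateField Pool.Agent.R885 Pool.Agent.R885.N Pool.Agent.W603.LV Pool.Agent.W619.PQ
  Pool.Agent.W619.PL Pool.Agent.Y173.QA Pool.Agent.W619.TW Pool.Agent.TH165.ACC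
  Pool.Agent.TH122.AB Pool.Agent.W619.Y Pool.Agent.W824.PG Pool.Agent.Y174

namespace Pool.Agent.K9h25.M

section

variable {k K : Type} [Field k] [Field K] [Algebra k K]

/-- The systems with one equation and with multiplicities which are bounded only from above. -/
structure USys (n : ℕ) (β : Place k K → ℝ) {r : ℕ} {J' : Type} [Fintype J'] (x : Fin r → K)
    (f : (Fin r → ℤ) →₀ k) (y : J' → K) (cw : J' → ℚ) (A Ψ : (Fin r → ℤ) → ℚ) :
    Prop where
  hr : r = n + 1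
  hx : ∀ i, x i ≠ 0
  hgen : IntermediateField.adjoin k (Set.range x) = ⊤
  hf0 : f ≠ 0
  hf : ev x f = 0
  hgr : gr x f ≠ 0
  hy : ∀ j, y j ≠ 0
  A0 : ∀ v, v ≠ 0 → 0 ≤ A v
  A1 : ∀ v, A v ≤ 1
  AD : ∃ D : ℕ, 1 ≤ D ∧ ∀ v, ∃ z : ℤ, (D : ℚ) * A v = z
  A3 : ∀ (g : ℤ) (v : Fin r → ℤ), 0 < g → v ≠ 0 → A (g • v) ≤ g * A v
  P0 : PLin Ψ
  AP : ∀ v w, v ≠ 0 → w ≠ 0 → v + w ≠ 0 → A v + Ψ v + (A w + Ψ w) - 1 ≤ A (v + w) + Ψ (v + w)
  le1 : ∀ P : Place k K, β P ≤ 1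
  up0 : ∀ P : Place k K, vec P x = 0 → β P ≤ Th y cw P
  up1 : ∀ P : Place k K, vec P x ≠ 0 →
    β P ≤ 1 - ((A (vec P x) + Ψ (vec P x) : ℚ) : ℝ) + Th y cw P

end

section

variable {k K : Type} [Field k] [CharZero k] [Field K] [Algebra k K] {n : ℕ}
  {β : Place k K → ℝ} {r : ℕ} {J' : Type} [Fintype J'] {x : Fin r → K}
  {f : (Fin r → ℤ) →₀ k} {y : J' → K} {cw : J' → ℚ} {A Ψ : (Fin r → ℤ) → ℚ}

/-- **The image of the polytope is a point.** -/
theorem USys.zero [IsAlgClosed k] (hn : 1 ≤ n) (htr : Algebra.trdeg k K = (n : ℕ))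
    (hB : USys n β x f y cw A Ψ) (hF : (FineG A Ψ (fun _ : Fin 1 => f)).Nonempty)
    (hd : Algebra.trdeg k (IntermediateField.adjoin k
      {z : K | ∃ w ∈ dirsG A Ψ (fun _ : Fin 1 => f), z = mono x w}) = ((0 : ℕ) : Cardinal)) :
    PairNum k K n β 0 ∧ (PairKod k K n β 0 ∨ NegB k K n β) := by
  classical
  have hr := hB.hr
  have hx := hB.hx
  have hgen := hB.hgen
  obtain ⟨u0, c, a', nn, S, hc, ha, hnnq, hF', hS, hcl, hpos, hdirs, -⟩ :=
    exists_tightV (f := fun _ : Fin 1 => f) (fun _ => hB.hf0) hB.A0 hB.A1 hB.AD hB.P0 hB.AP cw hF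
  simp only [Fin.sum_univ_one] at hF' hS
  have hcq : (0 : ℚ) < c := by exact_mod_cast hc
  have hcr : (0 : ℝ) < c := by exact_mod_cast hc
  have har : ∀ v, (a' v : ℝ) = c * ((A v + Ψ v : ℚ) : ℝ) := fun v => by exact_mod_cast ha v
  have hA2 : ∀ v w, v ≠ 0 → w ≠ 0 → v + w ≠ 0 → a' v + a' w - c ≤ a' (v + w) := by
    intro v w hv hw hvw
    have h1 := mul_le_mul_of_nonneg_left (hB.AP v w hv hw hvw) hcq.le
    have h2 : (a' v : ℚ) + a' w - c ≤ a' (v + w) := by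
      rw [ha, ha, ha]
      linarith
    exact_mod_cast h2
  have hA3 : ∀ (g : ℤ) v, 0 < g → v ≠ 0 → a' (g • v) ≤ g * a' v := by
    intro g v hg hv
    have h1 := hB.A3 g v hg hv
    have h2 : (a' (g • v) : ℚ) ≤ g * a' v := by
      rw [ha, ha, hB.P0.zsmul hg.le]
      have h3 := mul_le_mul_of_nonneg_left h1 hcq.le
      linarith
    exact_mod_cast h2
  obtain ⟨t0, -, -, htalg⟩ := exists_mono_basis hd
  have hcon : ∀ w' : Fin r → ℤ, (∀ s ∈ S, w' ⬝ᵥ s = 0) → ∃ a : k, algebraMap k K a = mono x w' := by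
    intro w' hw'
    have h1 := htalg (mono x w') ⟨w', (hdirs w').2 hw', rfl⟩
    have h2 : Set.range t0 = ∅ := Set.range_eq_empty t0
    rw [h2, IntermediateField.adjoin_empty] at h1
    have h3 : IsAlgebraic k (mono x w') := by
      have h4 : Algebra.IsAlgebraic k (⊥ : IntermediateField k K) := inferInstance
      exact h1.restrictScalars k
    exact minpoly.mem_range_of_degree_eq_one k _ (IsAlgClosed.degree_eq_one_of_irreducible k
      (minpoly.irreducible h3.isIntegral))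
  obtain ⟨m, rfl⟩ : ∃ m, n = m + 1 := ⟨n - 1, by omega⟩
  have e' : (Unit ⊕ Fin 0) ⊕ Fin (m + 1) ≃ Fin r := Fintype.equivOfCardEq (by
    simp only [Fintype.card_sum, Fintype.card_fin, Fintype.card_unit]
    omega)
  obtain ⟨w, hwd⟩ : ∃ w : Fin 0 → Fin r → ℤ, w = fun j => j.elim0 := ⟨_, rfl⟩
  obtain ⟨t, htd⟩ : ∃ t : Fin 0 → k, t = fun j => j.elim0 := ⟨_, rfl⟩
  have hwt : ∀ j, algebraMap k K (t j) = mono x (w j) := fun j => j.elim0
  have htind : AlgebraicIndependent k t := algebraicIndependent_empty_type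
  obtain ⟨f', hf'0, hf', hmn', hli, hsp, hhom⟩ := fibre_data (k := k) (Λ := k) (F := K) (m := m)
    e' hx hB.hf0 hB.hf hB.hgr htind hwt hcon
  have hwS : ∀ j, ∀ s ∈ S, w j ⬝ᵥ s = 0 := fun j => j.elim0
  have hS' : ∀ s ∈ S, s ≠ 0 ∧ u0 ⬝ᵥ s = a' s + c * mn s f' := fun s hs => by
    rw [hmn']
    exact hS s hs
  have hsumc : ∀ P : Place k K, ((∑ j, nn j * P.ord (y j) : ℤ) : ℝ) = c * Th y cw P := by
    intro P
    unfold Th
    push_cast
    rw [Finset.mul_sum]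
    refine Finset.sum_congr rfl fun j _ => ?_
    have h4 : (nn j : ℝ) = c * ((cw j : ℚ) : ℝ) := by exact_mod_cast hnnq j
    rw [h4]
    ring
  have hβ0 : ∀ P : Place k K, vec P x = 0 →
      (c : ℝ) * β P ≤ ((∑ j, nn j * P.ord (y j) : ℤ) : ℝ) := by
    intro P hP
    rw [hsumc]
    exact mul_le_mul_of_nonneg_left (hB.up0 P hP) hcr.le
  have hβ2 : ∀ P : Place k K, vec P x ≠ 0 →
      (c : ℝ) * β P ≤ ((c - a' (vec P x) + ∑ j, nn j * P.ord (y j) : ℤ) : ℝ) := by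
    intro P hP
    rw [Int.cast_add, Int.cast_sub, hsumc, har]
    have h1 := mul_le_mul_of_nonneg_left (hB.up1 P hP) hcr.le
    linarith
  refine ⟨num_zeroM (S := S) (u0 := u0) (c := c) (a' := a') (nn := nn) htr hx hgen e' hf'0 hf'
    hwt hli hB.hy hc hA2 hA3 hwS hS' hpos hsp hhom hB.le1 hβ0 hβ2, ?_⟩
  by_cases hN : NegB k K (m + 1) β
  · exact Or.inr hN
  left
  unfold NegB at hN
  push Not at hN
  obtain ⟨T, hT⟩ := hN
  obtain ⟨C0, h0, hlow⟩ := lim_zeroM (S := S) (u0 := u0) (c := c) (a' := a') (nn := nn) htr hx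
    hgen e' hf'0 hf' hwt hli hB.hy hc hA2 hA3 hwS hS' hpos hsp hhom hB.le1 hβ0 hβ2 T (by
      intro M0
      obtain ⟨M, hM, ω, hω, hω0⟩ := hT M0
      exact ⟨M, hM, ω, hω0, hω⟩)
  obtain ⟨Z, hZ⟩ := Pool.Agent.W636.PG.exists_basis k K (m + 1) htr
  obtain ⟨D0, hD0'⟩ := Pool.Agent.W602.GT.exists_dual hZ
  have hD0 : ∀ i j, D0 i (Z j) = if i = j then 1 else 0 := by
    intro i j
    have h1 := congrFun (congrFun hD0' i) j
    rw [Matrix.of_apply, Matrix.one_apply] at h1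
    exact h1
  have hfl : ∀ l, ev x (hs f' w t l) = 0 := by
    rintro (l | j)
    · exact hf'
    · exact j.elim0
  have hOm0 := om_ne hx hgen hfl h0 hZ hD0
  obtain ⟨c', hc'⟩ : ∃ c' : ℕ, (c' : ℤ) = c := ⟨c.toNat, Int.toNat_of_nonneg hc.le⟩
  have hc'1 : 1 ≤ c' := by omega
  obtain ⟨R, hRd⟩ : ∃ R : K, R = mono x u0 * ∏ j, (y j) ^ (-(nn j)) := ⟨_, rfl⟩
  have hR0 : R ≠ 0 := by
    rw [hRd]
    exact mul_ne_zero (mono_ne hx _) (Finset.prod_ne_zero_iff.2 fun j _ => zpow_ne_zero _ (hB.hy j))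
  have hRord : ∀ P : Place k K, P.ord R = u0 ⬝ᵥ vec P x - ∑ j, nn j * P.ord (y j) := by
    intro P
    rw [hRd, P.ord_mul (mono_ne hx _) (Finset.prod_ne_zero_iff.2 fun j _ =>
      zpow_ne_zero _ (hB.hy j)), ord_mono P hx, ord_prod_zpow P _ _ hB.hy, sub_eq_add_neg,
      ← Finset.sum_neg_distrib]
    congr 1
    exact Finset.sum_congr rfl fun j _ => by ring
  refine ⟨c', hc'1, fun _ D => Om e' x (hs f' w t) C0 D ^ c' * R, fun l => ⟨?_, ?_⟩, D0,
    fun l => mul_ne_zero (pow_ne_zero _ hOm0) hR0, algebraicIndependent_empty_type⟩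
  · intro B D
    have h1 := om_pluri e' x (hs f' w t) C0 c' B D
    change Om e' x (hs f' w t) C0 (fun i => ∑ j, B i j • D j) ^ c' =
      B.det ^ c' * Om e' x (hs f' w t) C0 D ^ c' at h1
    change Om e' x (hs f' w t) C0 (fun i => ∑ j, B i j • D j) ^ c' * R =
      B.det ^ c' * (Om e' x (hs f' w t) C0 D ^ c' * R)
    rw [h1]
    ring
  · intro P hP D hD
    by_cases hOm : Om e' x (hs f' w t) C0 D = 0
    · left
      change Om e' x (hs f' w t) C0 D ^ c' * R = 0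
      rw [hOm, zero_pow (by omega), zero_mul]
    right
    refine ⟨1, Finset.mem_singleton_self _, one_ne_zero, ?_⟩
    change ((0 : ℕ) : ℝ) * _ - _ ≤ ((P.ord (Om e' x (hs f' w t) C0 D ^ c' * R) : ℤ) : ℝ)
    have h1 := hlow P hP D hD hOm
    rw [P.ord_mul (pow_ne_zero _ hOm) hR0, P.ord_pow, hRord]
    have h2 : (c' : ℝ) = c := by exact_mod_cast hc'
    push_cast at h1 ⊢
    rw [h2]
    linarith

end

end Pool.Agent.K9h25.M
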