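import Pool.Agent.K9h25.M.Sys0
import Pool.Agent.K9h25.M.Fin

/-!
Pairs bounded by arbitrary hypersurfaces of tori: when the adjoint divisor is not pseudoeffective.
-/

set_option autoImplicit false
set_option linter.overlappingInstances false
set_option linter.unusedSectionVars false
set_option linter.unusedVariables false

open FF IntermediateField Pool.Agent.R885 Pool.Agent.R885.N Pool.Agent.W602.GT
  Pool.Agent.W603.LV Pool.Agent.W619.PQ Pool.Agent.Y173.QA Pool.Agent.W619.TW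
  Pool.Agent.W619.Y Pool.Agent.W672.PG Pool.Agent.W824.PG Pool.Agent.Y172 Pool.Agent.Y191
  Pool.Agent.Y174

namespace Pool.Agent.K9h25.M

section

variable {k K : Type} [Field k] [CharZero k] [Field K] [Algebra k K] {n p : ℕ}
  {x : Fin (n + 1) → K} {f : (Fin (n + 1) → ℤ) →₀ k} {h : Fin p → (Fin (n + 1) → ℤ) →₀ k}

/-- **The systems of pairs bounded from above.** -/
theorem upper_sys0 (hx : ∀ i, x i ≠ 0) (hgen : IntermediateField.adjoin k (Set.range x) = ⊤)
    (hf : ev x f = 0) (hgr : gr x f ≠ 0) (hhx : ∀ j, ev x (h j) ≠ 0)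
    {A : (Fin (n + 1) → ℤ) → ℚ} (hA : N.IsWeight A) {c : Fin p → ℚ} (hc : ∀ j, 0 ≤ c j)
    {b : Place k K → ℚ} (h1 : ∀ P, b P ≤ 1)
    (h2 : ∀ P, b P ≤ (if vec P x = 0 then 0 else 1 - A (vec P x)) +
      ∑ j, c j * ((P.ord (ev x (h j)) : ℚ) - mn (vec P x) (h j))) :
    MSys0 n (fun P => ((b P : ℚ) : ℝ)) x f (fun j => ev x (h j)) c A
      (fun v => ∑ j, c j * (mn v (h j) : ℚ)) := by
  classical
  have hf0 : f ≠ 0 := by
    intro h0
    apply hgr
    rw [h0]
    funext i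
    unfold gr
    exact Finsupp.sum_zero_index
  have hh0 : ∀ j, h j ≠ 0 := by
    intro j h0
    apply hhx j
    rw [h0]
    unfold ev
    exact Finsupp.sum_zero_index
  have hP0 : PLin fun v => ∑ j, c j * (mn v (h j) : ℚ) := PLin.of_sum hh0 hc
  have hge : ∀ (P : Place k K) j, mn (vec P x) (h j) ≤ P.ord (ev x (h j)) := fun P j =>
    (ge_mn P hx (h j)).resolve_left (hhx j)
  have hth : ∀ P : Place k K, ((∑ j, c j * (mn (vec P x) (h j) : ℚ) : ℚ) : ℝ) ≤
      Th (fun j => ev x (h j)) c P := by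
    intro P
    unfold Th
    push_cast
    refine Finset.sum_le_sum fun j _ => mul_le_mul_of_nonneg_left ?_ ?_
    · exact_mod_cast hge P j
    · exact_mod_cast hc j
  have hsum : ∀ P : Place k K,
      ((∑ j, c j * ((P.ord (ev x (h j)) : ℚ) - mn (vec P x) (h j)) : ℚ) : ℝ) =
        Th (fun j => ev x (h j)) c P - ((∑ j, c j * (mn (vec P x) (h j) : ℚ) : ℚ) : ℝ) := by
    intro P
    unfold Th
    push_cast
    rw [← Finset.sum_sub_distrib]
    exact Finset.sum_congr rfl fun j _ => by ring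
  have hz : ∀ P : Place k K, vec P x = 0 →
      ((∑ j, c j * (mn (vec P x) (h j) : ℚ) : ℚ) : ℝ) = 0 := by
    intro P hv
    rw [Finset.sum_eq_zero fun j _ => by rw [hv, mn_zero (hh0 j), Int.cast_zero, mul_zero],
      Rat.cast_zero]
  refine
    { hr := rfl
      hx := hx
      hgen := hgen
      hf0 := hf0
      hf := hf
      hgr := hgr
      hy := hhx
      A0 := hA.nonneg
      A1 := hA.le_one
      AD := hA.denom
      A3 := hA.smul
      P0 := hP0
      AP := ?_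
      le1 := fun P => by exact_mod_cast h1 P
      th0 := ?_
      th1 := fun P _ => hth P
      up0 := ?_
      up1 := ?_ }
  · intro v w hv hw hvw
    have h3 := hA.add v w hv hw hvw
    have h4 := hP0.superadd v w
    linarith
  · intro P hv
    have h3 := hth P
    rw [hz P hv] at h3
    exact h3
  · intro P hv
    have h3 := (Rat.cast_le (K := ℝ)).2 (h2 P)
    rw [Rat.cast_add, hsum P, if_pos hv, hz P hv] at h3
    push_cast at h3
    linarith
  · intro P hv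
    have h3 := (Rat.cast_le (K := ℝ)).2 (h2 P)
    rw [Rat.cast_add, hsum P, if_neg hv] at h3
    push_cast at h3 ⊢
    linarith

end

section

variable {K L : Type} [Field K] [Field L] [Algebra ℂ K] [Algebra ℂ L]

/-- **Commensurable pairs.** -/
theorem transferN {n : ℕ} {M : Type} [Field M] [Algebra ℂ M] [Algebra K M]
    [Algebra L M] [IsScalarTower ℂ K M] [IsScalarTower ℂ L M] [FiniteDimensional K M]
    [FiniteDimensional L M] (htr : Algebra.trdeg ℂ L = (n : ℕ))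
    (hessL : Algebra.EssFiniteType ℂ L) {b : Place ℂ L → ℚ} {N : ℕ} {y : Fin (N + 1) → K}
    {Δ : Place ℂ K → ℚ} (hy : IsCommensurable M b y n Δ) :
    NegB ℂ L n (fun P => ((b P : ℚ) : ℝ)) → PData (n := n) y Δ (fun δ => NegB ℂ K n δ) := by
  classical
  choose e0 v0 hv0 using fun w : Place ℂ M => Pool.Agent.W73.PG.PULL.exists_over' (K := L) w
  obtain ⟨β, hβd⟩ : ∃ β : Place ℂ M → ℚ, β = fun w => 1 - (e0 w : ℚ) * (1 - b (v0 w)) :=
    ⟨_, rfl⟩
  have hβ : ∀ Q, Divisorial n Q → ∀ (Q' : Place ℂ M) (e : ℕ), LiesOn Q' Q e →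
      β Q' = 1 - e * (1 - b Q) := by
    intro Q hQ Q' e' hQ'
    obtain ⟨h1, h2⟩ := over_uniq hQ' (hv0 Q')
    rw [hβd]
    beta_reduce
    rw [h1, h2]
  have hyP : IsPulledBack β y n Δ := by
    refine ⟨hy.normal, hy.effective, ?_, ?_⟩
    · intro P hP P' e' hP'
      rw [hβd]
      beta_reduce
      rw [hy.mult P hP P' (v0 P') e' (e0 P') hP' (hv0 P')]
    · intro P hP P' e' hP'
      rw [hβd]
      beta_reduce
      rw [sub_sub_cancel]
      exact hy.disc P hP P' (v0 P') e' (e0 P') hP' (hv0 P')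
  have hessM : Algebra.EssFiniteType ℂ M := w6_ess (K := L) hessL
  have htrM : Algebra.trdeg ℂ M = (n : ℕ) := w6_trdeg (K := L) htr
  obtain ⟨z, hz⟩ := Pool.Agent.W636.PG.exists_basis ℂ M n htrM
  have htrK : Algebra.trdeg ℂ K = (n : ℕ) := by
    have h1 := trdeg_add_eq ℂ K (A := M)
    have h2 : Algebra.trdeg K M = 0 := trdeg_eq_zero
    rw [h2, add_zero, htrM] at h1
    exact h1
  obtain ⟨z', hz'⟩ := Pool.Agent.W636.PG.exists_basis ℂ K n htrK
  have hessK : Algebra.EssFiniteType ℂ K := ess_down hessM z' hz'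
  have hβ' : ∀ v, IsDivisorial v n → ∀ (w : Place ℂ M) e, LiesOn w v e →
      (fun P => ((β P : ℚ) : ℝ)) w = 1 - e * (1 - (fun P => ((b P : ℚ) : ℝ)) v) := by
    intro v hv w e hwv
    beta_reduce
    rw [hβ v hv w e hwv]
    push_cast
    ring
  obtain ⟨k1, k2, k3⟩ := fin_all (K := L) (L := M) hessL htr hβ'
  obtain ⟨δ, d1, d2, d3, d4, d5⟩ := pulled_data hessK htrK hyP
  exact fun h1 => ⟨htrK, δ, d3 (k3.2 h1), d4, d5⟩

/-- **The final statement.** -/
theorem neg_final {n p : ℕ} {M : Type} [Field M] [Algebra ℂ M] [Algebra K M]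
    [Algebra L M] [IsScalarTower ℂ K M] [IsScalarTower ℂ L M] [FiniteDimensional K M]
    [FiniteDimensional L M] (htr : Algebra.trdeg ℂ L = (n : ℕ)) {x : Fin (n + 1) → L}
    (hx : ∀ i, x i ≠ 0) (hgen : IntermediateField.adjoin ℂ (Set.range x) = ⊤)
    {f : (Fin (n + 1) → ℤ) →₀ ℂ} (hf : ev x f = 0) (hgr : gr x f ≠ 0)
    {h : Fin p → (Fin (n + 1) → ℤ) →₀ ℂ} (hhx : ∀ j, ev x (h j) ≠ 0)
    {A : (Fin (n + 1) → ℤ) → ℚ} (hA : N.IsWeight A) {c : Fin p → ℚ}
    (hc : ∀ j, 0 ≤ c j) {b : Place ℂ L → ℚ} (h1 : ∀ P, b P ≤ 1)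
    (h2 : ∀ P, b P ≤ (if vec P x = 0 then 0 else 1 - A (vec P x)) +
      ∑ j, c j * ((P.ord (ev x (h j)) : ℚ) - mn (vec P x) (h j))) {ε : ℚ} (hε : 0 < ε)
    (hF : (FineG A (fun v => ∑ j, c j * (mn v (h j) : ℚ) - ε * n1 v)
      (fun _ : Fin 1 => f)).Nonempty) {d : ℕ} (hdn : d < n)
    (hd : Algebra.trdeg ℂ (IntermediateField.adjoin ℂ {z : L |
      ∃ w ∈ dirsG A (fun v => ∑ j, c j * (mn v (h j) : ℚ) - ε * n1 v) (fun _ : Fin 1 => f),
        z = R885.mono x w}) = (d : ℕ)) {N : ℕ}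
    {y : Fin (N + 1) → K} {Δ : Place ℂ K → ℚ} (hy : IsCommensurable M b y n Δ) :
    kodairaDim y n Δ = ⊥ ∧ ∀ A, Effective y A →
      (∃ M0 : ℕ, ∀ m : ℕ, M0 ≤ m → h0 y n m (m • Δ + A) = 0) ∧ numericalDim y n Δ A = ⊥ := by
  have hB := upper_sys0 hx hgen hf hgr hhx hA hc h1 h2
  have h3 := hB.neg htr hε hF hdn hd
  obtain ⟨htr', δ, hδ, hm, hdisc⟩ := transferN (M := M) htr (ess_of_gen hgen) hy h3
  exact neg_pair htr' hy.normal hdisc hδ

end

end Pool.Agent.K9h25.M
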